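import Pool.Agent.J4.H83.Corr

/-!
Hashing: combinations of equality matrices are close to combinations of rectangles.
-/

set_option autoImplicit false

namespace Pool.Agent.J4.H83

open Finset Pool.Agent.H630R2.LR Pool.Agent.R533.VC

open Classical in
theorem coll {Z : Type*} [Fintype Z] (L : ℕ) (z z' : Z) (h : z ≠ z') :
    (univ.filter (fun f : Z → Fin L => f z = f z')).card * L = L ^ Fintype.card Z := by
  have e : L ^ Fintype.card Z = (univ : Finset (Z → Fin L)).card := by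
    rw [card_univ, Fintype.card_fun, Fintype.card_fin]
  have e2 : (univ.filter (fun f : Z → Fin L => f z = f z')).card * L =
      ((univ.filter (fun f : Z → Fin L => f z = f z')) ×ˢ (univ : Finset (Fin L))).card := by
    rw [card_product, card_univ, Fintype.card_fin]
  rw [e, e2]
  refine card_nbij' (fun p => Function.update p.1 z p.2) (fun g => (Function.update g z (g z'), g z))
    ?_ ?_ ?_ ?_
  · intro p _
    simp
  · intro g _
    simp [h.symm]
  · rintro ⟨f, s⟩ hf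
    simp only [coe_product, coe_filter, mem_univ, true_and, coe_univ, Set.mem_prod,
      Set.mem_ofPred_eq, Set.mem_univ, and_true] at hf
    simp only [Function.update_idem, Function.update_self, Prod.mk.injEq, and_true]
    rw [Function.update_of_ne h.symm, ← hf, Function.update_eq_self]
  · intro g _
    simp

section
variable {X Y Ω Z : Type*} [Fintype Ω] [Fintype Z]

/-- the rows of the rectangles -/
def ra (φ : Ω → X → Z) (L : ℕ) (p : Ω × (Z → Fin L) × Fin L) (x : X) : Prop :=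
  p.2.1 (φ p.1 x) = p.2.2

open Classical in
/-- a nonnegative combination of equality matrices -/
noncomputable def bval (φ : Ω → X → Z) (ψ : Ω → Y → Z) (w : Ω → ℝ) (x : X) (y : Y) : ℝ :=
  ∑ ω, if φ ω x = ψ ω y then w ω else 0

open Classical in
theorem val_hash (φ : Ω → X → Z) (ψ : Ω → Y → Z) (w : Ω → ℝ) (L : ℕ) (s : ℝ) (x : X) (y : Y) :
    val (ra φ L) (ra ψ L) (fun p => s * w p.1) x y =
      ∑ ω, (s * w ω) * (univ.filter (fun f : Z → Fin L => f (φ ω x) = f (ψ ω y))).card := by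
  unfold val ra
  rw [Fintype.sum_prod_type]
  refine sum_congr rfl fun ω _ => ?_
  rw [Fintype.sum_prod_type]
  simp only
  rw [card_filter]
  push_cast
  rw [mul_sum]
  refine sum_congr rfl fun f _ => ?_
  by_cases hf : f (φ ω x) = f (ψ ω y)
  · rw [if_pos hf, mul_one]
    rw [sum_eq_single (f (φ ω x))]
    · simp [hf]
    · intro c _ hc
      rw [if_neg]
      rintro ⟨h, _⟩
      exact hc h.symm
    · intro h
      exact absurd (mem_univ _) h
  · rw [if_neg hf, mul_zero]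
    refine sum_eq_zero fun c _ => ?_
    rw [if_neg]
    rintro ⟨h, h'⟩
    exact hf (h.trans h'.symm)

open Classical in
theorem val_hash_ge (φ : Ω → X → Z) (ψ : Ω → Y → Z) (w : Ω → ℝ) (hw : ∀ ω, 0 ≤ w ω) (L : ℕ)
    (hL : 1 ≤ L) (s : ℝ) (hs : 0 ≤ s) (x : X) (y : Y) :
    s * L ^ Fintype.card Z * bval φ ψ w x y ≤
      val (ra φ L) (ra ψ L) (fun p => s * w p.1) x y := by
  rw [val_hash, bval, mul_sum]
  refine sum_le_sum fun ω _ => ?_
  by_cases h : φ ω x = ψ ω y
  · rw [if_pos h]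
    have e : (univ.filter (fun f : Z → Fin L => f (φ ω x) = f (ψ ω y))) = univ := by
      rw [h]
      simp
    rw [e, card_univ, Fintype.card_fun, Fintype.card_fin]
    push_cast
    linarith
  · rw [if_neg h, mul_zero]
    have := hw ω
    positivity

open Classical in
theorem val_hash_le (φ : Ω → X → Z) (ψ : Ω → Y → Z) (w : Ω → ℝ) (hw : ∀ ω, 0 ≤ w ω) (L : ℕ)
    (hL : 1 ≤ L) (s : ℝ) (hs : 0 ≤ s) (x : X) (y : Y) :
      val (ra φ L) (ra ψ L) (fun p => s * w p.1) x y ≤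
      s * L ^ Fintype.card Z * (bval φ ψ w x y + (∑ ω, w ω) / L) := by
  have hL0 : (0 : ℝ) < L := by exact_mod_cast hL
  rw [val_hash, bval, sum_div, ← sum_add_distrib, mul_sum]
  refine sum_le_sum fun ω _ => ?_
  by_cases h : φ ω x = ψ ω y
  · rw [if_pos h]
    have e : (univ.filter (fun f : Z → Fin L => f (φ ω x) = f (ψ ω y))) = univ := by
      rw [h]
      simp
    rw [e, card_univ, Fintype.card_fun, Fintype.card_fin]
    push_cast
    have h2 : 0 ≤ w ω / L := div_nonneg (hw ω) hL0.le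
    have h3 : 0 ≤ s * (L : ℝ) ^ Fintype.card Z * (w ω / L) := by positivity
    nlinarith
  · rw [if_neg h, zero_add]
    have e := coll L (φ ω x) (ψ ω y) h
    have e' : ((univ.filter (fun f : Z → Fin L => f (φ ω x) = f (ψ ω y))).card : ℝ) =
        (L : ℝ) ^ Fintype.card Z / L := by
      rw [eq_div_iff hL0.ne']
      exact_mod_cast e
    rw [e']
    apply le_of_eq
    ring

open Classical in
theorem sum_hash (w : Ω → ℝ) (L : ℕ) (s : ℝ) :
    ∑ p : Ω × (Z → Fin L) × Fin L, s * w p.1 = s * L ^ Fintype.card Z * L * ∑ ω, w ω := by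
  rw [Fintype.sum_prod_type]
  simp only [sum_const, nsmul_eq_mul]
  rw [card_univ, Fintype.card_prod, Fintype.card_fun, Fintype.card_fin, mul_sum]
  refine sum_congr rfl fun ω _ => ?_
  push_cast
  ring

end

theorem two_le_pow' (m : ℕ) (hm : 1 ≤ m) : (2 : ℝ) ≤ (1 + 1 / (m : ℝ)) ^ m := by
  have hm0 : (0 : ℝ) < m := by exact_mod_cast hm
  have h := one_add_mul_le_pow (a := 1 / (m : ℝ)) (by
    have : 0 ≤ 1 / (m : ℝ) := by positivity
    linarith) m
  have e : (m : ℝ) * (1 / m) = 1 := by field_simp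
  rw [e] at h
  linarith

open Classical in
/-- **The protocol.** -/
theorem blocky_proto {X Y Ω Z : Type*} [Fintype X] [Fintype Y] [Fintype Ω] [Fintype Z]
    (F : X → Y → Bool) (v : Bool) (φ : Ω → X → Z) (ψ : Ω → Y → Z) (w : Ω → ℝ)
    (hw : ∀ ω, 0 ≤ w ω) (k g : ℕ) (hg : 1 ≤ g) (hW : ∑ ω, w ω ≤ 2 ^ k)
    (h1 : ∀ x y, F x y = v → 1 + 1 / (g : ℝ) ≤ bval φ ψ w x y)
    (h0 : ∀ x y, F x y ≠ v → bval φ ψ w x y ≤ 1)
    (hr : 1 ≤ (Pool.Agent.H630R2.LR.comm F).rank) :
    Proto F (2 * ((2 * k + 2 + Nat.clog 2 g) * (2 * g * (7 + 2 * Nat.clog 2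
      (Pool.Agent.H630R2.LR.comm F).rank)) + Nat.clog 2 (Pool.Agent.H630R2.LR.comm F).rank + 4) *
      Nat.clog 2 (Pool.Agent.H630R2.LR.comm F).rank + 2) := by
  set r := (Pool.Agent.H630R2.LR.comm F).rank with hrdef
  set c := Nat.clog 2 r with hc
  set k' := 2 * k + 2 + Nat.clog 2 g with hk'
  set t := 2 * g * (7 + 2 * c) with ht
  set L : ℕ := 4 * g * 2 ^ k with hL
  have hL1 : 1 ≤ L := by
    have : 1 ≤ 2 ^ k := Nat.one_le_pow _ _ (by norm_num)
    calc 1 = 1 * 1 := rfl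
      _ ≤ (4 * g) * 2 ^ k := Nat.mul_le_mul (by omega) this
  have hL0 : (0 : ℝ) < L := by exact_mod_cast hL1
  have hg0 : (0 : ℝ) < g := by exact_mod_cast hg
  have hg4 : (0 : ℝ) < 1 + 1 / (4 * (g : ℝ)) := by positivity
  set s : ℝ := 1 / ((L : ℝ) ^ Fintype.card Z * (1 + 1 / (4 * (g : ℝ)))) with hs
  have hs0 : 0 ≤ s := by positivity
  have hsL : s * (L : ℝ) ^ Fintype.card Z = 1 / (1 + 1 / (4 * (g : ℝ))) := by
    rw [hs]
    field_simp
  have hWL : (∑ ω, w ω) / L ≤ 1 / (4 * (g : ℝ)) := by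
    rw [div_le_div_iff₀ hL0 (by positivity)]
    rw [hL]
    push_cast
    nlinarith [mul_le_mul_of_nonneg_right hW (by positivity : (0 : ℝ) ≤ 4 * g)]
  have hrich : Rich F (4 * 2 ^ (k' * t)) := by
    refine rich F v (r + 1) le_rfl (ra φ L) (ra ψ L) (fun p => s * w p.1)
      (fun p => mul_nonneg hs0 (hw p.1)) k' t ?_ (1 + 1 / (((2 * g : ℕ)) : ℝ)) ?_ ?_ ?_ ?_
    · rw [sum_hash, hsL]
      have h2 : 1 / (1 + 1 / (4 * (g : ℝ))) ≤ 1 := by
        rw [div_le_one hg4]
        have : 0 ≤ 1 / (4 * (g : ℝ)) := by positivity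
        linarith
      have h3 : 0 ≤ ∑ ω, w ω := sum_nonneg fun ω _ => hw ω
      have h4 : (g : ℝ) ≤ 2 ^ Nat.clog 2 g := by
        exact_mod_cast Nat.le_pow_clog (by norm_num) g
      calc 1 / (1 + 1 / (4 * (g : ℝ))) * L * ∑ ω, w ω ≤ 1 * L * 2 ^ k := by
            apply mul_le_mul (mul_le_mul_of_nonneg_right h2 hL0.le) hW h3 (by positivity)
        _ = 2 ^ (2 * k + 2) * g := by
            rw [hL]
            push_cast
            ring
        _ ≤ 2 ^ (2 * k + 2) * 2 ^ Nat.clog 2 g := mul_le_mul_of_nonneg_left h4 (by positivity)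
        _ = 2 ^ k' := by rw [← pow_add]
    · have : 0 ≤ 1 / (((2 * g : ℕ)) : ℝ) := by positivity
      linarith
    · intro x y hF
      refine le_trans ?_ (val_hash_ge φ ψ w hw L hL1 s hs0 x y)
      rw [hsL]
      have h2 := h1 x y hF
      have h3 : (1 + 1 / (((2 * g : ℕ)) : ℝ)) * (1 + 1 / (4 * (g : ℝ))) ≤ 1 + 1 / (g : ℝ) := by
        push_cast
        have hi : 1 / (g : ℝ) ≤ 1 := by
          rw [div_le_one hg0]
          exact_mod_cast hg
        have hi0 : 0 ≤ 1 / (g : ℝ) := by positivity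
        have e1 : 1 / (2 * (g : ℝ)) = 1 / 2 * (1 / g) := by field_simp
        have e2 : 1 / (4 * (g : ℝ)) = 1 / 4 * (1 / g) := by field_simp
        rw [e1, e2]
        nlinarith
      rw [one_div_mul_eq_div, le_div_iff₀ hg4]
      linarith
    · intro x y hF
      refine (val_hash_le φ ψ w hw L hL1 s hs0 x y).trans ?_
      rw [hsL, one_div_mul_eq_div, div_le_one hg4]
      have h2 := h0 x y hF
      linarith
    · have e1 : (1 + 1 / (((2 * g : ℕ)) : ℝ)) ^ t =
          ((1 + 1 / (((2 * g : ℕ)) : ℝ)) ^ (2 * g)) ^ (7 + 2 * c) := by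
        rw [ht, pow_mul]
      rw [e1]
      have e2 := two_le_pow' (2 * g) (by omega)
      have e3 : (2 : ℝ) ^ (7 + 2 * c) ≤ ((1 + 1 / (((2 * g : ℕ)) : ℝ)) ^ (2 * g)) ^ (7 + 2 * c) :=
        pow_le_pow_left₀ (by norm_num) e2 _
      refine le_trans ?_ e3
      have e4 : r ≤ 2 ^ c := Nat.le_pow_clog (by norm_num) r
      have e5 : 4 * (r + 1) * (4 * (r + 1) + 1) ≤ 2 ^ (7 + 2 * c) := by
        calc 4 * (r + 1) * (4 * (r + 1) + 1) ≤ (8 * r) * (9 * r) := by
              exact Nat.mul_le_mul (by omega) (by omega)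
          _ ≤ 2 ^ 7 * (r * r) := by nlinarith
          _ ≤ 2 ^ 7 * (2 ^ c * 2 ^ c) := Nat.mul_le_mul_left _ (Nat.mul_le_mul e4 e4)
          _ = 2 ^ (7 + 2 * c) := by rw [pow_add, two_mul, pow_add]
      exact_mod_cast e5
  refine nw F _ ?_ hrich _ ?_
  · have : 1 ≤ 2 ^ (k' * t) := Nat.one_le_pow _ _ (by norm_num)
    omega
  · have e4 : r ≤ 2 ^ c := Nat.le_pow_clog (by norm_num) r
    have e5 : 1 ≤ 2 ^ (k' * t + c) := Nat.one_le_pow _ _ (by norm_num)
    calc 2 * r * (4 * 2 ^ (k' * t)) + 2 ≤ 2 * 2 ^ c * (4 * 2 ^ (k' * t)) + 2 := by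
          have := Nat.mul_le_mul_right (4 * 2 ^ (k' * t)) (Nat.mul_le_mul_left 2 e4)
          omega
      _ = 8 * 2 ^ (k' * t + c) + 2 := by rw [pow_add]; ring
      _ ≤ 16 * 2 ^ (k' * t + c) := by omega
      _ = 2 ^ (k' * t + c + 4) := by rw [pow_add _ _ 4]; ring

end Pool.Agent.J4.H83
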