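import Mathlib

/-!
Transcripts of protocols.
-/

set_option autoImplicit false

namespace Pool.Agent.J4.H83

variable {X Y : Type*} (owner : List Bool → Bool) (a : List Bool → X → Bool)
  (b : List Bool → Y → Bool)

/-- the transcript after `k` bits -/
def tr (x : X) (y : Y) (k : ℕ) : List Bool :=
  Nat.iterate (fun t : List Bool => t ++ [if owner t then a t x else b t y]) k []

theorem tr_succ (x : X) (y : Y) (k : ℕ) : tr owner a b x y (k + 1) =
    tr owner a b x y k ++ [if owner (tr owner a b x y k) then a (tr owner a b x y k) x
      else b (tr owner a b x y k) y] := by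
  unfold tr
  rw [Function.iterate_succ_apply']

theorem tr_length (x : X) (y : Y) (k : ℕ) : (tr owner a b x y k).length = k := by
  induction k with
  | zero => rfl
  | succ k ih => rw [tr_succ, List.length_append, ih]; rfl

theorem tr_take (x : X) (y : Y) (k m : ℕ) :
    (tr owner a b x y (k + m)).take k = tr owner a b x y k := by
  induction m with
  | zero => rw [Nat.add_zero]; exact List.take_of_length_le (tr_length owner a b x y k).le
  | succ m ih =>
    rw [← Nat.add_assoc, tr_succ, List.take_append_of_le_length, ih]
    rw [tr_length]
    omega

/-- the rectangle property -/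
theorem tr_rect (x x' : X) (y y' : Y) (c : ℕ)
    (h : tr owner a b x y c = tr owner a b x' y' c) :
    tr owner a b x y' c = tr owner a b x y c := by
  have hk : ∀ k ≤ c, tr owner a b x y k = tr owner a b x' y' k := by
    intro k hk
    obtain ⟨m, rfl⟩ := Nat.exists_eq_add_of_le hk
    rw [← tr_take owner a b x y k m, h, tr_take]
  have key : ∀ k ≤ c, tr owner a b x y' k = tr owner a b x y k := by
    intro k
    induction k with
    | zero => intro _; rfl
    | succ k ih =>
      intro hkc
      have h1 := ih (by omega)
      have h2 := hk k (by omega)
      have h3 := hk (k + 1) hkc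
      have e1 := tr_succ owner a b x y' k
      rw [h1] at e1
      by_cases ho : owner (tr owner a b x y k) = true
      · rw [e1, tr_succ owner a b x y k]
        simp only [ho, if_true]
      · rw [e1, h3, tr_succ owner a b x' y' k, ← h2]
        simp only [ho, Bool.false_eq_true, if_false]
  exact key c le_rfl

end Pool.Agent.J4.H83
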