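import Pool.Agent.R533.VC.NW

/-!
Low rank matrices: sparse submatrices, one-sided combinations of rectangles.
-/

set_option autoImplicit false

namespace Pool.Agent.J4.H83

open Finset Pool.Agent.H630R2.LR Pool.Agent.R533.VC

/-- A sparse rectangle of a matrix of small rank contains a zero rectangle made of half of the rows
and half of the columns. -/
theorem sparse_zero {X Y : Type*} [Fintype X] [Fintype Y] (M : Matrix X Y ℝ) (ρ : ℕ)
    (hρ : M.rank ≤ ρ) (h1 : 1 ≤ ρ) (A : Finset X) (B : Finset Y)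
    (hB : B.Nonempty)
    (hsp : 4 * ρ * ∑ x ∈ A, (B.filter (fun y => M x y ≠ 0)).card ≤ A.card * B.card) :
    ∃ A' ⊆ A, ∃ B' ⊆ B, (∀ x ∈ A', ∀ y ∈ B', M x y = 0) ∧ A.card ≤ 2 * A'.card ∧
      B.card ≤ 2 * B'.card := by
  classical
  set N : X → ℕ := fun x => (B.filter (fun y => M x y ≠ 0)).card with hN
  set A' := A.filter (fun x => 2 * ρ * N x ≤ B.card) with hA'
  have hBc : 0 < B.card := hB.card_pos
  -- the size of `A'`
  have hAA : A.card ≤ 2 * A'.card := by
    set A₂ := A.filter (fun x => ¬ 2 * ρ * N x ≤ B.card) with hA₂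
    have e1 : A'.card + A₂.card = A.card := card_filter_add_card_filter_not _
    have e2 : A₂.card * B.card ≤ 2 * ρ * ∑ x ∈ A, N x := by
      rw [mul_sum]
      calc A₂.card * B.card = ∑ x ∈ A₂, B.card := by rw [sum_const, smul_eq_mul]
        _ ≤ ∑ x ∈ A₂, 2 * ρ * N x := by
          refine sum_le_sum fun x hx => ?_
          rw [hA₂, mem_filter] at hx
          omega
        _ ≤ _ := sum_le_sum_of_subset (filter_subset _ _)
    have e3 : 2 * (A₂.card * B.card) ≤ A.card * B.card := by
      calc 2 * (A₂.card * B.card) ≤ 2 * (2 * ρ * ∑ x ∈ A, N x) := Nat.mul_le_mul_left _ e2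
        _ = 4 * ρ * ∑ x ∈ A, N x := by ring
        _ ≤ _ := hsp
    have e4 : 2 * A₂.card ≤ A.card := by
      have : (2 * A₂.card) * B.card ≤ A.card * B.card := by
        calc (2 * A₂.card) * B.card = 2 * (A₂.card * B.card) := by ring
          _ ≤ _ := e3
      exact Nat.le_of_mul_le_mul_right this hBc
    omega
  -- spanning rows of `A'`
  set M' : Matrix A' Y ℝ := M.submatrix (fun x : A' => x.1) id with hM'
  obtain ⟨T, hT, hspan⟩ := exists_rows M'
  have hTρ : T.card ≤ ρ := hT.trans ((Matrix.rank_submatrix_le M _ _).trans hρ)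
  set B' := B.filter (fun y => ∀ x ∈ T, M' x y = 0) with hB'
  refine ⟨A', filter_subset _ _, B', filter_subset _ _, ?_, hAA, ?_⟩
  · intro x hx y hy
    rw [hB', mem_filter] at hy
    exact span_zero M' T y (fun a ha => hy.2 a ha) _ (hspan ⟨x, hx⟩)
  · set B₂ := B.filter (fun y => ¬ ∀ x ∈ T, M' x y = 0) with hB₂
    have e1 : B'.card + B₂.card = B.card := card_filter_add_card_filter_not _
    have e2 : B₂.card ≤ ∑ x ∈ T, N x.1 := by
      refine le_trans (card_le_card (t := T.biUnion fun x => B.filter (fun y => M x.1 y ≠ 0)) ?_)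
        card_biUnion_le
      intro y hy
      rw [hB₂, mem_filter] at hy
      obtain ⟨hyB, hy⟩ := hy
      push Not at hy
      obtain ⟨x, hx, hxy⟩ := hy
      rw [mem_biUnion]
      exact ⟨x, hx, mem_filter.mpr ⟨hyB, hxy⟩⟩
    have e3 : 2 * ρ * B₂.card ≤ ρ * B.card := by
      calc 2 * ρ * B₂.card ≤ 2 * ρ * ∑ x ∈ T, N x.1 := Nat.mul_le_mul_left _ e2
        _ = ∑ x ∈ T, 2 * ρ * N x.1 := by rw [mul_sum]
        _ ≤ ∑ x ∈ T, B.card := by
          refine sum_le_sum fun x _ => ?_
          exact (mem_filter.mp x.2).2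
        _ = T.card * B.card := by rw [sum_const, smul_eq_mul]
        _ ≤ ρ * B.card := Nat.mul_le_mul_right _ hTρ
    have e4 : ρ * (2 * B₂.card) ≤ ρ * B.card := by
      calc ρ * (2 * B₂.card) = 2 * ρ * B₂.card := by ring
        _ ≤ _ := e3
    have e5 := Nat.le_of_mul_le_mul_left e4 h1
    omega

/-- the matrix of the entries with value `v` -/
noncomputable def ind {X Y : Type*} (F : X → Y → Bool) (v : Bool) : Matrix X Y ℝ :=
  Matrix.of (fun x y => if F x y = v then (1 : ℝ) else 0)

theorem rank_add_le' {X Y : Type*} [Fintype X] [Fintype Y] (M N : Matrix X Y ℝ) :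
    (M + N).rank ≤ M.rank + N.rank := by
  classical
  have h : LinearMap.range (M + N).mulVecLin ≤
      LinearMap.range M.mulVecLin ⊔ LinearMap.range N.mulVecLin := by
    rintro _ ⟨v, rfl⟩
    rw [Matrix.mulVecLin_add, LinearMap.add_apply]
    exact Submodule.add_mem_sup ⟨v, rfl⟩ ⟨v, rfl⟩
  calc (M + N).rank ≤ Module.finrank ℝ
        ↥(LinearMap.range M.mulVecLin ⊔ LinearMap.range N.mulVecLin) := Submodule.finrank_mono h
    _ ≤ M.rank + N.rank := Submodule.finrank_add_le_finrank_add_finrank _ _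

theorem ind_rank {X Y : Type*} [Fintype X] [Fintype Y] (F : X → Y → Bool) (v : Bool) :
    (ind F v).rank ≤ (Pool.Agent.H630R2.LR.comm F).rank + 1 := by
  classical
  cases v
  · have e : ind F false = (Matrix.vecMulVec (fun _ => (1 : ℝ)) (fun _ => (1 : ℝ))) +
        Matrix.diagonal (fun _ : X => (-1 : ℝ)) * Pool.Agent.H630R2.LR.comm F := by
      ext x y
      rw [Matrix.add_apply, Matrix.diagonal_mul]
      simp only [ind, Pool.Agent.H630R2.LR.comm, Matrix.of_apply, Matrix.vecMulVec_apply]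
      cases F x y <;> simp
    rw [e]
    refine (rank_add_le' _ _).trans ?_
    have h1 := Matrix.rank_vecMulVec_le (fun _ : X => (1 : ℝ)) (fun _ : Y => (1 : ℝ))
    have h2 := Matrix.rank_mul_le_right (Matrix.diagonal (fun _ : X => (-1 : ℝ)))
      (Pool.Agent.H630R2.LR.comm F)
    omega
  · have e : ind F true = Pool.Agent.H630R2.LR.comm F := by
      ext x y
      simp [ind, Pool.Agent.H630R2.LR.comm]
    rw [e]
    omega

theorem ind_ne {X Y : Type*} (F : X → Y → Bool) (v : Bool) (x : X) (y : Y) :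
    ind F v x y ≠ 0 ↔ F x y = v := by
  simp [ind]

section amp

variable {X Y Ω : Type*} [Fintype Ω]

open Classical in
/-- the value of a nonnegative combination of rectangles -/
noncomputable def val (a : Ω → X → Prop) (b : Ω → Y → Prop) (w : Ω → ℝ) (x : X) (y : Y) : ℝ :=
  ∑ ω, if a ω x ∧ b ω y then w ω else 0

open Classical in
theorem amp (a : Ω → X → Prop) (b : Ω → Y → Prop) (w : Ω → ℝ) (hw : ∀ ω, 0 ≤ w ω) (W : ℝ)
    (hW : ∑ ω, w ω ≤ W) (φ : X → Y → ℝ) (t : ℕ) : ∀ (A : Finset X) (B : Finset Y) (θ : ℝ), 0 < θ →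
    θ ≤ ∑ x ∈ A, ∑ y ∈ B, val a b w x y ^ t * φ x y →
    ∃ A' ⊆ A, ∃ B' ⊆ B, θ ≤ W ^ t * ∑ x ∈ A', ∑ y ∈ B', φ x y := by
  have hW0 : 0 ≤ W := (sum_nonneg fun ω _ => hw ω).trans hW
  induction t with
  | zero =>
    intro A B θ _ h
    refine ⟨A, Subset.rfl, B, Subset.rfl, ?_⟩
    simpa using h
  | succ t ih =>
    intro A B θ hθ h
    set c : Ω → ℝ := fun ω => ∑ x ∈ A.filter (a ω), ∑ y ∈ B.filter (b ω),
      val a b w x y ^ t * φ x y with hc
    have e : ∑ x ∈ A, ∑ y ∈ B, val a b w x y ^ (t + 1) * φ x y = ∑ ω, w ω * c ω := by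
      have e1 : ∀ x y, val a b w x y ^ (t + 1) * φ x y =
          ∑ ω, if a ω x ∧ b ω y then w ω * (val a b w x y ^ t * φ x y) else 0 := by
        intro x y
        have e2 : val a b w x y ^ (t + 1) * φ x y =
            (∑ ω, if a ω x ∧ b ω y then w ω else 0) * (val a b w x y ^ t * φ x y) := by
          rw [pow_succ]
          show val a b w x y ^ t * val a b w x y * φ x y =
            val a b w x y * (val a b w x y ^ t * φ x y)
          ring
        rw [e2, sum_mul]
        refine sum_congr rfl fun ω _ => ?_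
        split_ifs
        · rfl
        · rw [zero_mul]
      simp only [e1]
      calc ∑ x ∈ A, ∑ y ∈ B, ∑ ω, (if a ω x ∧ b ω y then w ω * (val a b w x y ^ t * φ x y) else 0)
          = ∑ x ∈ A, ∑ ω, ∑ y ∈ B,
            (if a ω x ∧ b ω y then w ω * (val a b w x y ^ t * φ x y) else 0) :=
            sum_congr rfl fun x _ => sum_comm
        _ = ∑ ω, ∑ x ∈ A, ∑ y ∈ B,
            (if a ω x ∧ b ω y then w ω * (val a b w x y ^ t * φ x y) else 0) := sum_comm
        _ = ∑ ω, w ω * c ω := by
            refine sum_congr rfl fun ω _ => ?_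
            rw [hc]
            simp only
            rw [sum_filter, mul_sum]
            refine sum_congr rfl fun x _ => ?_
            by_cases hx : a ω x
            · simp only [hx, true_and, if_true]
              rw [sum_filter, mul_sum]
              refine sum_congr rfl fun y _ => ?_
              split_ifs
              · rfl
              · rw [mul_zero]
            · simp [hx]
    have hex : ∃ ω, θ ≤ W * c ω := by
      by_contra hcon
      push Not at hcon
      have h1 : ∀ ω ∈ (univ : Finset Ω), W * (w ω * c ω) ≤ w ω * θ := by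
        intro ω _
        calc W * (w ω * c ω) = w ω * (W * c ω) := by ring
          _ ≤ w ω * θ := mul_le_mul_of_nonneg_left (hcon ω).le (hw ω)
      have h2 : W * ∑ ω, w ω * c ω ≤ W * θ := by
        rw [mul_sum]
        calc ∑ ω, W * (w ω * c ω) ≤ ∑ ω, w ω * θ := sum_le_sum h1
          _ = (∑ ω, w ω) * θ := by rw [sum_mul]
          _ ≤ W * θ := mul_le_mul_of_nonneg_right hW hθ.le
      have hW1 : 0 < W := by
        rcases hW0.lt_or_eq with h3 | h3
        · exact h3
        · exfalso
          have h4 : ∑ ω, w ω = 0 := le_antisymm (h3 ▸ hW) (sum_nonneg fun ω _ => hw ω)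
          have h5 : ∀ ω, w ω = 0 := fun ω =>
            (sum_eq_zero_iff_of_nonneg fun ω _ => hw ω).mp h4 ω (mem_univ _)
          have h6 : ∑ ω, w ω * c ω = 0 := sum_eq_zero fun ω _ => by rw [h5 ω, zero_mul]
          rw [e, h6] at h
          linarith
      by_cases hall : ∃ ω, 0 < w ω
      · obtain ⟨ω0, hω0⟩ := hall
        have h3 : ∑ ω, W * (w ω * c ω) < ∑ ω, w ω * θ := by
          refine sum_lt_sum h1 ⟨ω0, mem_univ _, ?_⟩
          calc W * (w ω0 * c ω0) = w ω0 * (W * c ω0) := by ring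
            _ < w ω0 * θ := mul_lt_mul_of_pos_left (hcon ω0) hω0
        have h4 : W * ∑ ω, w ω * c ω < W * θ := by
          rw [mul_sum]
          calc ∑ ω, W * (w ω * c ω) < ∑ ω, w ω * θ := h3
            _ = (∑ ω, w ω) * θ := by rw [sum_mul]
            _ ≤ W * θ := mul_le_mul_of_nonneg_right hW hθ.le
        have h5 := lt_of_mul_lt_mul_left h4 hW0
        rw [e] at h
        linarith
      · push Not at hall
        have h5 : ∀ ω, w ω = 0 := fun ω => le_antisymm (hall ω) (hw ω)
        have h6 : ∑ ω, w ω * c ω = 0 := sum_eq_zero fun ω _ => by rw [h5 ω, zero_mul]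
        rw [e, h6] at h
        linarith
    obtain ⟨ω, hω⟩ := hex
    have hW1 : 0 < W := by
      rcases hW0.lt_or_eq with h3 | h3
      · exact h3
      · rw [← h3, zero_mul] at hω
        linarith
    obtain ⟨A', hA', B', hB', h'⟩ := ih (A.filter (a ω)) (B.filter (b ω)) (θ / W)
      (div_pos hθ hW1) (by rw [div_le_iff₀ hW1, mul_comm]; exact hω)
    refine ⟨A', hA'.trans (filter_subset _ _), B', hB'.trans (filter_subset _ _), ?_⟩
    rw [div_le_iff₀ hW1] at h'
    rw [pow_succ]
    linarith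

end amp

open Classical in
/-- **A one-sided combination of rectangles gives large monochromatic rectangles.** -/
theorem rich {X Y Ω : Type*} [Fintype X] [Fintype Y] [Fintype Ω] (F : X → Y → Bool) (v : Bool)
    (ρ : ℕ) (hρ : (Pool.Agent.H630R2.LR.comm F).rank + 1 ≤ ρ) (a : Ω → X → Prop)
    (b : Ω → Y → Prop) (w : Ω → ℝ) (hw : ∀ ω, 0 ≤ w ω) (k t : ℕ)
    (hW : ∑ ω, w ω ≤ 2 ^ k) (β : ℝ) (hβ : 1 ≤ β) (h1 : ∀ x y, F x y = v → β ≤ val a b w x y)
    (h0 : ∀ x y, F x y ≠ v → val a b w x y ≤ 1)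
    (ht : 4 * (ρ : ℝ) * (4 * ρ + 1) ≤ β ^ t) : Rich F (4 * 2 ^ (k * t)) := by
  intro A B hA hB
  have hρ1 : 1 ≤ ρ := by omega
  have hval0 : ∀ x y, 0 ≤ val a b w x y := by
    intro x y
    refine sum_nonneg fun ω _ => ?_
    split_ifs
    · exact hw ω
    · exact le_rfl
  have hq : 1 ≤ 2 ^ (k * t) := Nat.one_le_pow _ _ (by norm_num)
  have hsum : ∀ (u : Bool) (A : Finset X) (B : Finset Y),
      ((∑ x ∈ A, (B.filter (fun y => ind F u x y ≠ 0)).card : ℕ) : ℝ) =
      ∑ x ∈ A, ∑ y ∈ B, if F x y = u then (1 : ℝ) else 0 := by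
    intro u A B
    push_cast
    refine sum_congr rfl fun x _ => ?_
    rw [card_filter]
    push_cast
    refine sum_congr rfl fun y _ => ?_
    simp only [ind_ne]
  by_cases hcase : 4 * ρ * ∑ x ∈ A, (B.filter (fun y => ind F v x y ≠ 0)).card ≤ A.card * B.card
  · obtain ⟨A', hA', B', hB', hz, hc1, hc2⟩ :=
      sparse_zero (ind F v) ρ ((ind_rank F v).trans hρ) hρ1 A B hB hcase
    refine ⟨A', hA', B', hB', !v, fun x hx y hy => ?_, ?_⟩
    · have h2 := hz x hx y hy
      have h3 : ¬ F x y = v := by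
        rw [← ind_ne F v x y]
        exact fun h => h h2
      cases v <;> cases h4 : F x y <;> simp_all
    · calc A.card * B.card ≤ (2 * A'.card) * (2 * B'.card) := Nat.mul_le_mul hc1 hc2
        _ = 4 * 1 * (A'.card * B'.card) := by ring
        _ ≤ 4 * 2 ^ (k * t) * (A'.card * B'.card) :=
          Nat.mul_le_mul_right _ (Nat.mul_le_mul_left _ hq)
  · push Not at hcase
    set φ : X → Y → ℝ := fun x y => (if F x y = v then (1 : ℝ) else 0) -
      4 * ρ * (if F x y = !v then (1 : ℝ) else 0) with hφ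
    have hAc : (0 : ℝ) < A.card := by exact_mod_cast hA.card_pos
    have hBc : (0 : ℝ) < B.card := by exact_mod_cast hB.card_pos
    have hρ0 : (0 : ℝ) < ρ := by exact_mod_cast hρ1
    have hβt : (0 : ℝ) ≤ β ^ t := by positivity
    have hcase' : ((A.card : ℝ) * B.card) ≤ 4 * ρ * ∑ x ∈ A, ∑ y ∈ B,
        if F x y = v then (1 : ℝ) else 0 := by
      rw [← hsum v A B]
      exact_mod_cast hcase.le
    have key : ((A.card : ℝ) * B.card) ≤ ∑ x ∈ A, ∑ y ∈ B, val a b w x y ^ t * φ x y := by
      have h2 : ∀ x y, β ^ t * (if F x y = v then (1 : ℝ) else 0) - 4 * ρ ≤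
          val a b w x y ^ t * φ x y := by
        intro x y
        by_cases hF : F x y = v
        · have hF' : ¬ F x y = !v := by rw [hF]; cases v <;> simp
          simp only [hφ, hF, if_true]
          have h3 : β ^ t ≤ val a b w x y ^ t := pow_le_pow_left₀ (by linarith) (h1 x y hF) t
          have h4 : (if v = !v then (1 : ℝ) else 0) = 0 := by cases v <;> simp
          rw [h4]
          nlinarith
        · have hF' : F x y = !v := by cases v <;> cases h5 : F x y <;> simp_all
          simp only [hφ, hF, if_false, hF', if_true]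
          have h3 : val a b w x y ^ t ≤ 1 := pow_le_one₀ (hval0 x y) (h0 x y hF)
          have h4 : (if (!v) = v then (1 : ℝ) else 0) = 0 := by cases v <;> simp
          rw [h4]
          nlinarith
      calc ((A.card : ℝ) * B.card) ≤ β ^ t * (∑ x ∈ A, ∑ y ∈ B, if F x y = v then (1 : ℝ) else 0)
            - 4 * ρ * (A.card * B.card) := by
            set S := ∑ x ∈ A, ∑ y ∈ B, if F x y = v then (1 : ℝ) else 0 with hS
            have hS0 : 0 ≤ S := by
              rw [hS]
              refine sum_nonneg fun x _ => sum_nonneg fun y _ => ?_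
              split_ifs <;> norm_num
            have h5 : 4 * (ρ : ℝ) * (4 * ρ + 1) * S ≤ β ^ t * S :=
              mul_le_mul_of_nonneg_right ht hS0
            have h6 : (4 * (ρ : ℝ) + 1) * (A.card * B.card) ≤ (4 * ρ + 1) * (4 * ρ * S) :=
              mul_le_mul_of_nonneg_left hcase' (by positivity)
            nlinarith
        _ = ∑ x ∈ A, ∑ y ∈ B, (β ^ t * (if F x y = v then (1 : ℝ) else 0) - 4 * ρ) := by
            simp only [sum_sub_distrib, sum_const, nsmul_eq_mul, ← mul_sum]
            ring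
        _ ≤ _ := sum_le_sum fun x _ => sum_le_sum fun y _ => h2 x y
    obtain ⟨A', hA', B', hB', h'⟩ := amp a b w hw (2 ^ k) hW φ t A B _ (mul_pos hAc hBc) key
    have hpos : 0 < ∑ x ∈ A', ∑ y ∈ B', φ x y := by
      by_contra hcon
      push Not at hcon
      have : ((2 : ℝ) ^ k) ^ t * ∑ x ∈ A', ∑ y ∈ B', φ x y ≤ 0 :=
        mul_nonpos_of_nonneg_of_nonpos (by positivity) hcon
      have := mul_pos hAc hBc
      linarith
    have hB'ne : B'.Nonempty := by
      rw [nonempty_iff_ne_empty]
      rintro rfl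
      simp at hpos
    have e1 : ∑ x ∈ A', ∑ y ∈ B', φ x y = (∑ x ∈ A', ∑ y ∈ B', if F x y = v then (1 : ℝ) else 0) -
        4 * ρ * ∑ x ∈ A', ∑ y ∈ B', if F x y = !v then (1 : ℝ) else 0 := by
      simp only [hφ, sum_sub_distrib, mul_sum]
    have e2 : (∑ x ∈ A', ∑ y ∈ B', if F x y = v then (1 : ℝ) else 0) ≤ A'.card * B'.card := by
      calc (∑ x ∈ A', ∑ y ∈ B', if F x y = v then (1 : ℝ) else 0) ≤
          ∑ x ∈ A', ∑ y ∈ B', (1 : ℝ) := by
            refine sum_le_sum fun x _ => sum_le_sum fun y _ => ?_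
            split_ifs <;> norm_num
        _ = A'.card * B'.card := by simp
    have e3 : (0 : ℝ) ≤ ∑ x ∈ A', ∑ y ∈ B', if F x y = !v then (1 : ℝ) else 0 := by
      refine sum_nonneg fun x _ => sum_nonneg fun y _ => ?_
      split_ifs <;> norm_num
    obtain ⟨A₂, hA₂, B₂, hB₂, hz, hc1, hc2⟩ :=
      sparse_zero (ind F (!v)) ρ ((ind_rank F (!v)).trans hρ) hρ1 A' B' hB'ne (by
        have h5 : 4 * (ρ : ℝ) * ((∑ x ∈ A', (B'.filter (fun y => ind F (!v) x y ≠ 0)).card : ℕ) : ℝ)
            ≤ A'.card * B'.card := by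
          rw [hsum (!v) A' B']
          linarith
        exact_mod_cast h5)
    refine ⟨A₂, hA₂.trans hA', B₂, hB₂.trans hB', v, fun x hx y hy => ?_, ?_⟩
    · have h2 := hz x hx y hy
      have h3 : ¬ F x y = !v := by
        rw [← ind_ne F (!v) x y]
        exact fun h => h h2
      cases v <;> cases h4 : F x y <;> simp_all
    · have h5 : ((A.card : ℝ) * B.card) ≤ 2 ^ (k * t) * (A'.card * B'.card) := by
        refine h'.trans ?_
        rw [← pow_mul]
        refine mul_le_mul_of_nonneg_left ?_ (by positivity)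
        have : 0 ≤ 4 * (ρ : ℝ) * ∑ x ∈ A', ∑ y ∈ B', if F x y = !v then (1 : ℝ) else 0 := by
          positivity
        linarith
      have h6 : A.card * B.card ≤ 2 ^ (k * t) * (A'.card * B'.card) := by exact_mod_cast h5
      calc A.card * B.card ≤ 2 ^ (k * t) * (A'.card * B'.card) := h6
        _ ≤ 2 ^ (k * t) * ((2 * A₂.card) * (2 * B₂.card)) :=
          Nat.mul_le_mul_left _ (Nat.mul_le_mul hc1 hc2)
        _ = 4 * 2 ^ (k * t) * (A₂.card * B₂.card) := by ring

end Pool.Agent.J4.H83
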