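import Pool.Agent.J4.H83.UnFin

/-!
Columns which are constant on cosets of subgroups of small index.
-/

set_option autoImplicit false
set_option linter.unusedSectionVars false

namespace Pool.Agent.J4.H83

open Finset Pool.Agent.H630R2.LR Pool.Agent.R533.VC

/-- **A cover of the entries with value `v` by `2 ^ κ` rectangles gives a protocol** (Lovász and
Saks). -/
theorem cover_proto_v {X Y Ω : Type*} [Fintype X] [Fintype Y] [Fintype Ω] (F : X → Y → Bool)
    (v : Bool) (a : Ω → X → Prop) (b : Ω → Y → Prop) (κ : ℕ) (hκ : Fintype.card Ω ≤ 2 ^ κ)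
    (h1 : ∀ ω x y, a ω x → b ω y → F x y = v)
    (h2 : ∀ x y, F x y = v → ∃ ω, a ω x ∧ b ω y) :
    ∃ c : ℕ, Proto F c ∧ (c : ℝ) ≤
      30 * (κ + 1) * (Real.logb 2 ((Pool.Agent.H630R2.LR.comm F).rank : ℝ) + 1) ^ 2 := by
  classical
  set r := (Pool.Agent.H630R2.LR.comm F).rank with hr
  by_cases hr0 : r = 0
  · refine ⟨0, rank_zero_proto F hr0, ?_⟩
    rw [Nat.cast_zero]
    positivity
  have hr1 : 1 ≤ r := Nat.one_le_iff_ne_zero.mpr hr0
  set c := Nat.clog 2 r with hc
  have hval1 : ∀ x y, F x y = v → 2 ≤ val a b (fun _ => (2 : ℝ)) x y := by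
    intro x y hF
    obtain ⟨ω, hω⟩ := h2 x y hF
    unfold val
    have : (if a ω x ∧ b ω y then (2 : ℝ) else 0) ≤
        ∑ ω, (if a ω x ∧ b ω y then (2 : ℝ) else 0) := by
      refine single_le_sum (f := fun ω => if a ω x ∧ b ω y then (2 : ℝ) else 0)
        (fun ω _ => ?_) (mem_univ ω)
      show (0 : ℝ) ≤ if a ω x ∧ b ω y then (2 : ℝ) else 0
      split_ifs <;> norm_num
    rwa [if_pos hω] at this
  have hval0 : ∀ x y, F x y ≠ v → val a b (fun _ => (2 : ℝ)) x y ≤ 1 := by
    intro x y hF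
    unfold val
    rw [sum_eq_zero]
    · exact zero_le_one
    · intro ω _
      rw [if_neg]
      rintro ⟨ha, hb⟩
      exact hF (h1 ω x y ha hb)
  have hrich : Rich F (4 * 2 ^ ((κ + 1) * (7 + 2 * c))) := by
    refine rich F v (r + 1) le_rfl a b (fun _ => 2) (fun _ => by norm_num) (κ + 1) (7 + 2 * c)
      ?_ 2 (by norm_num) hval1 hval0 ?_
    · rw [sum_const, card_univ, nsmul_eq_mul, pow_succ]
      have : (Fintype.card Ω : ℝ) ≤ 2 ^ κ := by exact_mod_cast hκ
      linarith
    · have e4 : r ≤ 2 ^ c := Nat.le_pow_clog (by norm_num) r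
      have e5 : 4 * (r + 1) * (4 * (r + 1) + 1) ≤ 2 ^ (7 + 2 * c) := by
        calc 4 * (r + 1) * (4 * (r + 1) + 1) ≤ (8 * r) * (9 * r) := by
              exact Nat.mul_le_mul (by omega) (by omega)
          _ ≤ 2 ^ 7 * (r * r) := by nlinarith
          _ ≤ 2 ^ 7 * (2 ^ c * 2 ^ c) := Nat.mul_le_mul_left _ (Nat.mul_le_mul e4 e4)
          _ = 2 ^ (7 + 2 * c) := by rw [pow_add, two_mul, pow_add]
      exact_mod_cast e5
  have hP := nw F _ (by
    have : 1 ≤ 2 ^ ((κ + 1) * (7 + 2 * c)) := Nat.one_le_pow _ _ (by norm_num)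
    omega) hrich ((κ + 1) * (7 + 2 * c) + c + 4) (by
    have e4 : r ≤ 2 ^ c := Nat.le_pow_clog (by norm_num) r
    have e5 : 1 ≤ 2 ^ ((κ + 1) * (7 + 2 * c) + c) := Nat.one_le_pow _ _ (by norm_num)
    calc 2 * r * (4 * 2 ^ ((κ + 1) * (7 + 2 * c))) + 2 ≤
        2 * 2 ^ c * (4 * 2 ^ ((κ + 1) * (7 + 2 * c))) + 2 := by
          have := Nat.mul_le_mul_right (4 * 2 ^ ((κ + 1) * (7 + 2 * c)))
            (Nat.mul_le_mul_left 2 e4)
          omega
      _ = 8 * 2 ^ ((κ + 1) * (7 + 2 * c) + c) + 2 := by rw [pow_add]; ring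
      _ ≤ 16 * 2 ^ ((κ + 1) * (7 + 2 * c) + c) := by omega
      _ = 2 ^ ((κ + 1) * (7 + 2 * c) + c + 4) := by rw [pow_add _ _ 4]; ring)
  refine ⟨_, hP, ?_⟩
  rw [← hr, ← hc]
  have hcl := clog_le r hr1
  rw [← hc] at hcl
  set l := Real.logb 2 (r : ℝ) with hl
  have hl0 : 0 ≤ l := logb_nn r
  push_cast
  set C : ℝ := (c : ℝ) with hC
  have hC0 : 0 ≤ C := by positivity
  have hκ0 : (0 : ℝ) ≤ κ := by positivity
  have e1 : ((κ : ℝ) + 1) * (7 + 2 * C) ≤ (κ + 1) * (9 * (l + 1)) := by
    refine mul_le_mul_of_nonneg_left ?_ (by positivity)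
    linarith
  have e2 : ((κ : ℝ) + 1) * (7 + 2 * C) + C + 4 ≤ (9 * (κ + 1) + 5) * (l + 1) := by nlinarith
  have e3 : 2 * (((κ : ℝ) + 1) * (7 + 2 * C) + C + 4) * C ≤
      2 * ((9 * (κ + 1) + 5) * (l + 1)) * (l + 1) := by
    refine mul_le_mul (by linarith) hcl hC0 (by positivity)
  have e4 : (1 : ℝ) ≤ (l + 1) ^ 2 := by nlinarith
  have e5 : (12 : ℝ) * (l + 1) ^ 2 ≤ 12 * (κ + 1) * (l + 1) ^ 2 := by nlinarith
  nlinarith

section group
variable {X : Type*} [AddCommGroup X] [Fintype X]

/-- restriction of a character to a subgroup -/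
def res (W : AddSubgroup X) (χ : AddChar X ℂ) : AddChar W ℂ := χ.compAddMonoidHom W.subtype

theorem res_apply (W : AddSubgroup X) (χ : AddChar X ℂ) (w : W) : res W χ w = χ w.1 := rfl

open Classical in
/-- **Merging characters.** -/
theorem merge (S : Finset (AddChar X ℂ)) (b : AddChar X ℂ → ℂ) (W : AddSubgroup X) (c : ℂ)
    (hc : ∀ w ∈ W, ∑ χ ∈ S, b χ * χ w = c) (w' : X)
    (h1 : ∀ χ ∈ S, ∀ χ' ∈ S, res W χ = res W χ' → χ w' = χ' w')
    (h0 : ∀ χ ∈ S, res W χ = 0 → χ w' = 1) : ∑ χ ∈ S, b χ * χ w' = c := by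
  have : Fintype W := Fintype.ofFinite W
  set B : AddChar W ℂ → ℂ := fun ψ => ∑ χ ∈ S.filter (fun χ => res W χ = ψ), b χ with hB
  have hfib : ∀ φ : AddChar X ℂ → ℂ, ∑ χ ∈ S, φ χ =
      ∑ ψ : AddChar W ℂ, ∑ χ ∈ S.filter (fun χ => res W χ = ψ), φ χ :=
    fun φ => (sum_fiberwise S (fun χ => res W χ) φ).symm
  have hlin := Fintype.linearIndependent_iff.mp (AddChar.linearIndependent W ℂ)
    (fun ψ => B ψ - if ψ = 0 then c else 0) (by
      funext w
      rw [Finset.sum_apply]
      simp only [Pi.smul_apply, smul_eq_mul, Pi.zero_apply, sub_mul, sum_sub_distrib]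
      have e1 : ∑ ψ : AddChar W ℂ, B ψ * ψ w = c := by
        rw [← hc w.1 w.2, hfib]
        refine sum_congr rfl fun ψ _ => ?_
        rw [hB]
        simp only
        rw [sum_mul]
        refine sum_congr rfl fun χ hχ => ?_
        rw [mem_filter] at hχ
        rw [← hχ.2, res_apply]
      have e2 : ∑ ψ : AddChar W ℂ, (if ψ = 0 then c else 0) * ψ w = c := by
        rw [sum_eq_single (0 : AddChar W ℂ)]
        · simp
        · intro ψ _ hψ
          simp [hψ]
        · intro h
          exact absurd (mem_univ _) h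
      rw [e1, e2, sub_self])
  have hB0 : B 0 = c := by
    have := hlin 0
    simp only [if_true] at this
    linear_combination this
  have hBn : ∀ ψ, ψ ≠ 0 → B ψ = 0 := by
    intro ψ hψ
    have := hlin ψ
    simp only [hψ, if_false, sub_zero] at this
    exact this
  rw [hfib, sum_eq_single (0 : AddChar W ℂ)]
  · rw [← hB0, hB]
    refine sum_congr rfl fun χ hχ => ?_
    rw [mem_filter] at hχ
    rw [h0 χ hχ.1 hχ.2, mul_one]
  · intro ψ _ hψ
    rcases (S.filter (fun χ => res W χ = ψ)).eq_empty_or_nonempty with he | ⟨χ₀, hχ₀⟩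
    · rw [he, sum_empty]
    · have e : ∑ χ ∈ S.filter (fun χ => res W χ = ψ), b χ * χ w' = B ψ * χ₀ w' := by
        rw [hB]
        simp only
        rw [sum_mul]
        refine sum_congr rfl fun χ hχ => ?_
        rw [mem_filter] at hχ hχ₀
        rw [h1 χ hχ.1 χ₀ hχ₀.1 (hχ.2.trans hχ₀.2.symm)]
      rw [e, hBn ψ hψ, zero_mul]
  · intro h
    exact absurd (mem_univ _) h

/-- a character or the trivial one -/
def ch (S : Finset (AddChar X ℂ)) : Option S → AddChar X ℂ
  | none => 0
  | some χ => χ.1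

/-- the points where two characters agree -/
def agree (χ χ' : AddChar X ℂ) : AddSubgroup X where
  carrier := {w | χ w = χ' w}
  zero_mem' := by
    show χ 0 = χ' 0
    rw [AddChar.map_zero_eq_one, AddChar.map_zero_eq_one]
  add_mem' := by
    intro a b ha hb
    show χ (a + b) = χ' (a + b)
    rw [AddChar.map_add_eq_mul, AddChar.map_add_eq_mul]
    rw [show χ a = χ' a from ha, show χ b = χ' b from hb]
  neg_mem' := by
    intro a ha
    show χ (-a) = χ' (-a)
    rw [AddChar.map_neg_eq_inv, AddChar.map_neg_eq_inv, show χ a = χ' a from ha]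

theorem mem_agree (χ χ' : AddChar X ℂ) (w : X) : w ∈ agree χ χ' ↔ χ w = χ' w := Iff.rfl

theorem gen (S : Finset (AddChar X ℂ)) (W : AddSubgroup X) : ∀ (d : ℕ) (H : AddSubgroup X),
    W ≤ H → Nat.card H ≤ 2 ^ d * Nat.card W →
    ∃ s : Fin d → Option S × Option S, (∀ i, res W (ch S (s i).1) = res W (ch S (s i).2)) ∧
      ∀ w ∈ H, (∀ i, ch S (s i).1 w = ch S (s i).2 w) →
        ∀ p : Option S × Option S, res W (ch S p.1) = res W (ch S p.2) →
          ch S p.1 w = ch S p.2 w := by
  classical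
  intro d
  induction d with
  | zero =>
    intro H hWH hc
    have hH : W = H := by
      apply AddSubgroup.eq_of_le_of_card_ge hWH
      simpa using hc
    subst hH
    refine ⟨fun i => i.elim0, fun i => i.elim0, fun w hw _ p hp => ?_⟩
    have := congrArg (fun ψ : AddChar W ℂ => ψ ⟨w, hw⟩) hp
    exact this
  | succ d ih =>
    intro H hWH hc
    by_cases hall : ∀ w ∈ H, ∀ p : Option S × Option S, res W (ch S p.1) = res W (ch S p.2) →
          ch S p.1 w = ch S p.2 w
    · exact ⟨fun _ => (none, none), fun _ => rfl, fun w hw _ p hp => hall w hw p hp⟩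
    · push Not at hall
      obtain ⟨w₀, hw₀, p, hp, hne⟩ := hall
      set H' := H ⊓ agree (ch S p.1) (ch S p.2) with hH'
      have hle : H' ≤ H := inf_le_left
      have hWH' : W ≤ H' := by
        refine le_inf hWH fun w hw => ?_
        have := congrArg (fun ψ : AddChar W ℂ => ψ ⟨w, hw⟩) hp
        exact this
      have hcard : 2 * Nat.card H' ≤ Nat.card H := by
        obtain ⟨k, hk⟩ := AddSubgroup.card_dvd_of_le hle
        have hne' : Nat.card H' ≠ Nat.card H := by
          intro h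
          have h2 : H' = H := AddSubgroup.eq_of_le_of_card_ge hle h.ge
          have h3 : w₀ ∈ H' := by rw [h2]; exact hw₀
          exact hne ((mem_agree _ _ _).mp h3.2)
        have hpos : 0 < Nat.card H := Nat.card_pos
        have hk2 : 2 ≤ k := by
          rcases k with _ | _ | k
          · rw [hk] at hpos; omega
          · rw [hk] at hne'; omega
          · omega
        rw [hk, mul_comm]
        exact Nat.mul_le_mul_left _ hk2
      obtain ⟨s', hs'1, hs'2⟩ := ih H' hWH' (by
        rw [pow_succ] at hc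
        have : 2 * Nat.card H' ≤ 2 * (2 ^ d * Nat.card W) := by
          calc 2 * Nat.card H' ≤ Nat.card H := hcard
            _ ≤ 2 ^ d * 2 * Nat.card W := hc
            _ = _ := by ring
        omega)
      refine ⟨Fin.cons p s', fun i => ?_, fun w hw hs q hq => ?_⟩
      · refine Fin.cases ?_ (fun j => ?_) i
        · exact hp
        · exact hs'1 j
      · refine hs'2 w ?_ (fun j => ?_) q hq
        · refine ⟨hw, ?_⟩
          have := hs 0
          rw [Fin.cons_zero] at this
          exact this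
        · have := hs j.succ
          rw [Fin.cons_succ] at this
          exact this

end group

section main
variable {X Y : Type*} [AddCommGroup X] [Fintype X] [Fintype Y]

/-- the column `y` as a complex function -/
def colC (F : X → Y → Bool) (y : Y) : X → ℂ := fun x => if F x y then 1 else 0

/-- the Fourier coefficient as a real-linear map of real functions -/
noncomputable def four (χ : AddChar X ℂ) : (X → ℝ) →ₗ[ℝ] ℂ where
  toFun f := (AddChar.complexBasis X).repr (fun x => (f x : ℂ)) χ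
  map_add' f g := by
    have e : (fun x => (((f + g) x : ℝ) : ℂ)) = (fun x => (f x : ℂ)) + (fun x => (g x : ℂ)) := by
      funext x
      simp
    rw [e, map_add, Finsupp.add_apply]
  map_smul' c f := by
    have e : (fun x => (((c • f) x : ℝ) : ℂ)) = (c : ℂ) • (fun x => (f x : ℂ)) := by
      funext x
      simp
    rw [e, map_smul, Finsupp.smul_apply]
    simp

theorem four_col (F : X → Y → Bool) (y : Y) (χ : AddChar X ℂ) :
    four χ (fun x => Pool.Agent.H630R2.LR.comm F x y) =
      (AddChar.complexBasis X).repr (colC F y) χ := by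
  show (AddChar.complexBasis X).repr _ χ = _
  congr 2
  funext x
  show (((if F x y then (1 : ℝ) else 0) : ℝ) : ℂ) = if F x y then 1 else 0
  split_ifs <;> simp

theorem expand (f : X → ℂ) (S : Finset (AddChar X ℂ))
    (hS : ∀ χ, χ ∉ S → (AddChar.complexBasis X).repr f χ = 0) (x : X) :
    f x = ∑ χ ∈ S, (AddChar.complexBasis X).repr f χ * χ x := by
  have h1 := (AddChar.complexBasis X).sum_repr f
  have h2 := congrFun h1 x
  rw [Finset.sum_apply] at h2
  rw [← h2]
  symm
  apply sum_subset_zero_on_sdiff (subset_univ S)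
  · intro χ hχ
    rw [mem_sdiff] at hχ
    rw [hS χ hχ.2]
    simp
  · intro χ _
    rw [AddChar.complexBasis_apply]
    rfl

theorem repr_of_sum (f : X → ℂ) (S : Finset (AddChar X ℂ)) (b : AddChar X ℂ → ℂ)
    (h : ∀ x, f x = ∑ χ ∈ S, b χ * χ x) (χ : AddChar X ℂ) (hχ : χ ∉ S) :
    (AddChar.complexBasis X).repr f χ = 0 := by
  classical
  have e : f = ∑ χ ∈ S, b χ • (AddChar.complexBasis X) χ := by
    funext x
    rw [Finset.sum_apply, h]
    refine sum_congr rfl fun χ _ => ?_
    rw [AddChar.complexBasis_apply]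
    rfl
  rw [e, map_sum, Finsupp.finsetSum_apply]
  refine sum_eq_zero fun χ' hχ' => ?_
  rw [map_smul, Finsupp.smul_apply, Module.Basis.repr_self, Finsupp.single_apply, if_neg, smul_zero]
  rintro rfl
  exact hχ hχ'

/-- the global Fourier support is small -/
theorem global_supp (F : X → Y → Bool) (m : ℕ)
    (hsp : ∀ y, ∃ (S : Finset (AddChar X ℂ)) (b : AddChar X ℂ → ℂ), S.card ≤ m ∧
      ∀ x, (if F x y then (1 : ℂ) else 0) = ∑ χ ∈ S, b χ * χ x) :
    ∃ S : Finset (AddChar X ℂ), S.card ≤ (Pool.Agent.H630R2.LR.comm F).rank * m ∧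
      ∀ y χ, χ ∉ S → (AddChar.complexBasis X).repr (colC F y) χ = 0 := by
  classical
  choose Sy b hSy hb using hsp
  obtain ⟨T, hT, hspan⟩ := exists_rows (Pool.Agent.H630R2.LR.comm F).transpose
  rw [Matrix.rank_transpose] at hT
  refine ⟨T.biUnion Sy, ?_, fun y χ hχ => ?_⟩
  · exact (card_biUnion_le_card_mul _ _ _ fun y _ => hSy y).trans (Nat.mul_le_mul_right _ hT)
  · have h1 := hspan y
    have h2 : ∀ f ∈ Submodule.span ℝ ((Pool.Agent.H630R2.LR.comm F).transpose '' (T : Set Y)),
        four χ f = 0 := by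
      intro f hf
      have h3 : Submodule.span ℝ ((Pool.Agent.H630R2.LR.comm F).transpose '' (T : Set Y)) ≤
          LinearMap.ker (four χ) := by
        rw [Submodule.span_le]
        rintro _ ⟨y', hy', rfl⟩
        show four χ _ = 0
        have h4 : four χ (fun x => Pool.Agent.H630R2.LR.comm F x y') = 0 := by
          rw [four_col]
          refine repr_of_sum (colC F y') (Sy y') (b y') (fun x => hb y' x) χ ?_
          intro h5
          exact hχ (mem_biUnion.mpr ⟨y', hy', h5⟩)
        exact h4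
      exact h3 hf
    rw [← four_col]
    exact h2 _ h1

/-- an enumeration of the cosets -/
theorem exists_enum_cosets (K : AddSubgroup X) (m : ℕ) (hm : K.index ≤ m) :
    ∃ e : X → Fin m, ∀ x x', e x = e x' → x' - x ∈ K := by
  classical
  have : Fintype (X ⧸ K) := Fintype.ofFinite _
  have hc : Fintype.card (X ⧸ K) ≤ Fintype.card (Fin m) := by
    rw [Fintype.card_fin, ← Nat.card_eq_fintype_card]
    exact hm
  obtain ⟨ι⟩ := Function.Embedding.nonempty_of_card_le hc
  refine ⟨fun x => ι (x : X ⧸ K), fun x x' h => ?_⟩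
  have h1 := ι.injective h
  rw [QuotientAddGroup.eq] at h1
  rwa [neg_add_eq_sub] at h1

/-- **The main estimate.** -/
theorem coset_proto (F : X → Y → Bool) (v : Bool) (t d : ℕ)
    (hsp : ∀ y, ∃ (S : Finset (AddChar X ℂ)) (b : AddChar X ℂ → ℂ), S.card ≤ 2 ^ t ∧
      ∀ x, (if F x y then (1 : ℂ) else 0) = ∑ χ ∈ S, b χ * χ x)
    (hcert : ∀ x y, F x y = v → ∃ W : AddSubgroup X, W.index ≤ 2 ^ d ∧
      ∀ w ∈ W, F (x + w) y = v) :
    ∃ c : ℕ, Proto F c ∧ (c : ℝ) ≤
      150 * (d * (t + Real.logb 2 ((Pool.Agent.H630R2.LR.comm F).rank : ℝ) + 1) + 1) *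
        (Real.logb 2 ((Pool.Agent.H630R2.LR.comm F).rank : ℝ) + 1) ^ 2 := by
  classical
  set r := (Pool.Agent.H630R2.LR.comm F).rank with hr
  by_cases hr0 : r = 0
  · refine ⟨0, rank_zero_proto F hr0, ?_⟩
    rw [Nat.cast_zero]
    have := logb_nn r
    positivity
  have hr1 : 1 ≤ r := Nat.one_le_iff_ne_zero.mpr hr0
  obtain ⟨S, hS, hsupp⟩ := global_supp F (2 ^ t) hsp
  rw [← hr] at hS
  -- the subgroup of a sample
  let Ks : (Fin d → Option S × Option S) → AddSubgroup X := fun s =>
    ⨅ i, agree (ch S (s i).1) (ch S (s i).2)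
  have hKs : ∀ s w, w ∈ Ks s ↔ ∀ i, ch S (s i).1 w = ch S (s i).2 w := by
    intro s w
    simp only [Ks, AddSubgroup.mem_iInf, mem_agree]
  have henum : ∀ s, ∃ e : X → Fin (2 ^ d), (Ks s).index ≤ 2 ^ d →
      ∀ x x', e x = e x' → x' - x ∈ Ks s := by
    intro s
    by_cases h : (Ks s).index ≤ 2 ^ d
    · obtain ⟨e, he⟩ := exists_enum_cosets (Ks s) _ h
      exact ⟨e, fun _ => he⟩
    · exact ⟨fun _ => ⟨0, by positivity⟩, fun h' => absurd h' h⟩
  choose e he using henum
  obtain ⟨c', hc', hle⟩ := cover_proto_v F v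
    (Ω := (Fin d → Option S × Option S) × Fin (2 ^ d))
    (fun ω x => e ω.1 x = ω.2) (fun ω y => ∀ x', e ω.1 x' = ω.2 → F x' y = v)
    (d * (2 * Nat.clog 2 (S.card + 1) + 1))
    (by
      rw [Fintype.card_prod, Fintype.card_fun, Fintype.card_prod, Fintype.card_option,
        Fintype.card_coe, Fintype.card_fin, Fintype.card_fin]
      have h1 : S.card + 1 ≤ 2 ^ Nat.clog 2 (S.card + 1) := Nat.le_pow_clog (by norm_num) _
      calc ((S.card + 1) * (S.card + 1)) ^ d * 2 ^ d
          ≤ (2 ^ Nat.clog 2 (S.card + 1) * 2 ^ Nat.clog 2 (S.card + 1)) ^ d * 2 ^ d :=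
            Nat.mul_le_mul_right _ (Nat.pow_le_pow_left (Nat.mul_le_mul h1 h1) d)
        _ = 2 ^ (d * (2 * Nat.clog 2 (S.card + 1) + 1)) := by
            rw [← pow_add, ← pow_mul, ← pow_add]
            congr 1
            ring)
    (fun ω x y ha hb => hb x ha)
    (by
      intro x₀ y hF
      obtain ⟨W, hW, hWF⟩ := hcert x₀ y hF
      have hindex : Nat.card X ≤ 2 ^ d * Nat.card W := by
        rw [← W.index_mul_card]
        exact Nat.mul_le_mul_right _ hW
      obtain ⟨s, hs1, hs2⟩ := gen S W d ⊤ le_top (by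
        rw [show Nat.card (⊤ : AddSubgroup X) = Nat.card X from
          Nat.card_congr AddSubgroup.topEquiv.toEquiv]
        exact hindex)
      have hWK : W ≤ Ks s := by
        intro w hw
        rw [hKs]
        intro i
        have := congrArg (fun ψ : AddChar W ℂ => ψ ⟨w, hw⟩) (hs1 i)
        exact this
      have hKi : (Ks s).index ≤ 2 ^ d := by
        refine le_trans (Nat.le_of_dvd ?_ (AddSubgroup.index_dvd_of_le hWK)) hW
        exact Nat.pos_of_ne_zero W.index_ne_zero_of_finite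
      refine ⟨(s, e s x₀), rfl, fun x' hx' => ?_⟩
      have hw' : x' - x₀ ∈ Ks s := he s hKi x₀ x' hx'.symm
      rw [hKs] at hw'
      have hgood := hs2 (x' - x₀) (AddSubgroup.mem_top _) hw'
      have hexp : ∀ w, colC F y (x₀ + w) =
          ∑ χ ∈ S, ((AddChar.complexBasis X).repr (colC F y) χ * χ x₀) * χ w := by
        intro w
        rw [expand (colC F y) S (hsupp y)]
        refine sum_congr rfl fun χ _ => ?_
        rw [AddChar.map_add_eq_mul]
        ring
      have hmerge := merge S (fun χ => (AddChar.complexBasis X).repr (colC F y) χ * χ x₀) W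
        (if v then 1 else 0) (fun w hw => by
          rw [← hexp w]
          show (if F (x₀ + w) y then (1 : ℂ) else 0) = _
          rw [hWF w hw]) (x' - x₀)
        (fun χ hχ χ' hχ' h => hgood (some ⟨χ, hχ⟩, some ⟨χ', hχ'⟩) h)
        (fun χ hχ h => by
          have := hgood (some ⟨χ, hχ⟩, none) (by
            show res W χ = res W 0
            rw [h]
            rfl)
          exact this)
      rw [← hexp, add_sub_cancel] at hmerge
      have h5 : (if F x' y then (1 : ℂ) else 0) = if v then 1 else 0 := hmerge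
      cases hv : v <;> cases hFx : F x' y <;> simp_all)
  refine ⟨c', hc', hle.trans ?_⟩
  rw [← hr]
  set l := Real.logb 2 (r : ℝ) with hl
  have hl0 : 0 ≤ l := logb_nn r
  have hcl : (Nat.clog 2 (S.card + 1) : ℝ) ≤ l + t + 2 := by
    have h1 : S.card + 1 ≤ 2 ^ (Nat.clog 2 r + t + 1) := by
      have h5 : r ≤ 2 ^ Nat.clog 2 r := Nat.le_pow_clog (by norm_num) r
      calc S.card + 1 ≤ r * 2 ^ t + 1 := by omega
        _ ≤ 2 ^ Nat.clog 2 r * 2 ^ t + 1 := by
            have := Nat.mul_le_mul_right (2 ^ t) h5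
            omega
        _ ≤ 2 ^ Nat.clog 2 r * 2 ^ t + 2 ^ Nat.clog 2 r * 2 ^ t := by
            have : 1 ≤ 2 ^ Nat.clog 2 r * 2 ^ t := Nat.mul_pos (by positivity) (by positivity)
            omega
        _ = 2 ^ (Nat.clog 2 r + t + 1) := by rw [pow_succ, pow_add]; ring
    have h2 : Nat.clog 2 (S.card + 1) ≤ Nat.clog 2 r + t + 1 :=
      (Nat.clog_le_iff_le_pow (by norm_num)).mpr h1
    have h3 := clog_le r hr1
    have h4 : (Nat.clog 2 (S.card + 1) : ℝ) ≤ Nat.clog 2 r + t + 1 := by exact_mod_cast h2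
    rw [← hl] at h3
    linarith
  have ht0 : (0 : ℝ) ≤ t := by positivity
  have hd0 : (0 : ℝ) ≤ d := by positivity
  have hκ : ((d * (2 * Nat.clog 2 (S.card + 1) + 1) : ℕ) : ℝ) + 1 ≤ 5 * (d * (t + l + 1) + 1) := by
    push_cast
    have h1 : (d : ℝ) * (2 * Nat.clog 2 (S.card + 1) + 1) ≤ d * (5 * (t + l + 1)) :=
      mul_le_mul_of_nonneg_left (by linarith) hd0
    linarith
  have h6 : 30 * (((d * (2 * Nat.clog 2 (S.card + 1) + 1) : ℕ) : ℝ) + 1) * (l + 1) ^ 2 ≤
      30 * (5 * (d * (t + l + 1) + 1)) * (l + 1) ^ 2 :=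
    mul_le_mul_of_nonneg_right (by linarith) (by positivity)
  refine h6.trans (le_of_eq ?_)
  ring

end main

end Pool.Agent.J4.H83
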