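import Pool.Agent.J4.H83.Coset

/-!
Disjoint unions of cosets have small Fourier support.
-/

set_option autoImplicit false
set_option linter.unusedSectionVars false

namespace Pool.Agent.J4.H83

open Finset Pool.Agent.H630R2.LR Pool.Agent.R533.VC

variable {X Y : Type*} [AddCommGroup X] [Fintype X] [Fintype Y]

open Classical in
/-- the annihilator of a subgroup -/
noncomputable def ann (W : AddSubgroup X) : Finset (AddChar X ℂ) := univ.filter (fun χ => res W χ = 0)

theorem ann_card (W : AddSubgroup X) : (ann W).card ≤ W.index := by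
  classical
  have : Fintype (X ⧸ W) := Fintype.ofFinite _
  have hli : LinearIndependent ℂ (fun χ : ann W => (fun q : X ⧸ W => χ.1 (Quotient.out q))) := by
    rw [Fintype.linearIndependent_iff]
    intro a ha
    have h1 := Fintype.linearIndependent_iff.mp ((AddChar.linearIndependent X ℂ).comp
      (fun χ : ann W => χ.1) Subtype.val_injective) a
    refine h1 ?_
    funext x
    have h2 := congrFun ha (x : X ⧸ W)
    rw [Finset.sum_apply] at h2 ⊢
    rw [Pi.zero_apply] at h2 ⊢
    rw [← h2]
    refine sum_congr rfl fun χ _ => ?_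
    show a χ * χ.1 x = a χ * χ.1 (Quotient.out (x : X ⧸ W))
    have h3 : -(Quotient.out (x : X ⧸ W)) + x ∈ W := by
      have h4 : ((Quotient.out (x : X ⧸ W) : X) : X ⧸ W) = (x : X ⧸ W) := Quotient.out_eq _
      exact QuotientAddGroup.eq.mp h4
    have h5 : res W χ.1 = 0 := (mem_filter.mp χ.2).2
    have h6 : χ.1 (-(Quotient.out (x : X ⧸ W)) + x) = 1 := by
      have := congrArg (fun ψ : AddChar W ℂ => ψ ⟨_, h3⟩) h5
      exact this
    have h7 : χ.1 x = χ.1 (Quotient.out (x : X ⧸ W)) * χ.1 (-(Quotient.out (x : X ⧸ W)) + x) := by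
      rw [← AddChar.map_add_eq_mul]
      congr 1
      abel
    rw [h7, h6, mul_one]
  have h := hli.fintype_card_le_finrank
  rw [Fintype.card_coe, Module.finrank_fintype_fun_eq_card, ← Nat.card_eq_fintype_card] at h
  exact h

open Classical in
theorem ind_supp (W : AddSubgroup X) (p : X) (χ : AddChar X ℂ) (hχ : χ ∉ ann W) :
    (AddChar.complexBasis X).repr (fun x => if x - p ∈ W then (1 : ℂ) else 0) χ = 0 := by
  set f : X → ℂ := fun x => if x - p ∈ W then (1 : ℂ) else 0 with hf
  have hχ' : res W χ ≠ 0 := fun h => hχ (mem_filter.mpr ⟨mem_univ _, h⟩)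
  obtain ⟨w, hw⟩ := AddChar.ne_zero_iff.mp hχ'
  rw [res_apply] at hw
  have hinv : ∀ x, f (x + w.1) = f x := by
    intro x
    simp only [hf]
    have : x + w.1 - p ∈ W ↔ x - p ∈ W := by
      have e : x + w.1 - p = (x - p) + w.1 := by abel
      rw [e]
      exact ⟨fun h => by simpa using W.sub_mem h w.2, fun h => W.add_mem h w.2⟩
    simp only [this]
  have h1 : ∀ x, f x = ∑ χ ∈ (univ : Finset (AddChar X ℂ)),
      ((AddChar.complexBasis X).repr f χ * χ w.1) * χ x := by
    intro x
    rw [← hinv, expand f univ (fun χ h => absurd (mem_univ _) h)]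
    refine sum_congr rfl fun χ _ => ?_
    rw [AddChar.map_add_eq_mul]
    ring
  have h2 : (AddChar.complexBasis X).repr f χ = (AddChar.complexBasis X).repr f χ * χ w.1 := by
    have e : f = ∑ χ : AddChar X ℂ, ((AddChar.complexBasis X).repr f χ * χ w.1) •
        (AddChar.complexBasis X) χ := by
      funext x
      rw [Finset.sum_apply, h1]
      refine sum_congr rfl fun χ _ => ?_
      rw [AddChar.complexBasis_apply]
      rfl
    calc (AddChar.complexBasis X).repr f χ = (AddChar.complexBasis X).repr
          (∑ χ : AddChar X ℂ, ((AddChar.complexBasis X).repr f χ * χ w.1) •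
            (AddChar.complexBasis X) χ) χ := by rw [← e]
      _ = _ := by rw [Module.Basis.repr_sum_self]
  have h4 : (AddChar.complexBasis X).repr f χ * (1 - χ w.1) = 0 := by
    linear_combination h2
  rcases mul_eq_zero.mp h4 with h5 | h5
  · exact h5
  · exact absurd (by linear_combination -h5 : χ w.1 = 1) hw

open Classical in
/-- **Disjoint unions of few cosets of subgroups of small index.** -/
theorem union_proto (F : X → Y → Bool) (v : Bool) (d : ℕ)
    (h : ∀ y, ∃ (I : Type) (_ : Fintype I) (W : I → AddSubgroup X) (p : I → X),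
      Fintype.card I ≤ 2 ^ d ∧ (∀ i, (W i).index ≤ 2 ^ d) ∧
      ∀ x, (univ.filter (fun i => x - p i ∈ W i)).card = if F x y = v then 1 else 0) :
    ∃ c : ℕ, Proto F c ∧ (c : ℝ) ≤
      150 * (d * (2 * d + Real.logb 2 ((Pool.Agent.H630R2.LR.comm F).rank : ℝ) + 2) + 1) *
        (Real.logb 2 ((Pool.Agent.H630R2.LR.comm F).rank : ℝ) + 1) ^ 2 := by
  obtain ⟨c, hc, hle⟩ := coset_proto F v (2 * d + 1) d (fun y => by
    obtain ⟨I, _, W, p, hI, hW, hx⟩ := h y
    set S : Finset (AddChar X ℂ) := insert 0 (univ.biUnion fun i => ann (W i)) with hS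
    set f : X → ℂ := fun x => if F x y then (1 : ℂ) else 0 with hf
    refine ⟨S, fun χ => (AddChar.complexBasis X).repr f χ, ?_, expand f S ?_⟩
    · refine (card_insert_le _ _).trans ?_
      have h1 : (univ.biUnion fun i => ann (W i)).card ≤ 2 ^ d * 2 ^ d := by
        refine (card_biUnion_le_card_mul _ _ (2 ^ d) fun i _ => (ann_card _).trans (hW i)).trans ?_
        rw [card_univ]
        exact Nat.mul_le_mul_right _ hI
      have h2 : 1 ≤ 2 ^ d * 2 ^ d := Nat.mul_pos (by positivity) (by positivity)
      have h3 : 2 ^ (2 * d + 1) = 2 ^ d * 2 ^ d + 2 ^ d * 2 ^ d := by rw [pow_succ, two_mul, pow_add]; ring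
      omega
    · intro χ hχ
      rw [hS, mem_insert, not_or] at hχ
      set g : X → ℂ := ∑ i : I, fun x => if x - p i ∈ W i then (1 : ℂ) else 0 with hg
      have hgx : ∀ x, g x = if F x y = v then 1 else 0 := by
        intro x
        rw [hg, Finset.sum_apply, sum_boole, hx x]
        split_ifs <;> simp
      have hrg : (AddChar.complexBasis X).repr g χ = 0 := by
        rw [hg, map_sum, Finsupp.finsetSum_apply]
        refine sum_eq_zero fun i _ => ind_supp (W i) (p i) χ ?_
        intro h4
        exact hχ.2 (mem_biUnion.mpr ⟨i, mem_univ _, h4⟩)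
      have hone : (AddChar.complexBasis X).repr (fun _ => (1 : ℂ)) χ = 0 := by
        have e : (fun _ : X => (1 : ℂ)) = (AddChar.complexBasis X) 0 := by
          rw [AddChar.complexBasis_apply]
          rfl
        rw [e, Module.Basis.repr_self, Finsupp.single_apply, if_neg]
        exact fun h => hχ.1 h.symm
      cases v
      · have e : f = (fun _ => (1 : ℂ)) - g := by
          funext x
          rw [Pi.sub_apply, hgx]
          simp only [hf]
          cases F x y <;> simp
        rw [e, map_sub, Finsupp.sub_apply, hrg, hone, sub_zero]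
      · have e : f = g := by
          funext x
          rw [hgx]
        rw [e, hrg]) (fun x y hF => by
    obtain ⟨I, _, W, p, hI, hW, hx⟩ := h y
    have h1 := hx x
    rw [if_pos hF] at h1
    obtain ⟨i, hi⟩ := card_pos.mp (by rw [h1]; exact Nat.one_pos)
    rw [mem_filter] at hi
    refine ⟨W i, hW i, fun w hw => ?_⟩
    by_contra hcon
    have h2 := hx (x + w)
    rw [if_neg hcon, card_eq_zero] at h2
    have h3 : i ∈ univ.filter (fun i => x + w - p i ∈ W i) := by
      rw [mem_filter]
      refine ⟨mem_univ _, ?_⟩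
      have e : x + w - p i = (x - p i) + w := by abel
      rw [e]
      exact (W i).add_mem hi.2 hw
    rw [h2] at h3
    exact absurd h3 (notMem_empty _))
  refine ⟨c, hc, hle.trans (le_of_eq ?_)⟩
  push_cast
  ring

end Pool.Agent.J4.H83
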