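import Pool.Agent.J4.H83.RoFin

/-!
Read-once compositions: the bound.
-/

set_option autoImplicit false
set_option linter.unusedSectionVars false

namespace Pool.Agent.J4.H83

open Finset Module Pool.Agent.H630R2.LR

theorem clog_nn (n : ℕ) : (Nat.clog 2 n : ℝ) ≤ Real.logb 2 n + 1 := by
  rcases Nat.eq_zero_or_pos n with rfl | h
  · simp
  · exact clog_le n h

/-- the bound for the cores -/
noncomputable def Tst (K : ℝ) (n : ℕ) (z : ℝ) : ℝ := K * (z + 1) ^ (n + 2) - 10 * (z + 1)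

theorem Tst_mono (K : ℝ) (hK : 30 ≤ K) (n : ℕ) {y z : ℝ} (hy : 0 ≤ y) (hyz : y ≤ z) :
    Tst K n y ≤ Tst K n z := by
  have e : ∀ z, Tst K n z = (z + 1) * (K * (z + 1) ^ (n + 1) - 10) := by
    intro z
    unfold Tst
    ring
  rw [e, e]
  have h1 : (1 : ℝ) ≤ (y + 1) ^ (n + 1) := one_le_pow₀ (by linarith)
  have h2 : (y + 1) ^ (n + 1) ≤ (z + 1) ^ (n + 1) := pow_le_pow_left₀ (by linarith) (by linarith) _
  have h3 : K * (y + 1) ^ (n + 1) ≤ K * (z + 1) ^ (n + 1) :=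
    mul_le_mul_of_nonneg_left h2 (by linarith)
  have h4 : 30 ≤ K * (y + 1) ^ (n + 1) := by nlinarith
  exact mul_le_mul (by linarith) (by linarith) (by linarith) (by linarith)

/-- the inequality for gates -/
theorem gate_ineq (K : ℝ) (hK : 30 ≤ K) (n : ℕ) (x y z : ℝ) (hx : 0 ≤ x) (hy : 0 ≤ y)
    (h1 : x + y ≤ z) (h2 : x + 1 ≤ z) (h3 : y + 1 ≤ z) :
    K * (x + 1) ^ (n + 2) + K * (y + 1) ^ (n + 2) ≤ Tst K n z := by
  have key : (x + 1) ^ 2 + (y + 1) ^ 2 + (z + 1) / 3 ≤ (z + 1) ^ 2 := by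
    have main : ∀ a b : ℝ, 0 ≤ b → b ≤ a → a + b ≤ z → a + 1 ≤ z →
        (a + 1) ^ 2 + (b + 1) ^ 2 + (z + 1) / 3 ≤ (z + 1) ^ 2 := by
      intro a b hb hab h5 h6
      rcases le_total b 1 with hb1 | hb1
      · nlinarith
      · nlinarith [mul_nonneg (sub_nonneg.mpr hb1) (sub_nonneg.mpr (hb1.trans hab))]
    rcases le_total x y with hxy | hxy
    · have := main y x hx hxy (by linarith) h3
      linarith
    · exact main x y hy hxy h1 h2
  have hz : 1 ≤ z + 1 := by linarith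
  have hzn : (1 : ℝ) ≤ (z + 1) ^ n := one_le_pow₀ hz
  have hx2 : (x + 1) ^ (n + 2) ≤ (z + 1) ^ n * (x + 1) ^ 2 := by
    rw [pow_add]
    exact mul_le_mul_of_nonneg_right (pow_le_pow_left₀ (by linarith) (by linarith) _) (by positivity)
  have hy2 : (y + 1) ^ (n + 2) ≤ (z + 1) ^ n * (y + 1) ^ 2 := by
    rw [pow_add]
    exact mul_le_mul_of_nonneg_right (pow_le_pow_left₀ (by linarith) (by linarith) _) (by positivity)
  have e : (z + 1) ^ (n + 2) = (z + 1) ^ n * (z + 1) ^ 2 := pow_add _ _ _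
  have h4 : (z + 1) ^ n * ((x + 1) ^ 2 + (y + 1) ^ 2 + (z + 1) / 3) ≤
      (z + 1) ^ n * (z + 1) ^ 2 := mul_le_mul_of_nonneg_left key (by linarith)
  have h5 : (x + 1) ^ (n + 2) + (y + 1) ^ (n + 2) + (z + 1) ^ n * ((z + 1) / 3) ≤
      (z + 1) ^ (n + 2) := by
    rw [e]
    linarith
  have h6 : (z + 1) / 3 ≤ (z + 1) ^ n * ((z + 1) / 3) := by
    have := mul_le_mul_of_nonneg_right hzn (show 0 ≤ (z + 1) / 3 by linarith)
    linarith
  unfold Tst
  nlinarith

theorem lam_nonneg {X Y : Type} [Fintype X] [Fintype Y] (F : X → Y → Bool) (x0 : X) (y0 : Y) :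
    0 ≤ lam F x0 y0 := logb_nn _

theorem lam_mono {X Y X' Y' : Type} [Fintype X] [Fintype Y] [Fintype X'] [Fintype Y']
    (F : X → Y → Bool) (x0 : X) (y0 : Y) (G : X' → Y' → Bool) (x1 : X') (y1 : Y')
    (h1 : 1 ≤ (dd (Pool.Agent.H630R2.LR.comm F) x0 y0).rank)
    (h : (dd (Pool.Agent.H630R2.LR.comm F) x0 y0).rank ≤
      (dd (Pool.Agent.H630R2.LR.comm G) x1 y1).rank) : lam F x0 y0 ≤ lam G x1 y1 := by
  unfold lam
  have h3 : (1 : ℝ) ≤ ((dd (Pool.Agent.H630R2.LR.comm F) x0 y0).rank : ℝ) := by exact_mod_cast h1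
  have h4 : ((dd (Pool.Agent.H630R2.LR.comm F) x0 y0).rank : ℝ) ≤
      ((dd (Pool.Agent.H630R2.LR.comm G) x1 y1).rank : ℝ) := by exact_mod_cast h
  exact Real.logb_le_logb_of_le (by norm_num) (by linarith) h4

/-- the number of bits for a chain -/
theorem chain_cost {X Y X' Y' : Type} [Fintype X] [Fintype Y] [Fintype X'] [Fintype Y']
    (F : X → Y → Bool) (x0 : X) (y0 : Y)
    (h1 : 1 ≤ (dd (Pool.Agent.H630R2.LR.comm F) x0 y0).rank) (H : X' → Y' → Bool) (hH : Good H)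
    (hs : Sbm H F) : Proto H (2 * (3 + Nat.clog 2 (dd (Pool.Agent.H630R2.LR.comm F) x0 y0).rank) + 2)
      := by
  refine hH.proto _ ?_
  have h2 := hs.rank
  have h3 := rank_dd (Pool.Agent.H630R2.LR.comm F) x0 y0
  have h4 := Nat.le_pow_clog (b := 2) (by norm_num) (dd (Pool.Agent.H630R2.LR.comm F) x0 y0).rank
  rw [pow_add]
  norm_num
  omega

theorem chain_real (r : ℕ) : (((2 * (3 + Nat.clog 2 r) + 2 : ℕ)) : ℝ) ≤ 10 * (Real.logb 2 r + 1) := by
  have h1 := clog_nn r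
  have h2 := logb_nn r
  push_cast
  linarith

/-- **The bound for the inductive property.** -/
theorem PP.bound (K : ℝ) (hK : 30 ≤ K) (n : ℕ) {X Y : Type} [Fintype X] [Fintype Y]
    {F : X → Y → Bool} (h : PP (Tst K n) F) (x0 : X) (y0 : Y)
    (h1 : 1 ≤ (dd (Pool.Agent.H630R2.LR.comm F) x0 y0).rank) :
    ∃ c : ℕ, Proto F c ∧ (c : ℝ) ≤ K * (lam F x0 y0 + 1) ^ (n + 2) := by
  have hl := lam_nonneg F x0 y0
  have hcr := chain_real (dd (Pool.Agent.H630R2.LR.comm F) x0 y0).rank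
  change _ ≤ 10 * (lam F x0 y0 + 1) at hcr
  rcases h with ⟨X₁, Y₁, i1, i2, i3, i4, H, hH, h3, h4⟩ |
    ⟨X₁, Y₁, X₂, Y₂, i1, i2, i3, i4, i5, i6, Ψ, B, hg, ⟨x, y, hxy⟩, ⟨x2, y2, hB1, cB, hcB, hB2⟩,
      ⟨f, g, h3⟩, ⟨f', g', h4⟩⟩
  · refine ⟨_, h3.proto (chain_cost F x0 y0 h1 H hH h4), hcr.trans ?_⟩
    have h5 : (lam F x0 y0 + 1) ≤ (lam F x0 y0 + 1) ^ (n + 2) := by
      have := pow_le_pow_right₀ (show (1 : ℝ) ≤ lam F x0 y0 + 1 by linarith)
        (show 1 ≤ n + 2 by omega)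
      simpa using this
    nlinarith
  · -- the core
    have hBF : (dd (Pool.Agent.H630R2.LR.comm B) x2 y2).rank ≤
        (dd (Pool.Agent.H630R2.LR.comm F) x0 y0).rank := by
      refine (dd_flip B (Ψ x y false) x2 y2).trans ?_
      refine Sbm.ddr (F := fun a b => xor (Ψ x y false) (B a b)) (G := F)
        ⟨fun a => f' (x, a), fun b => g' (y, b), fun a b => ?_⟩ _ _ _ _
      rw [← h4]
      show xor (Ψ x y false) (B a b) = Ψ x y (B a b)
      revert hxy
      cases B a b <;> generalize Ψ x y false = s <;> generalize Ψ x y true = t <;>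
        cases s <;> cases t <;> simp
    have hval : ∀ v, ∃ a b, B a b = v := by
      by_contra hcon
      push Not at hcon
      obtain ⟨v, hv⟩ := hcon
      have hB0 : dd (Pool.Agent.H630R2.LR.comm B) x2 y2 = 0 := by
        ext a b
        have hc : ∀ a b, B a b = !v := by
          intro a b
          have := hv a b
          cases h5 : B a b <;> cases v <;> simp_all
        show bv (B a b) - bv (B x2 b) - bv (B a y2) + bv (B x2 y2) = 0
        rw [hc, hc, hc, hc]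
        ring
      rw [hB0, Matrix.rank_zero] at hB1
      omega
    have hΨ : ∀ v, Proto (fun x y => Ψ x y v)
        (2 * (3 + Nat.clog 2 (dd (Pool.Agent.H630R2.LR.comm F) x0 y0).rank) + 2) := by
      intro v
      obtain ⟨a, b, hab⟩ := hval v
      refine chain_cost F x0 y0 h1 _ (hg v) ⟨fun x => f' (x, a), fun y => g' (y, b), fun x y => ?_⟩
      rw [← h4]
      show Ψ x y v = Ψ x y (B a b)
      rw [hab]
    have hbind := Pool.Agent.TH744.LR.Prot.bind (X := X₁ × X₂) (Y := Y₁ × Y₂)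
      (f := fun p q => B p.2 q.2) (c := cB) (hcB.comap _ _)
      (F := fun v p q => Ψ p.1 q.1 v)
      (b := 2 * (3 + Nat.clog 2 (dd (Pool.Agent.H630R2.LR.comm F) x0 y0).rank) + 2)
      (fun v => (hΨ v).comap _ _)
    refine ⟨_, Sbm.proto ⟨f, g, h3⟩ hbind, ?_⟩
    rw [Nat.cast_add]
    have h6 : (cB : ℝ) ≤ Tst K n (lam F x0 y0) :=
      hB2.trans (Tst_mono K hK n (lam_nonneg _ _ _) (lam_mono B x2 y2 F x0 y0 hB1 hBF))
    have h7 : Tst K n (lam F x0 y0) = K * (lam F x0 y0 + 1) ^ (n + 2) - 10 * (lam F x0 y0 + 1) := rfl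
    linarith

/-- gates -/
theorem PP.gate (K : ℝ) (hK : 30 ≤ K) (n : ℕ) (g : Gt) {X Y X' Y' : Type} [Fintype X] [Fintype Y]
    [Fintype X'] [Fintype Y'] [Nonempty X] [Nonempty Y] [Nonempty X'] [Nonempty Y']
    {A : X → Y → Bool} {B : X' → Y' → Bool} (hA : PP (Tst K n) A) (hB : PP (Tst K n) B) :
    PP (Tst K n) (gat g A B) := by
  obtain ⟨x0⟩ := ‹Nonempty X›
  obtain ⟨y0⟩ := ‹Nonempty Y›
  obtain ⟨x1⟩ := ‹Nonempty X'›
  obtain ⟨y1⟩ := ‹Nonempty Y'›
  have _ : Nonempty X := ⟨x0⟩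
  have _ : Nonempty Y := ⟨y0⟩
  have _ : Nonempty X' := ⟨x1⟩
  have _ : Nonempty Y' := ⟨y1⟩
  by_cases hA1 : (Nm g A).rank ≤ 1
  · obtain ⟨u, v, huv⟩ := nm_one g A hA1 x0 y0
    have h1 := (hB.step' (U := Y) v).step (U := X) u
    refine h1.eqv ⟨id, id, fun p q => ?_⟩ ⟨id, id, fun p q => ?_⟩
    · exact (huv _ _ _).symm
    · exact huv _ _ _
  by_cases hB1 : (Nm g B).rank ≤ 1
  · obtain ⟨u, v, huv⟩ := nm_one g B hB1 x1 y1
    have h1 := (hA.step' (U := Y') v).step (U := X') u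
    refine h1.eqv ⟨Prod.swap, Prod.swap, fun p q => ?_⟩ ⟨Prod.swap, Prod.swap, fun p q => ?_⟩
    · show u p.1 (v q.1 (A p.2 q.2)) = g.ev (A p.2 q.2) (B p.1 q.1)
      rw [g.ev_comm]
      exact (huv _ _ _).symm
    · show g.ev (A p.1 q.1) (B p.2 q.2) = u p.2 (v q.2 (A p.1 q.1))
      rw [g.ev_comm]
      exact huv _ _ _
  · have hA2 : 2 ≤ (Nm g A).rank := by omega
    have hB2 : 2 ≤ (Nm g B).rank := by omega
    have hrA := nm_two g A hA2 x0 y0
    have hrB := nm_two g B hB2 x1 y1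
    have hF1 := gat_rank g A B x1 y1 (x0, x1) (y0, y1)
    have hF2 := gat_rank' g A B x0 y0 (x0, x1) (y0, y1)
    have hAA := dd_le_nm g A x0 y0
    set rA := (dd (Pool.Agent.H630R2.LR.comm A) x0 y0).rank with hrA'
    set rB := (dd (Pool.Agent.H630R2.LR.comm B) x1 y1).rank with hrB'
    set rF := (dd (Pool.Agent.H630R2.LR.comm (gat g A B)) (x0, x1) (y0, y1)).rank with hrF'
    have hrF : 1 ≤ rF := by nlinarith
    obtain ⟨cA, hcA, hA3⟩ := hA.bound K hK n x0 y0 hrA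
    obtain ⟨cB, hcB, hB3⟩ := hB.bound K hK n x1 y1 hrB
    have hrAR : (1 : ℝ) ≤ (rA : ℝ) := by exact_mod_cast hrA
    have hrBR : (1 : ℝ) ≤ (rB : ℝ) := by exact_mod_cast hrB
    have hz1 : lam A x0 y0 + lam B x1 y1 ≤ lam (gat g A B) (x0, x1) (y0, y1) := by
      unfold lam
      rw [← Real.logb_mul (by positivity) (by positivity)]
      refine Real.logb_le_logb_of_le (by norm_num) (by positivity) ?_
      have : rA * rB ≤ rF := by nlinarith
      exact_mod_cast this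
    have hz2 : lam A x0 y0 + 1 ≤ lam (gat g A B) (x0, x1) (y0, y1) := by
      unfold lam
      have e : (1 : ℝ) = Real.logb 2 2 := by simp
      rw [e, ← Real.logb_mul (by positivity) (by positivity)]
      refine Real.logb_le_logb_of_le (by norm_num) (by positivity) ?_
      have : rA * 2 ≤ rF := by nlinarith
      exact_mod_cast this
    have hz3 : lam B x1 y1 + 1 ≤ lam (gat g A B) (x0, x1) (y0, y1) := by
      unfold lam
      have e : (1 : ℝ) = Real.logb 2 2 := by simp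
      rw [e, ← Real.logb_mul (by positivity) (by positivity)]
      refine Real.logb_le_logb_of_le (by norm_num) (by positivity) ?_
      have : rB * 2 ≤ rF := by nlinarith
      exact_mod_cast this
    have hpost : ∀ v, Proto (fun (p : X × X') (q : Y × Y') => g.ev v (B p.2 q.2)) cB := by
      intro v
      obtain ⟨ow, a, b, out, h⟩ := hcB
      exact ⟨ow, fun t p => a t p.2, fun t q => b t q.2, fun t => g.ev v (out t),
        fun p q => congrArg (g.ev v) (h p.2 q.2)⟩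
    have hbind := Pool.Agent.TH744.LR.Prot.bind (X := X × X') (Y := Y × Y')
      (f := fun p q => A p.1 q.1) (c := cA) (hcA.comap _ _)
      (F := fun v p q => g.ev v (B p.2 q.2)) (b := cB) hpost
    refine Or.inr ⟨Unit, Unit, X × X', Y × Y', inferInstance, inferInstance, inferInstance,
      inferInstance, inferInstance, inferInstance, fun _ _ b => b, gat g A B, fun b => good_unit b,
      ⟨(), (), by simp⟩, ⟨(x0, x1), (y0, y1), hrF, cA + cB, hbind, ?_⟩,
      ⟨fun p => ((), p), fun q => ((), q), fun p q => rfl⟩, ⟨fun p => p.2, fun q => q.2,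
      fun p q => rfl⟩⟩
    rw [Nat.cast_add]
    exact (add_le_add hA3 hB3).trans (gate_ineq K hK n _ _ _ (lam_nonneg _ _ _) (lam_nonneg _ _ _)
      hz1 hz2 hz3)

/-- a function whose matrix has vanishing double differences -/
theorem one_sided_proto {X Y : Type} [Fintype X] [Fintype Y] (F : X → Y → Bool) (x0 : X) (y0 : Y)
    (h : (dd (Pool.Agent.H630R2.LR.comm F) x0 y0).rank = 0) : Proto F 1 := by
  rcases one_sided F x0 y0 h with h1 | h1
  · exact Proto.alice F (fun x => F x y0) (fun v _ _ => v) 0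
      (fun v => Proto.const _ v fun _ _ => rfl) (fun x y => h1 x y)
  · exact Proto.bob F (fun y => F x0 y) (fun v _ _ => v) 0
      (fun v => Proto.const _ v fun _ _ => rfl) (fun x y => h1 x y)

/-- leaves -/
theorem PP.leaf (K C : ℕ) {X Y : Type} [Fintype X] [Fintype Y] [Nonempty X] [Nonempty Y]
    (F : X → Y → Bool) (c : ℕ) (hc : Proto F c)
    (hb : (c : ℝ) ≤ K * (Real.logb 2 ((Pool.Agent.H630R2.LR.comm F).rank : ℝ) + 1) ^ C) :
    PP (Tst (K * 3 ^ C + 30) (max C 2 - 2)) F := by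
  obtain ⟨x0⟩ := ‹Nonempty X›
  obtain ⟨y0⟩ := ‹Nonempty Y›
  have _ : Nonempty X := ⟨x0⟩
  have _ : Nonempty Y := ⟨y0⟩
  by_cases h0 : (dd (Pool.Agent.H630R2.LR.comm F) x0 y0).rank = 0
  · rcases one_sided F x0 y0 h0 with h1 | h1
    · exact (PP.one (Ts := Tst (K * 3 ^ C + 30) (max C 2 - 2)) (Y := Y) (fun x => F x y0)).eqv
        ⟨id, id, fun x y => (h1 x y).symm⟩ ⟨id, id, fun x y => h1 x y⟩
    · exact (PP.one (Ts := Tst (K * 3 ^ C + 30) (max C 2 - 2)) (X := Y) (Y := X)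
        (fun y => F x0 y)).swap.eqv
        ⟨id, id, fun x y => (h1 x y).symm⟩ ⟨id, id, fun x y => h1 x y⟩
  · have h1 : 1 ≤ (dd (Pool.Agent.H630R2.LR.comm F) x0 y0).rank := by omega
    refine Or.inr ⟨Unit, Unit, X, Y, inferInstance, inferInstance, inferInstance,
      inferInstance, inferInstance, inferInstance, fun _ _ b => b, F, fun b => good_unit b,
      ⟨(), (), by simp⟩, ⟨x0, y0, h1, c, hc, ?_⟩,
      ⟨fun p => ((), p), fun q => ((), q), fun p q => rfl⟩, ⟨fun p => p.2, fun q => q.2,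
      fun p q => rfl⟩⟩
    have hl := lam_nonneg F x0 y0
    have hlr := logb_nn (Pool.Agent.H630R2.LR.comm F).rank
    have h2 : Real.logb 2 ((Pool.Agent.H630R2.LR.comm F).rank : ℝ) ≤ lam F x0 y0 + 2 := by
      rcases Nat.eq_zero_or_pos (Pool.Agent.H630R2.LR.comm F).rank with h3 | h3
      · rw [h3]
        simp
        linarith
      · unfold lam
        have e : Real.logb 2 4 = 2 := by
          rw [show (4 : ℝ) = 2 ^ (2 : ℕ) by norm_num, Real.logb_pow]
          simp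
        have h1R : (1 : ℝ) ≤ ((dd (Pool.Agent.H630R2.LR.comm F) x0 y0).rank : ℝ) := by
          exact_mod_cast h1
        have e2 : Real.logb 2 ((dd (Pool.Agent.H630R2.LR.comm F) x0 y0).rank : ℝ) + 2 =
            Real.logb 2 (((dd (Pool.Agent.H630R2.LR.comm F) x0 y0).rank : ℝ) * 4) := by
          rw [Real.logb_mul (by positivity) (by positivity), e]
        rw [e2]
        refine Real.logb_le_logb_of_le (by norm_num) (by exact_mod_cast h3) ?_
        have h4 := rank_dd (Pool.Agent.H630R2.LR.comm F) x0 y0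
        have h5 : (Pool.Agent.H630R2.LR.comm F).rank ≤
            (dd (Pool.Agent.H630R2.LR.comm F) x0 y0).rank * 4 := by omega
        exact_mod_cast h5
    have h3 : (Real.logb 2 ((Pool.Agent.H630R2.LR.comm F).rank : ℝ) + 1) ^ C ≤
        3 ^ C * (lam F x0 y0 + 1) ^ (max C 2) := by
      calc (Real.logb 2 ((Pool.Agent.H630R2.LR.comm F).rank : ℝ) + 1) ^ C
          ≤ (3 * (lam F x0 y0 + 1)) ^ C := pow_le_pow_left₀ (by linarith) (by linarith) _
        _ = 3 ^ C * (lam F x0 y0 + 1) ^ C := by rw [mul_pow]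
        _ ≤ 3 ^ C * (lam F x0 y0 + 1) ^ (max C 2) :=
            mul_le_mul_of_nonneg_left (pow_le_pow_right₀ (by linarith) (le_max_left _ _))
              (by positivity)
    have e : max C 2 - 2 + 2 = max C 2 := Nat.sub_add_cancel (le_max_right _ _)
    unfold Tst
    rw [e]
    have h4 : (K : ℝ) * (Real.logb 2 ((Pool.Agent.H630R2.LR.comm F).rank : ℝ) + 1) ^ C ≤
        K * (3 ^ C * (lam F x0 y0 + 1) ^ (max C 2)) :=
      mul_le_mul_of_nonneg_left h3 (Nat.cast_nonneg _)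
    have h5 : (lam F x0 y0 + 1) ≤ (lam F x0 y0 + 1) ^ (max C 2) := by
      have := pow_le_pow_right₀ (show (1 : ℝ) ≤ lam F x0 y0 + 1 by linarith)
        (show 1 ≤ max C 2 from le_trans (by norm_num) (le_max_right _ _))
      simpa using this
    nlinarith

/-- negations -/
theorem PP.neg {Ts : ℝ → ℝ} {X Y : Type} [Nonempty Y] {F : X → Y → Bool} (h : PP Ts F) :
    PP Ts (fun x y => !F x y) :=
  (h.step (U := Unit) (fun _ b => !b)).eqv ⟨fun p => p.2, id, fun _ _ => rfl⟩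
    ⟨fun x => ((), x), id, fun _ _ => rfl⟩

/-- the final bound -/
theorem PP.final (K C : ℕ) {X Y : Type} [Fintype X] [Fintype Y] [Nonempty X] [Nonempty Y]
    {F : X → Y → Bool} (h : PP (Tst (K * 3 ^ C + 30) (max C 2 - 2)) F) :
    ∃ c : ℕ, Proto F c ∧ (c : ℝ) ≤ (K * 3 ^ C + 30) *
      (Real.logb 2 ((Pool.Agent.H630R2.LR.comm F).rank : ℝ) + 1) ^ (max C 2) := by
  obtain ⟨x0⟩ := ‹Nonempty X›
  obtain ⟨y0⟩ := ‹Nonempty Y›
  have hK : (30 : ℝ) ≤ K * 3 ^ C + 30 := by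
    have : (0 : ℝ) ≤ K * 3 ^ C := by positivity
    linarith
  have hlr := logb_nn (Pool.Agent.H630R2.LR.comm F).rank
  by_cases h0 : (dd (Pool.Agent.H630R2.LR.comm F) x0 y0).rank = 0
  · refine ⟨1, one_sided_proto F x0 y0 h0, ?_⟩
    have h1 : (1 : ℝ) ≤ (Real.logb 2 ((Pool.Agent.H630R2.LR.comm F).rank : ℝ) + 1) ^ (max C 2) :=
      one_le_pow₀ (by linarith)
    push_cast
    nlinarith
  · have h1 : 1 ≤ (dd (Pool.Agent.H630R2.LR.comm F) x0 y0).rank := by omega
    obtain ⟨c, hc, hb⟩ := h.bound _ hK _ x0 y0 h1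
    refine ⟨c, hc, hb.trans ?_⟩
    have e : max C 2 - 2 + 2 = max C 2 := Nat.sub_add_cancel (le_max_right _ _)
    rw [e]
    refine mul_le_mul_of_nonneg_left (pow_le_pow_left₀ ?_ ?_ _) (by linarith)
    · have := lam_nonneg F x0 y0
      linarith
    · have h2 := dd_le (Pool.Agent.H630R2.LR.comm F) x0 y0
      have h3 : lam F x0 y0 ≤ Real.logb 2 ((Pool.Agent.H630R2.LR.comm F).rank : ℝ) := by
        unfold lam
        refine Real.logb_le_logb_of_le (by norm_num) (by exact_mod_cast h1) (by exact_mod_cast h2)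
      linarith

end Pool.Agent.J4.H83
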