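import Pool.Agent.J4.H83.RoRank

/-!
Chains: the two parties apply unary functions alternately.
-/

set_option autoImplicit false
set_option linter.unusedSectionVars false

namespace Pool.Agent.J4.H83

open Finset Module

section ext
variable {X Y : Type*} [Fintype X] [Fintype Y]

/-- the matrix with an additional column of ones -/
def extC (H : X → Y → Bool) : Matrix X (Option Y) ℝ := fun x o => o.elim 1 (fun y => bv (H x y))

/-- the rank of the matrix with an additional column of ones -/
noncomputable def rkC (H : X → Y → Bool) : ℕ := (extC H).rank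

theorem rank_inc {P P' C : Type*} [Fintype P] [Fintype P'] [Fintype C] (M : Matrix P C ℝ)
    (f : P' → P) (z : P → ℝ) (hz : z ∈ Submodule.span ℝ (Set.range M.col))
    (hz0 : ∀ p, z (f p) = 0) (hz1 : z ≠ 0) : (M.submatrix f id).rank + 1 ≤ M.rank := by
  classical
  rw [Matrix.rank_eq_finrank_span_cols M, Matrix.rank_eq_finrank_span_cols (M.submatrix f id)]
  set V := Submodule.span ℝ (Set.range M.col) with hV
  let L : V →ₗ[ℝ] (P' → ℝ) := (LinearMap.funLeft ℝ ℝ f).comp V.subtype
  have h1 := LinearMap.finrank_range_add_finrank_ker L
  have h2 : LinearMap.range L = Submodule.span ℝ (Set.range (M.submatrix f id).col) := by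
    rw [LinearMap.range_comp, Submodule.range_subtype, hV, Submodule.map_span, ← Set.range_comp]
    rfl
  have h3 : 1 ≤ finrank ℝ (LinearMap.ker L) := by
    have hmem : (⟨z, hz⟩ : V) ∈ LinearMap.ker L := by
      rw [LinearMap.mem_ker]
      funext p
      exact hz0 p
    have hne : (⟨⟨z, hz⟩, hmem⟩ : LinearMap.ker L) ≠ 0 := by
      intro h
      apply hz1
      exact congrArg (fun w : LinearMap.ker L => w.1.1) h
    have : Nontrivial (LinearMap.ker L) := ⟨⟨⟨⟨z, hz⟩, hmem⟩, 0, hne⟩⟩
    exact Nat.succ_le_of_lt (Module.finrank_pos (R := ℝ) (M := LinearMap.ker L))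
  rw [h2] at h1
  omega

theorem rkC_le (H : X → Y → Bool) : rkC H ≤ (Pool.Agent.H630R2.LR.comm H).rank + 1 := by
  classical
  let T : Matrix Y (Option Y) ℝ := fun y o => o.elim 0 (fun y' => if y = y' then 1 else 0)
  have e : extC H = Pool.Agent.H630R2.LR.comm H * T +
      Matrix.vecMulVec (fun _ => (1 : ℝ)) (fun o : Option Y => o.elim 1 (fun _ => 0)) := by
    ext x o
    rw [Matrix.add_apply, Matrix.mul_apply, Matrix.vecMulVec_apply]
    cases o with
    | none => simp [extC, T]
    | some y => simp [extC, T, bv, Pool.Agent.H630R2.LR.comm]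
  unfold rkC
  rw [e]
  refine (rank_add_le' _ _).trans ?_
  have h1 := Matrix.rank_mul_le_left (Pool.Agent.H630R2.LR.comm H) T
  have h2 := Matrix.rank_vecMulVec_le (fun _ : X => (1 : ℝ))
    (fun o : Option Y => o.elim (1 : ℝ) (fun _ => 0))
  omega

theorem one_le_rkC [Nonempty X] (H : X → Y → Bool) : 1 ≤ rkC H := by
  classical
  obtain ⟨x0⟩ := ‹Nonempty X›
  have h := id_sub (extC H) (fun _ : Unit => x0) (fun _ : Unit => none) (fun p q => by
    simp [extC])
  rw [Fintype.card_unit] at h
  exact h

theorem bv_not (b : Bool) : bv (xor true b) = 1 - bv b := by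
  cases b <;> simp [bv]

/-- the complement does not change the rank -/
theorem rkC_flip (H : X → Y → Bool) (s : Bool) : rkC H ≤ rkC (fun x y => xor s (H x y)) := by
  classical
  cases s
  · have : (fun x y => xor false (H x y)) = H := by
      funext x y
      simp
    rw [this]
  · let T : Matrix (Option Y) (Option Y) ℝ := fun o o' =>
      o'.elim (if o = none then 1 else 0)
        (fun y => (if o = none then 1 else 0) - (if o = some y then 1 else 0))
    have e : extC H = extC (fun x y => xor true (H x y)) * T := by
      ext x o
      rw [Matrix.mul_apply]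
      cases o with
      | none =>
        simp [extC, T]
      | some y =>
        simp only [T, Option.elim_some, mul_sub, sum_sub_distrib, mul_ite, mul_one, mul_zero]
        rw [sum_ite_eq', sum_ite_eq', if_pos (mem_univ _), if_pos (mem_univ _)]
        show bv (H x y) = 1 - bv (xor true (H x y))
        rw [bv_not]
        ring
    unfold rkC
    rw [e]
    exact Matrix.rank_mul_le_left _ _

end ext

/-- A representation of `H`: `iA` and `iB` are the positions at which the two parties stop. -/
structure Rep {X Y : Type*} (H : X → Y → Bool) (m : ℕ) (iA : X → ℕ) (iB : Y → ℕ) (c : X → Bool)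
    (c' : Y → Bool) (q : ℕ → Y → Bool) (p : ℕ → X → Bool) : Prop where
  hA : ∀ x, iA x ≤ m
  hB : ∀ y, iB y ≤ m
  h1 : ∀ x y, iA x ≤ iB y → H x y = xor (c x) (q (iA x) y)
  h2 : ∀ x y, iB y ≤ iA x → H x y = xor (c' y) (p (iB y) x)
  cA : ∀ x, iA x = 0 → ∀ y y', H x y = H x y'
  cB : ∀ y, iB y = 0 → ∀ x x', H x y = H x' y
  q0 : ∀ y, q 0 y = false
  p0 : ∀ x, p 0 x = false

/-- `H` has a short representation. -/
def Good {X Y : Type*} [Fintype X] [Fintype Y] (H : X → Y → Bool) : Prop :=
  ∃ m iA iB c c' q p, Rep H m iA iB c c' q p ∧ m + 1 ≤ rkC H + rkC (fun y x => H x y)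

theorem Good.swap {X Y : Type*} [Fintype X] [Fintype Y] {H : X → Y → Bool} (h : Good H) :
    Good (fun y x => H x y) := by
  obtain ⟨m, iA, iB, c, c', q, p, hR, hm⟩ := h
  refine ⟨m, iB, iA, c', c, p, q, ⟨hR.hB, hR.hA, fun x y h => hR.h2 y x h, fun x y h => hR.h1 y x h,
    hR.cB, hR.cA, hR.p0, hR.q0⟩, ?_⟩
  rw [add_comm (rkC fun y x => H x y)]
  exact hm

theorem good_unit (b : Bool) : Good (fun (_ : Unit) (_ : Unit) => b) := by
  refine ⟨0, fun _ => 0, fun _ => 0, fun _ => b, fun _ => b, fun _ _ => false, fun _ _ => false,
    ⟨fun _ => le_rfl, fun _ => le_rfl, ?_, ?_, ?_, ?_, ?_, ?_⟩, ?_⟩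
  · intro x y _; simp
  · intro x y _; simp
  · intro x _ y y'; rfl
  · intro x _ y y'; rfl
  · intro _; rfl
  · intro _; rfl
  · have := one_le_rkC (fun (_ : Unit) (_ : Unit) => b)
    omega

/-- **One more step of Alice.** -/
theorem Good.step {X Y U : Type*} [Fintype X] [Fintype Y] [Fintype U] [Nonempty U] [Nonempty X]
    [Nonempty Y] {H : X → Y → Bool} (h : Good H) (α : U → Bool → Bool) :
    Good (fun (p : U × X) (y : Y) => α p.1 (H p.2 y)) := by
  classical
  obtain ⟨m, iA, iB, c, c', q, p, hR, hm⟩ := h
  set H' : U × X → Y → Bool := fun p y => α p.1 (H p.2 y) with hH'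
  by_cases hall : ∀ u, α u false = α u true
  · -- all the functions are constant
    have hval : ∀ u b, α u b = α u false := by
      intro u b
      cases b
      · rfl
      · exact (hall u).symm
    refine ⟨1, fun _ => 0, fun _ => 1, fun r => α r.1 false, fun _ => false, fun _ _ => false,
      fun _ _ => false, ⟨fun _ => Nat.zero_le _, fun _ => le_rfl, ?_, ?_, ?_, ?_, ?_, ?_⟩, ?_⟩
    · intro r y _
      show α r.1 (H r.2 y) = _
      simp [hval r.1 (H r.2 y)]
    · intro r y h
      omega
    · intro r _ y y'
      show α r.1 (H r.2 y) = α r.1 (H r.2 y')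
      rw [hval r.1 (H r.2 y), hval r.1 (H r.2 y')]
    · intro y h
      omega
    · intro _; rfl
    · intro _; rfl
    · have h1 := one_le_rkC H'
      have h2 := one_le_rkC (fun y x => H' x y)
      omega
  · push Not at hall
    obtain ⟨u₀, hu₀⟩ := hall
    obtain ⟨x₀⟩ := ‹Nonempty X›
    have hxor : ∀ u, α u false ≠ α u true → ∀ b, α u b = xor (α u false) b := by
      intro u hu b
      cases b
      · simp
      · revert hu
        cases α u false <;> cases α u true <;> simp
    -- monotonicity of the ranks
    have hmono1 : rkC H ≤ rkC H' := by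
      refine (rkC_flip H (α u₀ false)).trans ?_
      have e : extC (fun x y => xor (α u₀ false) (H x y)) =
          (extC H').submatrix (fun x => (u₀, x)) id := by
        ext x o
        rw [Matrix.submatrix_apply]
        cases o with
        | none => rfl
        | some y =>
          exact congrArg bv (hxor u₀ hu₀ (H x y)).symm
      unfold rkC
      rw [e]
      exact Matrix.rank_submatrix_le _ _ _
    have hmono2 : rkC (fun y x => H x y) ≤ rkC (fun y x => H' x y) := by
      refine (rkC_flip (fun y x => H x y) (α u₀ false)).trans ?_
      have e : extC (fun y x => xor (α u₀ false) (H x y)) =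
          (extC (fun y x => H' x y)).submatrix id (Option.map (fun x => (u₀, x))) := by
        ext y o
        rw [Matrix.submatrix_apply]
        cases o with
        | none => rfl
        | some x =>
          exact congrArg bv (hxor u₀ hu₀ (H x y)).symm
      unfold rkC
      rw [e]
      exact Matrix.rank_submatrix_le _ _ _
    by_cases hcol : ∀ y, iB y = 0 → ∀ r r', H' r y = H' r' y
    · -- the class of index `0` can be used again
      refine ⟨m, fun r => if α r.1 false = α r.1 true then 0 else iA r.2, iB,
        fun r => if α r.1 false = α r.1 true then α r.1 false else xor (α r.1 false) (c r.2),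
        fun y => if iB y = 0 then H' (u₀, x₀) y else c' y, q,
        fun j r => if j = 0 then false else xor (α r.1 false) (p j r.2),
        ⟨?_, hR.hB, ?_, ?_, ?_, hcol, hR.q0, ?_⟩, by omega⟩
      · intro r
        show (if α r.1 false = α r.1 true then 0 else iA r.2) ≤ m
        split_ifs
        · exact Nat.zero_le _
        · exact hR.hA _
      · intro r y hle
        by_cases hr : α r.1 false = α r.1 true
        · simp only [hr, if_true] at hle ⊢
          rw [hR.q0]
          show α r.1 (H r.2 y) = _
          cases H r.2 y <;> simp [hr]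
        · simp only [hr, if_false] at hle ⊢
          show α r.1 (H r.2 y) = _
          rw [hxor r.1 hr, hR.h1 r.2 y hle, Bool.xor_assoc]
      · intro r y hle
        by_cases hy : iB y = 0
        · simp only [hy, if_true]
          rw [Bool.xor_false]
          exact hcol y hy _ _
        · simp only [hy, if_false]
          by_cases hr : α r.1 false = α r.1 true
          · simp only [hr, if_true] at hle
            omega
          · simp only [hr, if_false] at hle
            show α r.1 (H r.2 y) = _
            rw [hxor r.1 hr, hR.h2 r.2 y hle]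
            cases α r.1 false <;> cases c' y <;> cases p (iB y) r.2 <;> rfl
      · intro r hr y y'
        show α r.1 (H r.2 y) = α r.1 (H r.2 y')
        by_cases hr' : α r.1 false = α r.1 true
        · cases H r.2 y <;> cases H r.2 y' <;> simp [hr']
        · simp only [hr', if_false] at hr
          rw [hR.cA r.2 hr y y']
      · intro r
        simp
    · -- a new index
      push Not at hcol
      obtain ⟨y₁, hy₁, r₁, r₂, hr⟩ := hcol
      have hinc : rkC H + 1 ≤ rkC H' := by
        refine le_trans (Nat.add_le_add_right (rkC_flip H (α u₀ false)) 1) ?_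
        have e : extC (fun x y => xor (α u₀ false) (H x y)) =
            (extC H').submatrix (fun x => (u₀, x)) id := by
          ext x o
          rw [Matrix.submatrix_apply]
          cases o with
          | none => rfl
          | some y =>
            exact congrArg bv (hxor u₀ hu₀ (H x y)).symm
        unfold rkC
        rw [e]
        refine rank_inc (extC H') (fun x => (u₀, x))
          (fun r => bv (H' r y₁) - bv (H' (u₀, x₀) y₁)) ?_ ?_ ?_
        · have h1 : (fun r => bv (H' r y₁) - bv (H' (u₀, x₀) y₁)) =
              (extC H').col (some y₁) - bv (H' (u₀, x₀) y₁) • (extC H').col none := by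
            funext r
            simp [Matrix.col, extC]
          rw [h1]
          refine Submodule.sub_mem _ (Submodule.subset_span ⟨_, rfl⟩)
            (Submodule.smul_mem _ _ (Submodule.subset_span ⟨_, rfl⟩))
        · intro x
          show bv (α u₀ (H x y₁)) - bv (α u₀ (H x₀ y₁)) = 0
          rw [hR.cB y₁ hy₁ x x₀, sub_self]
        · intro hz
          have hc : ∀ r, H' r y₁ = H' (u₀, x₀) y₁ := by
            intro r
            have h2 := congrFun hz r
            simp only [Pi.zero_apply, bv] at h2
            cases h3 : H' r y₁ <;> cases h4 : H' (u₀, x₀) y₁ <;> simp_all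
          exact hr ((hc r₁).trans (hc r₂).symm)
      refine ⟨m + 1, fun r => if α r.1 false = α r.1 true then 0 else iA r.2 + 1, fun y => iB y + 1,
        fun r => if α r.1 false = α r.1 true then α r.1 false else xor (α r.1 false) (c r.2),
        c', fun j y => if j = 0 then false else q (j - 1) y,
        fun j r => if j = 0 then false else xor (α r.1 false) (p (j - 1) r.2),
        ⟨?_, fun y => Nat.succ_le_succ (hR.hB y), ?_, ?_, ?_, ?_, ?_, ?_⟩, by omega⟩
      · intro r
        show (if α r.1 false = α r.1 true then 0 else iA r.2 + 1) ≤ m + 1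
        split_ifs
        · exact Nat.zero_le _
        · exact Nat.succ_le_succ (hR.hA _)
      · intro r y hle
        by_cases hr' : α r.1 false = α r.1 true
        · simp only [hr', if_true]
          show α r.1 (H r.2 y) = _
          cases H r.2 y <;> simp [hr']
        · simp only [hr', if_false] at hle ⊢
          show α r.1 (H r.2 y) = _
          rw [hxor r.1 hr', hR.h1 r.2 y (by omega), Bool.xor_assoc]
          simp
      · intro r y hle
        by_cases hr' : α r.1 false = α r.1 true
        · simp only [hr', if_true] at hle
          omega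
        · simp only [hr', if_false] at hle
          show α r.1 (H r.2 y) = _
          rw [hxor r.1 hr', hR.h2 r.2 y (by omega)]
          have h5 : ¬ (iB y + 1 = 0) := by omega
          simp only [h5, if_false, Nat.add_sub_cancel]
          cases α r.1 false <;> cases c' y <;> cases p (iB y) r.2 <;> rfl
      · intro r hr0 y y'
        by_cases hr' : α r.1 false = α r.1 true
        · show α r.1 (H r.2 y) = α r.1 (H r.2 y')
          cases H r.2 y <;> cases H r.2 y' <;> simp [hr']
        · simp only [hr', if_false] at hr0
          omega
      · intro y hy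
        omega
      · intro y
        simp
      · intro r
        simp

/-- one more step of Bob -/
theorem Good.step' {X Y U : Type*} [Fintype X] [Fintype Y] [Fintype U] [Nonempty U] [Nonempty X]
    [Nonempty Y] {H : X → Y → Bool} (h : Good H) (β : U → Bool → Bool) :
    Good (fun (x : X) (p : U × Y) => β p.1 (H x p.2)) :=
  (h.swap.step β).swap

end Pool.Agent.J4.H83
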