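import Pool.Agent.J4.H83.RoMain

/-!
Read-once compositions: the induction.
-/

set_option autoImplicit false
set_option linter.unusedSectionVars false

namespace Pool.Agent.J4.H83

open Finset Module Pool.Agent.H630R2.LR

/-- `F` is obtained from `G` by renaming, repeating and dropping inputs. -/
def Sbm {X Y X' Y' : Type} (F : X → Y → Bool) (G : X' → Y' → Bool) : Prop :=
  ∃ (f : X → X') (g : Y → Y'), ∀ x y, F x y = G (f x) (g y)

theorem Sbm.trans {X Y X' Y' X'' Y'' : Type} {F : X → Y → Bool} {G : X' → Y' → Bool}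
    {H : X'' → Y'' → Bool} (h : Sbm F G) (h' : Sbm G H) : Sbm F H := by
  obtain ⟨f, g, h1⟩ := h
  obtain ⟨f', g', h2⟩ := h'
  exact ⟨fun x => f' (f x), fun y => g' (g y), fun x y => (h1 x y).trans (h2 _ _)⟩

theorem Sbm.swap {X Y X' Y' : Type} {F : X → Y → Bool} {G : X' → Y' → Bool} (h : Sbm F G) :
    Sbm (fun y x => F x y) (fun y x => G x y) := by
  obtain ⟨f, g, h1⟩ := h
  exact ⟨g, f, fun y x => h1 x y⟩

theorem Sbm.proto {X Y X' Y' : Type} {F : X → Y → Bool} {G : X' → Y' → Bool} (h : Sbm F G) {c : ℕ}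
    (hc : Proto G c) : Proto F c := by
  obtain ⟨f, g, h1⟩ := h
  have : F = fun x y => G (f x) (g y) := by
    funext x y
    exact h1 x y
  rw [this]
  exact hc.comap f g

theorem Sbm.rank {X Y X' Y' : Type} [Fintype X] [Fintype Y] [Fintype X'] [Fintype Y']
    {F : X → Y → Bool} {G : X' → Y' → Bool} (h : Sbm F G) :
    (Pool.Agent.H630R2.LR.comm F).rank ≤ (Pool.Agent.H630R2.LR.comm G).rank := by
  obtain ⟨f, g, h1⟩ := h
  have : Pool.Agent.H630R2.LR.comm F = (Pool.Agent.H630R2.LR.comm G).submatrix f g := by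
    ext x y
    rw [Matrix.submatrix_apply]
    show (if F x y then (1 : ℝ) else 0) = if G (f x) (g y) then 1 else 0
    rw [h1]
  rw [this]
  exact Matrix.rank_submatrix_le _ _ _

theorem Sbm.ddr {X Y X' Y' : Type} [Fintype X] [Fintype Y] [Fintype X'] [Fintype Y']
    {F : X → Y → Bool} {G : X' → Y' → Bool} (h : Sbm F G) (x0 : X) (y0 : Y) (x1 : X') (y1 : Y') :
    (dd (Pool.Agent.H630R2.LR.comm F) x0 y0).rank ≤
      (dd (Pool.Agent.H630R2.LR.comm G) x1 y1).rank := by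
  obtain ⟨f, g, h1⟩ := h
  have : Pool.Agent.H630R2.LR.comm F = (Pool.Agent.H630R2.LR.comm G).submatrix f g := by
    ext x y
    rw [Matrix.submatrix_apply]
    show (if F x y then (1 : ℝ) else 0) = if G (f x) (g y) then 1 else 0
    rw [h1]
  rw [this]
  exact dd_sub _ _ _ _ _ _ _

theorem dd_flip {X Y : Type} [Fintype X] [Fintype Y] (F : X → Y → Bool) (s : Bool) (x0 : X)
    (y0 : Y) : (dd (Pool.Agent.H630R2.LR.comm F) x0 y0).rank ≤
      (dd (Pool.Agent.H630R2.LR.comm fun x y => xor s (F x y)) x0 y0).rank := by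
  have e : dd (Pool.Agent.H630R2.LR.comm F) x0 y0 =
      (if s then (-1 : ℝ) else 1) • dd (Pool.Agent.H630R2.LR.comm fun x y => xor s (F x y)) x0 y0 := by
    ext x y
    rw [Matrix.smul_apply, smul_eq_mul]
    show bv (F x y) - bv (F x0 y) - bv (F x y0) + bv (F x0 y0) = (if s then (-1 : ℝ) else 1) *
      (bv (xor s (F x y)) - bv (xor s (F x0 y)) - bv (xor s (F x y0)) + bv (xor s (F x0 y0)))
    cases s
    · simp
    · simp only [bv_not, if_true]
      ring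
  rw [e]
  exact rank_smul_le _ _

theorem dd_swap {X Y : Type} [Fintype X] [Fintype Y] (F : X → Y → Bool) (x0 : X) (y0 : Y) :
    (dd (Pool.Agent.H630R2.LR.comm fun y x => F x y) y0 x0).rank =
      (dd (Pool.Agent.H630R2.LR.comm F) x0 y0).rank := by
  have e : dd (Pool.Agent.H630R2.LR.comm fun y x => F x y) y0 x0 =
      (dd (Pool.Agent.H630R2.LR.comm F) x0 y0).transpose := by
    ext y x
    show bv (F x y) - bv (F x y0) - bv (F x0 y) + bv (F x0 y0) =
      bv (F x y) - bv (F x0 y) - bv (F x y0) + bv (F x0 y0)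
    ring
  rw [e, Matrix.rank_transpose]

/-- the number of bits of the base two logarithm of the rank -/
noncomputable def lam {X Y : Type} [Fintype X] [Fintype Y] (F : X → Y → Bool) (x0 : X) (y0 : Y) : ℝ :=
  Real.logb 2 ((dd (Pool.Agent.H630R2.LR.comm F) x0 y0).rank : ℝ)

section fixed
variable (T Ts : ℝ → ℝ)

/-- a core -/
def Core {X Y : Type} [Fintype X] [Fintype Y] (B : X → Y → Bool) : Prop :=
  ∃ x0 y0, 1 ≤ (dd (Pool.Agent.H630R2.LR.comm B) x0 y0).rank ∧ ∃ c : ℕ, Proto B c ∧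
    (c : ℝ) ≤ Ts (lam B x0 y0)

/-- the inductive property -/
def PP {X Y : Type} (F : X → Y → Bool) : Prop :=
  (∃ (X' Y' : Type) (_ : Fintype X') (_ : Fintype Y') (_ : Nonempty X') (_ : Nonempty Y')
    (H : X' → Y' → Bool), Good H ∧ Sbm F H ∧ Sbm H F) ∨
  (∃ (X₁ Y₁ X₂ Y₂ : Type) (_ : Fintype X₁) (_ : Fintype Y₁) (_ : Nonempty X₁) (_ : Nonempty Y₁)
    (_ : Fintype X₂) (_ : Fintype Y₂) (Ψ : X₁ → Y₁ → Bool → Bool) (B : X₂ → Y₂ → Bool),
    (∀ b, Good (fun x y => Ψ x y b)) ∧ (∃ x y, Ψ x y false ≠ Ψ x y true) ∧ Core Ts B ∧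
    Sbm F (fun (p : X₁ × X₂) (q : Y₁ × Y₂) => Ψ p.1 q.1 (B p.2 q.2)) ∧
    Sbm (fun (p : X₁ × X₂) (q : Y₁ × Y₂) => Ψ p.1 q.1 (B p.2 q.2)) F)

variable {Ts}

theorem PP.eqv {X Y X' Y' : Type} {F : X → Y → Bool} {G : X' → Y' → Bool} (h : PP Ts F)
    (h1 : Sbm F G) (h2 : Sbm G F) : PP Ts G := by
  rcases h with ⟨X₁, Y₁, i1, i2, i3, i4, H, hH, h3, h4⟩ |
    ⟨X₁, Y₁, X₂, Y₂, i1, i2, i3, i4, i5, i6, Ψ, B, hg, hne, hB, h3, h4⟩
  · exact Or.inl ⟨X₁, Y₁, i1, i2, i3, i4, H, hH, h2.trans h3, h4.trans h1⟩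
  · exact Or.inr ⟨X₁, Y₁, X₂, Y₂, i1, i2, i3, i4, i5, i6, Ψ, B, hg, hne, hB, h2.trans h3,
      h4.trans h1⟩

theorem Core.swap {X Y : Type} [Fintype X] [Fintype Y] {B : X → Y → Bool} (h : Core Ts B) :
    Core Ts (fun y x => B x y) := by
  obtain ⟨x0, y0, h1, c, hc, hT⟩ := h
  refine ⟨y0, x0, ?_, c, hc.swap, ?_⟩
  · rw [dd_swap]
    exact h1
  · unfold lam
    rw [dd_swap]
    exact hT

theorem PP.swap {X Y : Type} {F : X → Y → Bool} (h : PP Ts F) : PP Ts (fun y x => F x y) := by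
  rcases h with ⟨X₁, Y₁, i1, i2, i3, i4, H, hH, h3, h4⟩ |
    ⟨X₁, Y₁, X₂, Y₂, i1, i2, i3, i4, i5, i6, Ψ, B, hg, ⟨x, y, hxy⟩, hB, h3, h4⟩
  · exact Or.inl ⟨Y₁, X₁, i2, i1, i4, i3, _, hH.swap, h3.swap, h4.swap⟩
  · exact Or.inr ⟨Y₁, X₁, Y₂, X₂, i2, i1, i4, i3, i6, i5, fun y x b => Ψ x y b, fun y x => B x y,
      fun b => (hg b).swap, ⟨y, x, hxy⟩, hB.swap, h3.swap, h4.swap⟩

/-- functions of Alice's input -/
theorem PP.one {X Y : Type} [Fintype X] [Nonempty X] [Nonempty Y] (h : X → Bool) :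
    PP Ts (fun (x : X) (_ : Y) => h x) := by
  obtain ⟨y0⟩ := ‹Nonempty Y›
  refine Or.inl ⟨X × Unit, Unit, inferInstance, inferInstance, inferInstance, inferInstance, _,
    (good_unit false).step (fun (u : X) _ => h u), ⟨fun x => (x, ()), fun _ => (), fun x y => rfl⟩,
    ⟨fun p => p.1, fun _ => y0, fun p _ => rfl⟩⟩

/-- one step of Alice -/
theorem PP.step {X Y U : Type} [Fintype U] [Nonempty U] [Nonempty Y] {F : X → Y → Bool}
    (h : PP Ts F) (α : U → Bool → Bool) : PP Ts (fun (p : U × X) (y : Y) => α p.1 (F p.2 y)) := by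
  rcases h with ⟨X₁, Y₁, i1, i2, i3, i4, H, hH, ⟨f, g, h3⟩, ⟨f', g', h4⟩⟩ |
    ⟨X₁, Y₁, X₂, Y₂, i1, i2, i3, i4, i5, i6, Ψ, B, hg, ⟨x, y, hxy⟩, hB, ⟨f, g, h3⟩, ⟨f', g', h4⟩⟩
  · refine Or.inl ⟨U × X₁, Y₁, inferInstance, inferInstance, inferInstance, inferInstance, _,
      hH.step α, ⟨fun p => (p.1, f p.2), g, fun p y => ?_⟩, ⟨fun p => (p.1, f' p.2), g',
      fun p y => ?_⟩⟩
    · show α p.1 (F p.2 y) = α p.1 (H (f p.2) (g y))
      rw [h3]
    · show α p.1 (H p.2 y) = α p.1 (F (f' p.2) (g' y))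
      rw [h4]
  · by_cases hall : ∀ u, α u false = α u true
    · have hX : Nonempty X := by
        obtain ⟨x0, -⟩ := hB
        exact ⟨f' (x, x0)⟩
      obtain ⟨x1⟩ := hX
      refine (PP.one (Ts := Ts) (Y := Y) (fun u : U => α u false)).eqv
        ⟨fun u => (u, x1), id, fun u y => ?_⟩ ⟨fun p => p.1, id, fun p y => ?_⟩
      · show α u false = α u (F x1 y)
        cases F x1 y
        · rfl
        · exact hall u
      · show α p.1 (F p.2 y) = α p.1 false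
        cases F p.2 y
        · rfl
        · exact (hall p.1).symm
    · push Not at hall
      obtain ⟨u, hu⟩ := hall
      refine Or.inr ⟨U × X₁, Y₁, X₂, Y₂, inferInstance, inferInstance, inferInstance, inferInstance,
        i5, i6, fun p y b => α p.1 (Ψ p.2 y b), B, fun b => (hg b).step α, ⟨(u, x), y, ?_⟩, hB,
        ⟨fun p => ((p.1, (f p.2).1), (f p.2).2), g, fun p y => ?_⟩,
        ⟨fun p => (p.1.1, f' (p.1.2, p.2)), g', fun p q => ?_⟩⟩
      · show α u (Ψ x y false) ≠ α u (Ψ x y true)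
        revert hxy hu
        generalize Ψ x y false = a
        generalize Ψ x y true = b
        cases a <;> cases b <;> simp
        intro h5 h6
        exact h5 h6.symm
      · show α p.1 (F p.2 y) = α p.1 (Ψ (f p.2).1 (g y).1 (B (f p.2).2 (g y).2))
        rw [h3]
      · show α p.1.1 (Ψ p.1.2 q.1 (B p.2 q.2)) = α p.1.1 (F (f' (p.1.2, p.2)) (g' q))
        rw [← h4]

/-- one step of Bob -/
theorem PP.step' {X Y U : Type} [Fintype U] [Nonempty U] [Nonempty X] {F : X → Y → Bool}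
    (h : PP Ts F) (β : U → Bool → Bool) : PP Ts (fun (x : X) (p : U × Y) => β p.1 (F x p.2)) :=
  (h.swap.step β).swap

end fixed

end Pool.Agent.J4.H83
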