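import Pool.Agent.J4.H83.RoChain
import Pool.Agent.TH744.LR.Prot

/-!
Read-once compositions with conjunctions, disjunctions and exclusive disjunctions.
-/

set_option autoImplicit false
set_option linter.unusedSectionVars false

namespace Pool.Agent.J4.H83

open Finset Module Pool.Agent.H630R2.LR

theorem Good.proto {X Y : Type} [Fintype X] [Fintype Y] {H : X → Y → Bool} (h : Good H) (w : ℕ)
    (hw : 2 * (Pool.Agent.H630R2.LR.comm H).rank + 2 ≤ 2 ^ w) : Proto H (2 * w + 2) := by
  obtain ⟨m, iA, iB, c, c', q, p, hR, hm⟩ := h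
  have h1 := rkC_le H
  have h2 := rkC_le (fun y x => H x y)
  have h3 : (Pool.Agent.H630R2.LR.comm (fun y x => H x y)).rank =
      (Pool.Agent.H630R2.LR.comm H).rank := by
    rw [Pool.Agent.R533.VC.comm_swap, Matrix.rank_transpose]
  have hcard : Fintype.card (Fin (m + 1)) ≤ 2 ^ w := by
    rw [Fintype.card_fin]
    omega
  have e : 2 * w + 2 = (0 + 1 + 1 + w) + w := by ring
  rw [e]
  refine Proto.sendX (Q := Fin (m + 1)) H (fun x => ⟨iA x, Nat.lt_succ_of_le (hR.hA x)⟩) w hcard
    (fun i x y => if i.1 ≤ iB y then xor (c x) (q i.1 y) else xor (c' y) (p (iB y) x)) _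
    (fun i => ?_) (fun x y => ?_)
  · refine Proto.sendY (Q := Fin (m + 1)) _ (fun y => ⟨iB y, Nat.lt_succ_of_le (hR.hB y)⟩) w hcard
      (fun j x y => if i.1 ≤ j.1 then xor (c x) (q i.1 y) else xor (c' y) (p j.1 x)) _
      (fun j => ?_) (fun x y => rfl)
    refine Proto.alice _ (fun x => if i.1 ≤ j.1 then c x else p j.1 x)
      (fun b _ y => xor b (if i.1 ≤ j.1 then q i.1 y else c' y)) _ (fun b => ?_) (fun x y => ?_)
    · refine Proto.bob _ (fun y => if i.1 ≤ j.1 then q i.1 y else c' y)
        (fun b' _ _ => xor b b') _ (fun b' => Proto.const _ _ fun _ _ => rfl) (fun x y => rfl)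
    · by_cases hij : i.1 ≤ j.1
      · simp only [hij, if_true]
      · simp only [hij, if_false]
        rw [Bool.xor_comm]
  · by_cases hle : iA x ≤ iB y
    · simp only [hle, if_true]
      exact hR.h1 x y hle
    · simp only [hle, if_false]
      exact hR.h2 x y (by omega)

/-! ### Matrices of rank at most one -/

section one
variable {X Y : Type*} [Fintype X] [Fintype Y]

theorem minor (M : Matrix X Y ℝ) (h : M.rank ≤ 1) (x x' : X) (y y' : Y) :
    M x y * M x' y' = M x y' * M x' y := by
  by_contra hne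
  have hdet : (M.submatrix ![x, x'] ![y, y']).det ≠ 0 := by
    rw [Matrix.det_fin_two]
    simp only [Matrix.submatrix_apply, Matrix.cons_val_zero, Matrix.cons_val_one]
    intro h0
    exact hne (by linarith)
  have h2 : (M.submatrix ![x, x'] ![y, y']).rank = 2 := by
    have := Matrix.rank_of_isUnit (M.submatrix ![x, x'] ![y, y'])
      ((Matrix.isUnit_iff_isUnit_det _).mpr (isUnit_iff_ne_zero.mpr hdet))
    simpa using this
  have h3 := Matrix.rank_submatrix_le M ![x, x'] ![y, y']
  omega

theorem and_type (A : X → Y → Bool) (h : (Matrix.of fun x y => bv (A x y)).rank ≤ 1) :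
    ∃ (u : X → Bool) (v : Y → Bool), ∀ x y, A x y = (u x && v y) := by
  by_cases hex : ∃ x1 y1, A x1 y1 = true
  · obtain ⟨x1, y1, h1⟩ := hex
    refine ⟨fun x => A x y1, fun y => A x1 y, fun x y => ?_⟩
    have h2 := minor _ h x x1 y y1
    simp only [Matrix.of_apply, bv, h1, if_true, mul_one] at h2
    cases h3 : A x y <;> cases h4 : A x y1 <;> cases h5 : A x1 y <;> simp_all
  · push Not at hex
    refine ⟨fun _ => false, fun _ => false, fun x y => ?_⟩
    have := hex x y
    simpa using this

theorem xor_type (A : X → Y → Bool) (h : (Matrix.of fun x y => 1 - 2 * bv (A x y)).rank ≤ 1)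
    (x0 : X) (y0 : Y) : ∃ (u : X → Bool) (v : Y → Bool), ∀ x y, A x y = xor (u x) (v y) := by
  refine ⟨fun x => A x y0, fun y => xor (A x0 y) (A x0 y0), fun x y => ?_⟩
  have h2 := minor _ h x x0 y y0
  simp only [Matrix.of_apply] at h2
  show A x y = xor (A x y0) (xor (A x0 y) (A x0 y0))
  generalize A x y = a at h2 ⊢
  generalize A x y0 = b at h2 ⊢
  generalize A x0 y = c at h2 ⊢
  generalize A x0 y0 = d at h2 ⊢
  revert h2
  cases a <;> cases b <;> cases c <;> cases d <;> norm_num [bv]

/-- vanishing double differences: one-sided functions -/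
theorem one_sided (A : X → Y → Bool) (x0 : X) (y0 : Y)
    (h : (dd (Pool.Agent.H630R2.LR.comm A) x0 y0).rank = 0) :
    (∀ x y, A x y = A x y0) ∨ (∀ x y, A x y = A x0 y) := by
  have h0 : ∀ x y, bv (A x y) - bv (A x0 y) - bv (A x y0) + bv (A x0 y0) = 0 := by
    intro x y
    obtain ⟨T, hT, hs⟩ := Pool.Agent.R533.VC.exists_rows (dd (Pool.Agent.H630R2.LR.comm A) x0 y0)
    have hT0 : T = ∅ := Finset.card_eq_zero.mp (Nat.le_zero.mp (hT.trans h.le))
    exact Pool.Agent.R533.VC.span_zero (dd (Pool.Agent.H630R2.LR.comm A) x0 y0) T y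
      (fun a ha => absurd ha (by rw [hT0]; simp)) _ (hs x)
  by_cases hex : ∃ x1, A x1 y0 ≠ A x0 y0
  · left
    obtain ⟨x1, h1⟩ := hex
    have h2 : ∀ y, A x0 y = A x0 y0 := by
      intro y
      have h3 := h0 x1 y
      revert h3 h1
      generalize A x1 y = a
      generalize A x0 y = b
      generalize A x1 y0 = c
      generalize A x0 y0 = d
      cases a <;> cases b <;> cases c <;> cases d <;> norm_num [bv]
    intro x y
    have h3 := h0 x y
    rw [h2 y] at h3
    revert h3
    generalize A x y = a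
    generalize A x y0 = b
    generalize A x0 y0 = d
    cases a <;> cases b <;> cases d <;> norm_num [bv]
  · right
    push Not at hex
    intro x y
    have h3 := h0 x y
    rw [hex x] at h3
    revert h3
    generalize A x y = a
    generalize A x0 y = b
    generalize A x0 y0 = d
    cases a <;> cases b <;> cases d <;> norm_num [bv]

end one

/-! ### Gates -/

/-- the three types of gates -/
inductive Gt
  | conj | disj | excl

/-- the value of a gate -/
def Gt.ev : Gt → Bool → Bool → Bool
  | .conj, a, b => a && b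
  | .disj, a, b => a || b
  | .excl, a, b => xor a b

/-- the multiplicative real representation -/
def Gt.nm : Gt → Bool → ℝ
  | .conj, a => bv a
  | .disj, a => 1 - bv a
  | .excl, a => 1 - 2 * bv a

/-- the factor -/
def Gt.ka : Gt → ℝ
  | .conj => 1
  | .disj => -1
  | .excl => -2

theorem Gt.ka_ne (g : Gt) : g.ka ≠ 0 := by cases g <;> norm_num [Gt.ka]

theorem Gt.nm_ev (g : Gt) (a b : Bool) : g.nm (g.ev a b) = g.nm a * g.nm b := by
  cases g <;> cases a <;> cases b <;> norm_num [Gt.nm, Gt.ev, bv]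

theorem Gt.ev_comm (g : Gt) (a b : Bool) : g.ev a b = g.ev b a := by
  cases g <;> cases a <;> cases b <;> rfl

/-- the composition on disjoint inputs -/
def gat {X Y X' Y' : Type*} (g : Gt) (A : X → Y → Bool) (B : X' → Y' → Bool) :
    (X × X') → (Y × Y') → Bool := fun p q => g.ev (A p.1 q.1) (B p.2 q.2)

/-- the matrix in the multiplicative representation -/
def Nm {X Y : Type*} (g : Gt) (A : X → Y → Bool) : Matrix X Y ℝ := fun x y => g.nm (A x y)

section gates
variable {X Y X' Y' : Type*} [Fintype X] [Fintype Y] [Fintype X'] [Fintype Y']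

theorem rank_smul_le (M : Matrix X Y ℝ) (k : ℝ) : (k • M).rank ≤ M.rank := by
  classical
  have e : k • M = Matrix.diagonal (fun _ : X => k) * M := by
    ext x y
    rw [Matrix.diagonal_mul]
    rfl
  rw [e]
  exact Matrix.rank_mul_le_right _ _

theorem dd_nm (g : Gt) (A : X → Y → Bool) (x0 : X) (y0 : Y) :
    (dd (Nm g A) x0 y0).rank = (dd (Pool.Agent.H630R2.LR.comm A) x0 y0).rank := by
  have e : dd (Nm g A) x0 y0 = g.ka • dd (Pool.Agent.H630R2.LR.comm A) x0 y0 := by
    ext x y
    rw [Matrix.smul_apply, smul_eq_mul]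
    have h : ∀ x y, Pool.Agent.H630R2.LR.comm A x y = bv (A x y) := fun _ _ => rfl
    simp only [dd, h, Nm]
    cases g <;> simp only [Gt.nm, Gt.ka] <;> ring
  apply le_antisymm
  · rw [e]
    exact rank_smul_le _ _
  · have e2 : dd (Pool.Agent.H630R2.LR.comm A) x0 y0 = (g.ka)⁻¹ • dd (Nm g A) x0 y0 := by
      rw [e, smul_smul, inv_mul_cancel₀ g.ka_ne, one_smul]
    rw [e2]
    exact rank_smul_le _ _

theorem dd_base (M : Matrix X Y ℝ) (x0 x1 : X) (y0 y1 : Y) :
    (dd M x0 y0).rank ≤ (dd M x1 y1).rank := dd_sub M id id x1 y1 x0 y0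

/-- rank of a gate -/
theorem gat_rank (g : Gt) (A : X → Y → Bool) (B : X' → Y' → Bool) (x0 : X') (y0 : Y')
    (a0 : X × X') (b0 : Y × Y') :
    (Nm g A).rank * (dd (Pool.Agent.H630R2.LR.comm B) x0 y0).rank ≤
      (dd (Pool.Agent.H630R2.LR.comm (gat g A B)) a0 b0).rank := by
  rw [← dd_nm g B, ← dd_nm g (gat g A B)]
  have e : Nm g (gat g A B) = ten (Nm g A) (Nm g B) := by
    ext p q
    exact g.nm_ev _ _
  rw [e]
  exact dd_ten _ _ _ _ _ _

theorem gat_rank' (g : Gt) (A : X → Y → Bool) (B : X' → Y' → Bool) (x0 : X) (y0 : Y)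
    (a0 : X × X') (b0 : Y × Y') :
    (Nm g B).rank * (dd (Pool.Agent.H630R2.LR.comm A) x0 y0).rank ≤
      (dd (Pool.Agent.H630R2.LR.comm (gat g A B)) a0 b0).rank := by
  refine (gat_rank g B A x0 y0 (a0.2, a0.1) (b0.2, b0.1)).trans ?_
  have e : Pool.Agent.H630R2.LR.comm (gat g B A) =
      (Pool.Agent.H630R2.LR.comm (gat g A B)).submatrix Prod.swap Prod.swap := by
    ext p q
    rw [Matrix.submatrix_apply]
    show (if g.ev (B p.1 q.1) (A p.2 q.2) then (1 : ℝ) else 0) =
      if g.ev (A p.2 q.2) (B p.1 q.1) then 1 else 0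
    rw [g.ev_comm]
  rw [e]
  exact dd_sub _ _ _ _ _ _ _

theorem nm_one (g : Gt) (A : X → Y → Bool) (h : (Nm g A).rank ≤ 1) (x0 : X) (y0 : Y) :
    ∃ (u : X → Bool → Bool) (v : Y → Bool → Bool), ∀ x y b, g.ev (A x y) b = u x (v y b) := by
  cases g with
  | conj =>
    obtain ⟨u, v, huv⟩ := and_type A h
    refine ⟨fun x b => u x && b, fun y b => v y && b, fun x y b => ?_⟩
    show (A x y && b) = _
    rw [huv, Bool.and_assoc]
  | disj =>
    obtain ⟨u, v, huv⟩ := and_type (fun x y => !A x y) (by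
      have e : (Matrix.of fun x y => bv (!A x y)) = Nm Gt.disj A := by
        ext x y
        show bv (!A x y) = 1 - bv (A x y)
        cases A x y <;> simp [bv]
      rw [e]
      exact h)
    refine ⟨fun x b => !u x || b, fun y b => !v y || b, fun x y b => ?_⟩
    show (A x y || b) = _
    have := huv x y
    cases h1 : A x y <;> cases h2 : u x <;> cases h3 : v y <;> simp_all
  | excl =>
    obtain ⟨u, v, huv⟩ := xor_type A h x0 y0
    refine ⟨fun x b => xor (u x) b, fun y b => xor (v y) b, fun x y b => ?_⟩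
    show xor (A x y) b = _
    rw [huv, Bool.xor_assoc]

/-- a gate input of larger rank is not one-sided -/
theorem nm_two (g : Gt) (A : X → Y → Bool) (h : 2 ≤ (Nm g A).rank) (x0 : X) (y0 : Y) :
    1 ≤ (dd (Pool.Agent.H630R2.LR.comm A) x0 y0).rank := by
  by_contra hcon
  have h0 : (dd (Pool.Agent.H630R2.LR.comm A) x0 y0).rank = 0 := by omega
  have h1 : (Nm g A).rank ≤ 1 := by
    rcases one_sided A x0 y0 h0 with h2 | h2
    · have e : Nm g A = Matrix.vecMulVec (fun x => g.nm (A x y0)) (fun _ => (1 : ℝ)) := by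
        ext x y
        rw [Matrix.vecMulVec_apply, mul_one]
        show g.nm (A x y) = _
        rw [h2]
      rw [e]
      exact Matrix.rank_vecMulVec_le _ _
    · have e : Nm g A = Matrix.vecMulVec (fun _ => (1 : ℝ)) (fun y => g.nm (A x0 y)) := by
        ext x y
        rw [Matrix.vecMulVec_apply, one_mul]
        show g.nm (A x y) = _
        rw [h2]
      rw [e]
      exact Matrix.rank_vecMulVec_le _ _
  omega

theorem dd_le_nm (g : Gt) (A : X → Y → Bool) (x0 : X) (y0 : Y) :
    (dd (Pool.Agent.H630R2.LR.comm A) x0 y0).rank ≤ (Nm g A).rank := by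
  rw [← dd_nm g A]
  exact dd_le _ _ _

end gates

end Pool.Agent.J4.H83
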