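import Pool.Agent.J4.H83.UnMain

/-!
Double differences of matrices and tensor products.
-/

set_option autoImplicit false
set_option linter.unusedSectionVars false

namespace Pool.Agent.J4.H83

open Finset Module

section dd
variable {X Y : Type*} [Fintype X] [Fintype Y]

/-- double differences -/
def dd (M : Matrix X Y ℝ) (x0 : X) (y0 : Y) : Matrix X Y ℝ :=
  fun x y => M x y - M x0 y - M x y0 + M x0 y0

theorem indep_rows (D : Matrix X Y ℝ) :
    ∃ (r : ℕ) (xs : Fin r → X), D.rank = r ∧ LinearIndependent ℝ (fun a => D (xs a)) := by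
  obtain ⟨f, hf, _, hfi⟩ := Submodule.exists_fun_fin_finrank_span_eq ℝ (Set.range D.row)
  choose xs hxs using hf
  refine ⟨_, xs, Matrix.rank_eq_finrank_span_row D, ?_⟩
  have : (fun a => D (xs a)) = f := funext fun a => hxs a
  rw [this]
  exact hfi

/-- zero-sum combinations of the rows and of the columns -/
theorem rank_zero_sum {P P' : Type*} [Fintype P] [Fintype P'] (M : Matrix X Y ℝ) (x0 : X) (y0 : Y)
    (L : Matrix P X ℝ) (R : Matrix Y P' ℝ) (hL : ∀ p, ∑ x, L p x = 0) (hR : ∀ p, ∑ y, R y p = 0) :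
    (L * M * R).rank ≤ (dd M x0 y0).rank := by
  classical
  have e : L * M * R = L * dd M x0 y0 * R := by
    ext p p'
    rw [Matrix.mul_apply, Matrix.mul_apply]
    have h1 : ∀ y, (L * dd M x0 y0) p y = (L * M) p y - ∑ x, L p x * M x y0 := by
      intro y
      rw [Matrix.mul_apply, Matrix.mul_apply, ← sum_sub_distrib]
      have h2 : ∑ x, L p x * (M x0 y - M x0 y0) = 0 := by
        rw [← sum_mul, hL, zero_mul]
      calc ∑ x, L p x * dd M x0 y0 x y = ∑ x, (L p x * M x y - L p x * M x y0) -
          ∑ x, L p x * (M x0 y - M x0 y0) := by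
            rw [← sum_sub_distrib]
            refine sum_congr rfl fun x _ => ?_
            unfold dd
            ring
        _ = _ := by rw [h2, sub_zero]
    have h3 : ∑ y, (∑ x, L p x * M x y0) * R y p' = 0 := by
      rw [← mul_sum, hR, mul_zero]
    calc ∑ y, (L * M) p y * R y p' = ∑ y, (L * M) p y * R y p' -
        ∑ y, (∑ x, L p x * M x y0) * R y p' := by rw [h3, sub_zero]
      _ = _ := by
        rw [← sum_sub_distrib]
        refine sum_congr rfl fun y _ => ?_
        rw [h1]
        ring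
  rw [e]
  exact (Matrix.rank_mul_le_left _ _).trans (Matrix.rank_mul_le_right _ _)

theorem dd_le (M : Matrix X Y ℝ) (x0 : X) (y0 : Y) : (dd M x0 y0).rank ≤ M.rank := by
  classical
  let L : Matrix X X ℝ := fun x x' => (if x = x' then 1 else 0) - (if x0 = x' then 1 else 0)
  let R : Matrix Y Y ℝ := fun y' y => (if y = y' then 1 else 0) - (if y0 = y' then 1 else 0)
  have e : dd M x0 y0 = L * M * R := by
    ext x y
    rw [Matrix.mul_apply]
    have h1 : ∀ y', (L * M) x y' = M x y' - M x0 y' := by
      intro y'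
      rw [Matrix.mul_apply]
      simp only [L, sub_mul, ite_mul, one_mul, zero_mul, sum_sub_distrib]
      rw [sum_ite_eq, sum_ite_eq, if_pos (mem_univ _), if_pos (mem_univ _)]
    simp only [h1, R, mul_sub, mul_ite, mul_one, mul_zero, sum_sub_distrib]
    rw [sum_ite_eq, sum_ite_eq, if_pos (mem_univ _), if_pos (mem_univ _)]
    unfold dd
    ring
  rw [e]
  exact (Matrix.rank_mul_le_left _ _).trans (Matrix.rank_mul_le_right _ _)

/-- submatrices -/
theorem dd_sub {X' Y' : Type*} [Fintype X'] [Fintype Y'] (M : Matrix X Y ℝ) (f : X' → X)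
    (g : Y' → Y) (x0 : X) (y0 : Y) (x0' : X') (y0' : Y') :
    (dd (M.submatrix f g) x0' y0').rank ≤ (dd M x0 y0).rank := by
  classical
  let L : Matrix X' X ℝ := fun x x' => (if f x = x' then 1 else 0) - (if f x0' = x' then 1 else 0)
  let R : Matrix Y Y' ℝ := fun y' y => (if g y = y' then 1 else 0) - (if g y0' = y' then 1 else 0)
  have e : dd (M.submatrix f g) x0' y0' = L * M * R := by
    ext x y
    rw [Matrix.mul_apply]
    have h1 : ∀ y', (L * M) x y' = M (f x) y' - M (f x0') y' := by
      intro y'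
      rw [Matrix.mul_apply]
      simp only [L, sub_mul, ite_mul, one_mul, zero_mul, sum_sub_distrib]
      rw [sum_ite_eq, sum_ite_eq, if_pos (mem_univ _), if_pos (mem_univ _)]
    simp only [h1, R, mul_sub, mul_ite, mul_one, mul_zero, sum_sub_distrib]
    rw [sum_ite_eq, sum_ite_eq, if_pos (mem_univ _), if_pos (mem_univ _)]
    unfold dd
    simp only [Matrix.submatrix_apply]
    ring
  rw [e]
  refine rank_zero_sum M x0 y0 L R (fun p => ?_) (fun p => ?_)
  · simp only [L, sum_sub_distrib]
    rw [sum_ite_eq, sum_ite_eq, if_pos (mem_univ _), if_pos (mem_univ _), sub_self]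
  · simp only [R, sum_sub_distrib]
    rw [sum_ite_eq, sum_ite_eq, if_pos (mem_univ _), if_pos (mem_univ _), sub_self]

theorem rank_dd (M : Matrix X Y ℝ) (x0 : X) (y0 : Y) : M.rank ≤ (dd M x0 y0).rank + 2 := by
  classical
  have e : M = dd M x0 y0 + (Matrix.vecMulVec (fun _ => (1 : ℝ)) (fun y => M x0 y - M x0 y0) +
      Matrix.vecMulVec (fun x => M x y0) (fun _ => (1 : ℝ))) := by
    ext x y
    simp only [Matrix.add_apply, Matrix.vecMulVec_apply, dd]
    ring
  have h1 := rank_add_le' (dd M x0 y0) (Matrix.vecMulVec (fun _ => (1 : ℝ))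
    (fun y => M x0 y - M x0 y0) + Matrix.vecMulVec (fun x => M x y0) (fun _ => (1 : ℝ)))
  have h2 := rank_add_le' (Matrix.vecMulVec (fun _ : X => (1 : ℝ)) (fun y => M x0 y - M x0 y0))
    (Matrix.vecMulVec (fun x => M x y0) (fun _ : Y => (1 : ℝ)))
  have h3 := Matrix.rank_vecMulVec_le (fun _ : X => (1 : ℝ)) (fun y => M x0 y - M x0 y0)
  have h4 := Matrix.rank_vecMulVec_le (fun x => M x y0) (fun _ : Y => (1 : ℝ))
  rw [← e] at h1
  omega

end dd

section tensor
variable {P Q X Y : Type*} [Fintype P] [Fintype Q] [Fintype X] [Fintype Y]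

/-- the tensor product -/
def ten (S : Matrix P Q ℝ) (M : Matrix X Y ℝ) : Matrix (P × X) (Q × Y) ℝ :=
  fun a b => S a.1 b.1 * M a.2 b.2

theorem rank_ten (S : Matrix P Q ℝ) (M : Matrix X Y ℝ) : S.rank * M.rank ≤ (ten S M).rank := by
  classical
  obtain ⟨r, xs, hr, hxs⟩ := indep_rows S
  obtain ⟨t, us, ht, hus⟩ := indep_rows M
  have hli : LinearIndependent ℝ ((ten S M).submatrix
      (fun p : Fin r × Fin t => (xs p.1, us p.2)) id).row := by
    rw [Fintype.linearIndependent_iff]
    intro l hl
    have hl' : ∀ q y, ∑ p : Fin r × Fin t, l p * (S (xs p.1) q * M (us p.2) y) = 0 := by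
      intro q y
      have := congrFun hl (q, y)
      rw [Finset.sum_apply] at this
      exact this
    have hk : ∀ y a, ∑ k, l (a, k) * M (us k) y = 0 := by
      intro y
      rw [Fintype.linearIndependent_iff] at hxs
      refine hxs (fun a => ∑ k, l (a, k) * M (us k) y) ?_
      funext q
      rw [Finset.sum_apply, Pi.zero_apply]
      have h4 := hl' q y
      rw [Fintype.sum_prod_type] at h4
      rw [← h4]
      refine Finset.sum_congr rfl fun a _ => ?_
      rw [Pi.smul_apply, smul_eq_mul, Finset.sum_mul]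
      refine Finset.sum_congr rfl fun k _ => ?_
      ring
    intro p
    obtain ⟨a, k⟩ := p
    rw [Fintype.linearIndependent_iff] at hus
    refine hus (fun k => l (a, k)) ?_ k
    funext y
    rw [Finset.sum_apply, Pi.zero_apply, ← hk y a]
    refine Finset.sum_congr rfl fun k _ => ?_
    rw [Pi.smul_apply, smul_eq_mul]
  have h5 := LinearIndependent.rank_matrix hli
  rw [hr, ht]
  calc r * t = ((ten S M).submatrix (fun p : Fin r × Fin t => (xs p.1, us p.2)) id).rank := by
        rw [h5]; simp
    _ ≤ (ten S M).rank := Matrix.rank_submatrix_le _ _ _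

theorem dd_ten (S : Matrix P Q ℝ) (M : Matrix X Y ℝ) (x0 : X) (y0 : Y) (a0 : P × X) (b0 : Q × Y) :
    S.rank * (dd M x0 y0).rank ≤ (dd (ten S M) a0 b0).rank := by
  classical
  refine (rank_ten S (dd M x0 y0)).trans ?_
  let L : Matrix (P × X) (P × X) ℝ := fun a a' =>
    (if a = a' then 1 else 0) - (if (a.1, x0) = a' then 1 else 0)
  let R : Matrix (Q × Y) (Q × Y) ℝ := fun b' b =>
    (if b = b' then 1 else 0) - (if (b.1, y0) = b' then 1 else 0)
  have e : ten S (dd M x0 y0) = L * ten S M * R := by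
    ext a b
    rw [Matrix.mul_apply]
    have h1 : ∀ b', (L * ten S M) a b' = ten S M a b' - ten S M (a.1, x0) b' := by
      intro b'
      rw [Matrix.mul_apply]
      simp only [L, sub_mul, ite_mul, one_mul, zero_mul, sum_sub_distrib]
      rw [sum_ite_eq, sum_ite_eq, if_pos (mem_univ _), if_pos (mem_univ _)]
    simp only [h1, R, mul_sub, mul_ite, mul_one, mul_zero, sum_sub_distrib]
    rw [sum_ite_eq, sum_ite_eq, if_pos (mem_univ _), if_pos (mem_univ _)]
    simp only [ten, dd]
    ring
  rw [e]
  refine rank_zero_sum (ten S M) a0 b0 L R (fun p => ?_) (fun p => ?_)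
  · simp only [L, sum_sub_distrib]
    rw [sum_ite_eq, sum_ite_eq, if_pos (mem_univ _), if_pos (mem_univ _), sub_self]
  · simp only [R, sum_sub_distrib]
    rw [sum_ite_eq, sum_ite_eq, if_pos (mem_univ _), if_pos (mem_univ _), sub_self]

end tensor

end Pool.Agent.J4.H83
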