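import Pool.Agent.J4.H83.UnFour

/-!
Monotone functions with small certificates have small degree.
-/

set_option autoImplicit false

namespace Pool.Agent.J4.H83

open Finset

variable {Q : Type*} [Fintype Q] [DecidableEq Q]

/-- the span of the functions which depend on at most `d` variables -/
def Jun (Q : Type*) [Fintype Q] [DecidableEq Q] (d : ℕ) : Submodule ℝ (Finset Q → ℝ) :=
  Submodule.span ℝ {φ | ∃ J : Finset Q, J.card ≤ d ∧ ∀ U, φ (U ∩ J) = φ U}

theorem jun_hat (d : ℕ) (S : Finset Q) (hS : d < S.card) (φ : Finset Q → ℝ) (h : φ ∈ Jun Q d) :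
    hat φ S = 0 := by
  unfold Jun at h
  induction h using Submodule.span_induction with
  | mem φ hφ =>
    obtain ⟨J, hJ, h⟩ := hφ
    obtain ⟨i, hi, hiJ⟩ : ∃ i ∈ S, i ∉ J := by
      by_contra hcon
      push Not at hcon
      have := card_le_card (show S ⊆ J from hcon)
      omega
    have h1 : hat φ S = ∑ U : Finset Q, ep S (symmDiff U {i}) * φ (symmDiff U {i}) :=
      (sum_shift (fun U => ep S U * φ U) {i}).symm
    have h2 : ∑ U : Finset Q, ep S (symmDiff U {i}) * φ (symmDiff U {i}) = - hat φ S := by
      rw [hat, ← sum_neg_distrib]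
      refine sum_congr rfl fun U _ => ?_
      have h3 : (symmDiff U {i}) ∩ J = U ∩ J := by
        ext j
        simp only [mem_inter, mem_symmDiff, mem_singleton]
        by_cases hj : j = i
        · subst hj
          simp [hiJ]
        · simp [hj]
      rw [ep_symmDiff, ep_singleton, if_pos hi, ← h (symmDiff U {i}), h3, h U]
      ring
    linarith
  | zero => simp [hat]
  | add φ ψ _ _ h1 h2 =>
    simp only [hat, Pi.add_apply, mul_add, sum_add_distrib] at h1 h2 ⊢
    rw [h1, h2, add_zero]
  | smul c φ _ h1 =>
    simp only [hat, Pi.smul_apply, smul_eq_mul] at h1 ⊢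
    have e : ∀ U : Finset Q, ep S U * (c * φ U) = c * (ep S U * φ U) := fun U => by ring
    simp only [e]
    rw [← mul_sum, h1, mul_zero]

theorem jun_mul (d : ℕ) (T τ : Finset Q) (φ : Finset Q → ℝ) (h : φ ∈ Jun Q d) :
    (fun U : Finset Q => (if U ∩ T = τ then (1 : ℝ) else 0) * φ U) ∈ Jun Q (d + T.card) := by
  unfold Jun at h
  induction h using Submodule.span_induction with
  | mem φ hφ =>
    obtain ⟨J, hJ, h⟩ := hφ
    refine Submodule.subset_span ⟨J ∪ T, (card_union_le _ _).trans (by omega), fun U => ?_⟩
    have e1 : U ∩ (J ∪ T) ∩ T = U ∩ T := by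
      ext i
      simp only [mem_inter, mem_union]
      tauto
    have e2 : φ (U ∩ (J ∪ T)) = φ U := by
      rw [← h (U ∩ (J ∪ T)), ← h U]
      congr 1
      ext i
      simp only [mem_inter, mem_union]
      tauto
    simp only [e1, e2]
  | zero =>
    have : (fun U : Finset Q => (if U ∩ T = τ then (1 : ℝ) else 0) * (0 : Finset Q → ℝ) U) = 0 := by
      funext U
      simp
    rw [this]
    exact Submodule.zero_mem _
  | add φ ψ _ _ h1 h2 =>
    have : (fun U : Finset Q => (if U ∩ T = τ then (1 : ℝ) else 0) * (φ + ψ) U) =
        (fun U : Finset Q => (if U ∩ T = τ then (1 : ℝ) else 0) * φ U) +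
        (fun U : Finset Q => (if U ∩ T = τ then (1 : ℝ) else 0) * ψ U) := by
      funext U
      simp [mul_add]
    rw [this]
    exact Submodule.add_mem _ h1 h2
  | smul c φ _ h1 =>
    have : (fun U : Finset Q => (if U ∩ T = τ then (1 : ℝ) else 0) * (c • φ) U) =
        c • (fun U : Finset Q => (if U ∩ T = τ then (1 : ℝ) else 0) * φ U) := by
      funext U
      simp
    rw [this]
    exact Submodule.smul_mem _ _ h1

/-- small certificates for the value `true` -/
def Cone (h : Finset Q → Bool) (k : ℕ) : Prop :=
  ∀ U, h U = true → ∃ T ⊆ U, T.card ≤ k ∧ h T = true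

/-- small certificates for the value `false` -/
def Czero (h : Finset Q → Bool) (k : ℕ) : Prop :=
  ∀ U, h U = false → ∃ V, U ⊆ V ∧ (Vᶜ).card ≤ k ∧ h V = false

theorem deg (k1 : ℕ) : ∀ (k0 : ℕ) (h : Finset Q → Bool),
    (∀ U V, U ⊆ V → h U = true → h V = true) → Cone h k1 → Czero h k0 →
    (fun U => bv (h U)) ∈ Jun Q (k0 * k1) := by
  intro k0
  induction k0 with
  | zero =>
    intro h hm _ h0
    by_cases hex : ∃ T, h T = true
    · obtain ⟨T, hT⟩ := hex
      have hall : ∀ U, h U = true := by
        intro U
        by_contra hU
        rw [Bool.not_eq_true] at hU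
        obtain ⟨V, _, hV, hV0⟩ := h0 U hU
        have hVu : V = univ := by
          rw [← compl_eq_empty_iff]
          exact card_eq_zero.mp (Nat.le_zero.mp hV)
        rw [hVu] at hV0
        rw [hm T univ (subset_univ _) hT] at hV0
        exact absurd hV0 (by decide)
      refine Submodule.subset_span ⟨∅, by simp, fun U => ?_⟩
      show bv (h (U ∩ ∅)) = bv (h U)
      rw [hall, hall]
    · push Not at hex
      have : (fun U => bv (h U)) = 0 := by
        funext U
        have h2 : h U = false := Bool.eq_false_iff.mpr (hex U)
        simp [h2, bv]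
      rw [this]
      exact Submodule.zero_mem _
  | succ k0 ih =>
    intro h hm h1 h0
    by_cases hex : ∃ T, h T = true
    · obtain ⟨T', hT'⟩ := hex
      obtain ⟨T, _, hTc, hT⟩ := h1 T' hT'
      have hdec : (fun U => bv (h U)) = ∑ τ ∈ T.powerset, fun U : Finset Q =>
          (if U ∩ T = τ then (1 : ℝ) else 0) * bv (h ((U \ T) ∪ τ)) := by
        funext U
        rw [Finset.sum_apply, sum_eq_single (U ∩ T)]
        · rw [if_pos rfl, one_mul]
          congr 2
          ext i
          simp only [mem_union, mem_sdiff, mem_inter]
          tauto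
        · intro τ _ hτ
          rw [if_neg (Ne.symm hτ), zero_mul]
        · intro hn
          exact absurd (mem_powerset.mpr inter_subset_right) hn
      rw [hdec]
      refine Submodule.sum_mem _ fun τ hτ => ?_
      rw [mem_powerset] at hτ
      have key : (fun U : Finset Q => bv (h ((U \ T) ∪ τ))) ∈ Jun Q (k0 * k1) := by
        refine ih (fun U => h ((U \ T) ∪ τ)) ?_ ?_ ?_
        · intro U V hUV
          exact hm _ _ (union_subset_union (sdiff_subset_sdiff hUV Subset.rfl) Subset.rfl)
        · intro U hU
          obtain ⟨T₂, hT₂, hc, hh⟩ := h1 _ hU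
          refine ⟨T₂ \ T, ?_, (card_le_card sdiff_subset).trans hc, ?_⟩
          · intro i hi
            rw [mem_sdiff] at hi
            have := hT₂ hi.1
            rw [mem_union, mem_sdiff] at this
            rcases this with h3 | h3
            · exact h3.1
            · exact absurd (hτ h3) hi.2
          · refine hm T₂ _ ?_ hh
            intro i hi
            have := hT₂ hi
            rw [mem_union, mem_sdiff] at this ⊢
            rw [mem_sdiff]
            rcases this with h3 | h3
            · exact Or.inl ⟨⟨hi, h3.2⟩, h3.2⟩
            · exact Or.inr h3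
        · intro U hU
          obtain ⟨V, hV, hc, hh⟩ := h0 _ hU
          -- `T` is not contained in `V`
          obtain ⟨j, hjT, hjV⟩ : ∃ j ∈ T, j ∉ V := by
            by_contra hcon
            push Not at hcon
            rw [hm T V hcon hT] at hh
            exact absurd hh (by decide)
          refine ⟨V ∪ T, ?_, ?_, ?_⟩
          · intro i hi
            rw [mem_union]
            by_cases hiT : i ∈ T
            · exact Or.inr hiT
            · exact Or.inl (hV (mem_union_left _ (mem_sdiff.mpr ⟨hi, hiT⟩)))
          · have hsub : (V ∪ T)ᶜ ⊆ (Vᶜ).erase j := by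
              intro i hi
              rw [mem_compl, mem_union, not_or] at hi
              rw [mem_erase, mem_compl]
              refine ⟨?_, hi.1⟩
              rintro rfl
              exact hi.2 hjT
            have h3 := card_le_card hsub
            rw [card_erase_of_mem (mem_compl.mpr hjV)] at h3
            have : 0 < (Vᶜ).card := card_pos.mpr ⟨j, mem_compl.mpr hjV⟩
            omega
          · show h (((V ∪ T) \ T) ∪ τ) = false
            by_contra hcon
            rw [Bool.not_eq_false] at hcon
            have hsub : ((V ∪ T) \ T) ∪ τ ⊆ V := by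
              intro i hi
              rw [mem_union, mem_sdiff, mem_union] at hi
              rcases hi with h3 | h3
              · rcases h3.1 with h4 | h4
                · exact h4
                · exact absurd h4 h3.2
              · exact hV (mem_union_right _ h3)
            rw [hm _ _ hsub hcon] at hh
            exact absurd hh (by decide)
      have h4 := jun_mul (k0 * k1) T τ _ key
      refine (Submodule.span_mono ?_) h4
      rintro φ ⟨J, hJ, hφ⟩
      exact ⟨J, by rw [Nat.succ_mul]; omega, hφ⟩
    · push Not at hex
      have : (fun U => bv (h U)) = 0 := by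
        funext U
        have h2 : h U = false := Bool.eq_false_iff.mpr (hex U)
        simp [h2, bv]
      rw [this]
      exact Submodule.zero_mem _

end Pool.Agent.J4.H83
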