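import Pool.Agent.J4.H83.UnMain
import Pool.Agent.N609.AndRank.Gad

/-!
Unate variables which are sums of a bit of Alice and a bit of Bob.
-/

set_option autoImplicit false

namespace Pool.Agent.J4.H83

open Finset Pool.Agent.H630R2.LR Pool.Agent.R533.VC

/-- the `j`-th variable of the third argument is unate -/
def Una {X Y Q : Type*} [DecidableEq Q] (G : X → Y → (Q → Bool) → Bool) (j : Q) : Prop :=
  (∀ x y z, G x y (Function.update z j false) = true → G x y (Function.update z j true) = true) ∨
  (∀ x y z, G x y (Function.update z j true) = true → G x y (Function.update z j false) = true)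

theorem mono_of_insert {Q : Type*} [DecidableEq Q] (h : Finset Q → Bool)
    (hm : ∀ U i, i ∉ U → h U = true → h (insert i U) = true) (U V : Finset Q) (hUV : U ⊆ V)
    (hU : h U = true) : h V = true := by
  have key : ∀ W : Finset Q, h (U ∪ W) = true := by
    intro W
    induction W using Finset.induction_on with
    | empty => simpa using hU
    | insert i W _ ih =>
      by_cases hi : i ∈ U ∪ W
      · have e : U ∪ insert i W = U ∪ W := by
          ext j
          simp only [mem_union, mem_insert] at hi ⊢
          constructor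
          · rintro (h1 | rfl | h1)
            · exact Or.inl h1
            · exact hi
            · exact Or.inr h1
          · rintro (h1 | h1)
            · exact Or.inl h1
            · exact Or.inr (Or.inr h1)
        rw [e]
        exact ih
      · have e : U ∪ insert i W = insert i (U ∪ W) := by
          ext j
          simp only [mem_union, mem_insert]
          tauto
        rw [e]
        exact hm _ i hi ih
  have := key V
  rwa [union_eq_right.mpr hUV] at this

theorem log_le_of_rank_le {a b : ℕ} (h : a ≤ b) : Real.logb 2 (a : ℝ) ≤ Real.logb 2 (b : ℝ) := by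
  rcases Nat.eq_zero_or_pos a with h0 | h0
  · rw [h0, Nat.cast_zero, Real.logb_zero]
    exact logb_nn b
  · exact Real.logb_le_logb_of_le (by norm_num) (by exact_mod_cast h0) (by exact_mod_cast h)

/-- **Adding unate XOR variables.** -/
theorem unate_proto {X Y Q : Type*} [Fintype X] [Fintype Y] [Fintype Q] [DecidableEq Q]
    (G : X → Y → (Q → Bool) → Bool) (hG : ∀ j, Una G j) (K : ℝ) (hK : 0 ≤ K) (C : ℕ)
    (hc : ∀ z, ∃ c : ℕ, Proto (fun x y => G x y z) c ∧ (c : ℝ) ≤
      K * (Real.logb 2 ((Pool.Agent.H630R2.LR.comm (fun x y => G x y z)).rank : ℝ) + 1) ^ C) :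
    ∃ c : ℕ, Proto (fun (p : X × (Q → Bool)) (q : Y × (Q → Bool)) =>
        G p.1 q.1 (fun j => xor (p.2 j) (q.2 j))) c ∧ (c : ℝ) ≤ 30 * (K + 8) *
      (Real.logb 2 ((Pool.Agent.H630R2.LR.comm
        (fun (p : X × (Q → Bool)) (q : Y × (Q → Bool)) =>
        G p.1 q.1 (fun j => xor (p.2 j) (q.2 j)))).rank : ℝ) + 1) ^ (max C 2 + 2) := by
  classical
  set F := (fun (p : X × (Q → Bool)) (q : Y × (Q → Bool)) =>
        G p.1 q.1 (fun j => xor (p.2 j) (q.2 j))) with hF
  set ℓ := Real.logb 2 ((Pool.Agent.H630R2.LR.comm F).rank : ℝ) with hℓ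
  have hℓ0 : 0 ≤ ℓ := logb_nn _
  -- flips
  have hs : ∀ j, ∃ s : Bool, ∀ x y z, G x y (Function.update z j s) = true →
      G x y (Function.update z j (!s)) = true := by
    intro j
    rcases hG j with h | h
    · exact ⟨false, h⟩
    · exact ⟨true, h⟩
  choose s hs using hs
  set G' : X → Y → Finset Q → Bool := fun x y U => G x y (fun j => xor (s j) (decide (j ∈ U)))
    with hG'
  have hmono : ∀ x y U V, U ⊆ V → G' x y U = true → G' x y V = true := by
    intro x y U V hUV
    refine mono_of_insert (G' x y) (fun U i hi hU => ?_) U V hUV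
    have e1 : (fun j => xor (s j) (decide (j ∈ U))) =
        Function.update (fun j => xor (s j) (decide (j ∈ U))) i (s i) := by
      funext j
      by_cases hj : j = i
      · subst hj
        simp [hi]
      · rw [Function.update_of_ne hj]
    have e2 : (fun j => xor (s j) (decide (j ∈ insert i U))) =
        Function.update (fun j => xor (s j) (decide (j ∈ U))) i (!(s i)) := by
      funext j
      by_cases hj : j = i
      · subst hj
        simp
      · rw [Function.update_of_ne hj]
        simp [hj]
    show G x y _ = true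
    rw [e2]
    apply hs
    rw [← e1]
    exact hU
  -- ranks
  have hrank : (Pool.Agent.H630R2.LR.comm (xorF G')).rank ≤
      (Pool.Agent.H630R2.LR.comm F).rank := by
    have e : Pool.Agent.H630R2.LR.comm (xorF G') = (Pool.Agent.H630R2.LR.comm F).submatrix
        (fun p : X × Finset Q => (p.1, fun j => xor (s j) (decide (j ∈ p.2))))
        (fun q : Y × Finset Q => (q.1, fun j => decide (j ∈ q.2))) := by
      ext p q
      rw [Matrix.submatrix_apply]
      have e2 : xorF G' p q = F (p.1, fun j => xor (s j) (decide (j ∈ p.2)))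
          (q.1, fun j => decide (j ∈ q.2)) := by
        show G p.1 q.1 _ = G p.1 q.1 _
        congr 1
        funext j
        simp only [mem_symmDiff]
        by_cases h1 : j ∈ p.2 <;> by_cases h2 : j ∈ q.2 <;> simp [h1, h2]
      show (if xorF G' p q then (1 : ℝ) else 0) = _
      rw [e2]
      rfl
    rw [e]
    exact Matrix.rank_submatrix_le _ _ _
  have hrz : ∀ z, (Pool.Agent.H630R2.LR.comm (fun x y => G x y z)).rank ≤
      (Pool.Agent.H630R2.LR.comm F).rank := by
    intro z
    have e : Pool.Agent.H630R2.LR.comm (fun x y => G x y z) =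
        (Pool.Agent.H630R2.LR.comm F).submatrix (fun x : X => (x, z))
        (fun y : Y => (y, fun _ => false)) := by
      ext x y
      rw [Matrix.submatrix_apply]
      have e2 : G x y z = F (x, z) (y, fun _ => false) := by
        show G x y _ = G x y _
        congr 1
        funext j
        simp
      show (if G x y z then (1 : ℝ) else 0) = _
      rw [e2]
      rfl
    rw [e]
    exact Matrix.rank_submatrix_le _ _ _
  -- the protocols of the slices
  set c := ⌊K * (ℓ + 1) ^ C⌋₊ with hcdef
  have hcle : (c : ℝ) ≤ K * (ℓ + 1) ^ C := Nat.floor_le (by positivity)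
  have hslice : ∀ T, Proto (fun x y => G' x y T) c := by
    intro T
    obtain ⟨c', h1, h2⟩ := hc (fun j => xor (s j) (decide (j ∈ T)))
    refine Proto.mono h1 (Nat.le_floor (h2.trans ?_))
    refine mul_le_mul_of_nonneg_left (pow_le_pow_left₀ (by linarith [logb_nn (Pool.Agent.H630R2.LR.comm
      (fun x y => G x y (fun j => xor (s j) (decide (j ∈ T))))).rank]) ?_ C) hK
    linarith [log_le_of_rank_le (hrz (fun j => xor (s j) (decide (j ∈ T))))]
  obtain ⟨c', hc', hle⟩ := core_proto G' hmono c hslice
  refine ⟨c', ?_, hle.trans ?_⟩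
  · have h1 := Proto.comap hc'
      (fun p : X × (Q → Bool) => (p.1, univ.filter (fun j => xor (s j) (p.2 j) = true)))
      (fun q : Y × (Q → Bool) => (q.1, univ.filter (fun j => q.2 j = true)))
    have e : (fun (p : X × (Q → Bool)) (q : Y × (Q → Bool)) =>
        xorF G' (p.1, univ.filter (fun j => xor (s j) (p.2 j) = true))
          (q.1, univ.filter (fun j => q.2 j = true))) = F := by
      funext p q
      show G p.1 q.1 _ = G p.1 q.1 _
      congr 1
      funext j
      simp only [mem_symmDiff, mem_filter, mem_univ, true_and]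
      cases s j <;> cases p.2 j <;> cases q.2 j <;> simp
    rw [e] at h1
    exact h1
  · set ℓ' := Real.logb 2 ((Pool.Agent.H630R2.LR.comm (xorF G')).rank : ℝ) with hℓ'
    have h1 : ℓ' ≤ ℓ := log_le_of_rank_le hrank
    have h0 : 0 ≤ ℓ' := logb_nn _
    have h2 : (ℓ' + 1) ^ 2 ≤ (ℓ + 1) ^ 2 := pow_le_pow_left₀ (by linarith) (by linarith) 2
    have h3 : (1 : ℝ) ≤ ℓ + 1 := by linarith
    have h4 : (ℓ + 1) ^ 2 ≤ (ℓ + 1) ^ (max C 2) := pow_le_pow_right₀ h3 (le_max_right _ _)
    have h5 : (ℓ + 1) ^ C ≤ (ℓ + 1) ^ (max C 2) := pow_le_pow_right₀ h3 (le_max_left _ _)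
    calc 30 * (8 * (ℓ' + 1) ^ 2 + (c : ℝ)) * (ℓ' + 1) ^ 2
        ≤ 30 * (8 * (ℓ + 1) ^ (max C 2) + K * (ℓ + 1) ^ (max C 2)) * (ℓ + 1) ^ 2 := by
          refine mul_le_mul ?_ h2 (by positivity) (by positivity)
          have := mul_le_mul_of_nonneg_left h5 hK
          linarith
      _ = 30 * (K + 8) * (ℓ + 1) ^ (max C 2 + 2) := by rw [pow_add]; ring

end Pool.Agent.J4.H83
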