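import Pool.Agent.J4.H83.Corr

/-!
Characters of the group of subsets; the rank of a matrix `G x y (A ∆ B)`.
-/

set_option autoImplicit false

namespace Pool.Agent.J4.H83

open Finset Pool.Agent.H630R2.LR Pool.Agent.R533.VC

section chars
variable {Q : Type*} [Fintype Q] [DecidableEq Q]

/-- the characters -/
def ep (S A : Finset Q) : ℝ := ∏ i, if i ∈ S ∧ i ∈ A then (-1 : ℝ) else 1

theorem ep_comm (S A : Finset Q) : ep S A = ep A S := by
  unfold ep
  refine prod_congr rfl fun i _ => ?_
  simp only [and_comm]

theorem ep_symmDiff (S A B : Finset Q) : ep S (symmDiff A B) = ep S A * ep S B := by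
  unfold ep
  rw [← prod_mul_distrib]
  refine prod_congr rfl fun i _ => ?_
  simp only [mem_symmDiff]
  by_cases h1 : i ∈ S <;> by_cases h2 : i ∈ A <;> by_cases h3 : i ∈ B <;> simp [h1, h2, h3]

theorem ep_singleton (S : Finset Q) (i : Q) : ep S {i} = if i ∈ S then -1 else 1 := by
  unfold ep
  rw [prod_eq_single i]
  · simp
  · intro j _ hj
    simp [hj]
  · intro h
    exact absurd (mem_univ _) h

theorem ep_empty (S : Finset Q) : ep S ∅ = 1 := by
  unfold ep
  simp

theorem sum_ep (D : Finset Q) (hD : D.Nonempty) : ∑ A : Finset Q, ep D A = 0 := by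
  obtain ⟨i, hi⟩ := hD
  have h1 : ∑ A : Finset Q, ep D A = ∑ A : Finset Q, ep D (symmDiff A {i}) :=
    (Equiv.sum_comp (symmDiff_left_involutive ({i} : Finset Q)).toPerm (fun A => ep D A)).symm
  have h2 : ∑ A : Finset Q, ep D (symmDiff A {i}) = - ∑ A : Finset Q, ep D A := by
    rw [← sum_neg_distrib]
    refine sum_congr rfl fun A _ => ?_
    rw [ep_symmDiff, ep_singleton, if_pos hi]
    ring
  linarith

theorem ep_orth (S S' : Finset Q) : ∑ A : Finset Q, ep S A * ep S' A =
    if S = S' then (2 : ℝ) ^ Fintype.card Q else 0 := by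
  have h1 : ∀ A : Finset Q, ep S A * ep S' A = ep (symmDiff S S') A := by
    intro A
    rw [ep_comm S, ep_comm S', ep_comm (symmDiff S S'), ep_symmDiff]
  simp only [h1]
  by_cases h : S = S'
  · rw [if_pos h, h]
    simp only [symmDiff_self]
    have h2 : ∀ A : Finset Q, ep (⊥ : Finset Q) A = 1 := fun A => by
      rw [ep_comm]
      exact ep_empty A
    simp only [h2, sum_const, nsmul_eq_mul, mul_one]
    rw [card_univ, Fintype.card_finset]
    push_cast
    rfl
  · rw [if_neg h]
    refine sum_ep _ ?_
    rw [nonempty_iff_ne_empty]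
    intro h2
    exact h (symmDiff_eq_bot.mp h2)

/-- the (unnormalised) Fourier coefficient -/
def hat (φ : Finset Q → ℝ) (S : Finset Q) : ℝ := ∑ U : Finset Q, ep S U * φ U

theorem hat_inv (φ : Finset Q → ℝ) (V : Finset Q) :
    (2 : ℝ) ^ Fintype.card Q * φ V = ∑ S : Finset Q, ep S V * hat φ S := by
  unfold hat
  simp only [mul_sum]
  rw [sum_comm]
  have h1 : ∀ U : Finset Q, ∑ S : Finset Q, ep S V * (ep S U * φ U) =
      (if U = V then (2 : ℝ) ^ Fintype.card Q else 0) * φ U := by
    intro U
    rw [← ep_orth U V, sum_mul]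
    refine sum_congr rfl fun S _ => ?_
    rw [ep_comm S V, ep_comm S U]
    ring
  simp only [h1]
  rw [sum_eq_single V]
  · simp
  · intro U _ hU
    simp [hU]
  · intro h
    exact absurd (mem_univ _) h

theorem ep_inter (S R V : Finset Q) (h : S ⊆ R) : ep S (V ∩ R) = ep S V := by
  unfold ep
  refine prod_congr rfl fun i _ => ?_
  by_cases h1 : i ∈ S
  · simp [h1, h h1]
  · simp [h1]

/-- relevant variables -/
theorem relevant (φ : Finset Q → ℝ) (R : Finset Q) (h : ∀ S, hat φ S ≠ 0 → S ⊆ R) (V : Finset Q) :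
    φ (V ∩ R) = φ V := by
  have h1 : (2 : ℝ) ^ Fintype.card Q * φ (V ∩ R) = (2 : ℝ) ^ Fintype.card Q * φ V := by
    rw [hat_inv, hat_inv]
    refine sum_congr rfl fun S _ => ?_
    by_cases hS : hat φ S = 0
    · rw [hS, mul_zero, mul_zero]
    · rw [ep_inter S R V (h S hS)]
  exact mul_left_cancel₀ (by positivity) h1

end chars

section rank
variable {X Y Q : Type*} [Fintype X] [Fintype Y] [Fintype Q] [DecidableEq Q]

/-- the bit as a real number -/
def bv (b : Bool) : ℝ := if b then 1 else 0

/-- the function `G(x, y, a + b)` -/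
def xorF (G : X → Y → Finset Q → Bool) : (X × Finset Q) → (Y × Finset Q) → Bool :=
  fun p q => G p.1 q.1 (symmDiff p.2 q.2)

open Classical in
/-- the support -/
noncomputable def supp (G : X → Y → Finset Q → Bool) : Finset (Finset Q) :=
  univ.filter (fun S => ∃ x y, hat (fun U => bv (G x y U)) S ≠ 0)

theorem sum_shift (φ : Finset Q → ℝ) (B : Finset Q) :
    ∑ A : Finset Q, φ (symmDiff A B) = ∑ C : Finset Q, φ C :=
  Equiv.sum_comp (symmDiff_left_involutive B).toPerm φ

theorem supp_card (G : X → Y → Finset Q → Bool) :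
    (supp G).card ≤ (Pool.Agent.H630R2.LR.comm (xorF G)).rank := by
  classical
  have hex : ∀ S : supp G, ∃ x y, hat (fun U => bv (G x y U)) S.1 ≠ 0 := by
    intro S
    exact (mem_filter.mp S.2).2
  choose xs ys hxy using hex
  let L : Matrix (supp G) (X × Finset Q) ℝ := fun S p => if p.1 = xs S then ep S.1 p.2 else 0
  let Rm : Matrix (Y × Finset Q) (supp G) ℝ := fun q S => if q.1 = ys S then ep S.1 q.2 else 0
  have hprod : L * Pool.Agent.H630R2.LR.comm (xorF G) * Rm =
      Matrix.diagonal (fun S : supp G => (2 : ℝ) ^ Fintype.card Q *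
        hat (fun U => bv (G (xs S) (ys S) U)) S.1) := by
    ext S S'
    rw [Matrix.mul_apply]
    have e1 : ∀ q : Y × Finset Q, (L * Pool.Agent.H630R2.LR.comm (xorF G)) S q =
        ∑ A : Finset Q, ep S.1 A * bv (G (xs S) q.1 (symmDiff A q.2)) := by
      intro q
      rw [Matrix.mul_apply, Fintype.sum_prod_type]
      rw [sum_eq_single (xs S)]
      · refine sum_congr rfl fun A _ => ?_
        simp only [L, if_true]
        rfl
      · intro x _ hx
        refine sum_eq_zero fun A _ => ?_
        simp only [L, if_neg hx, zero_mul]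
      · intro h
        exact absurd (mem_univ _) h
    simp only [e1]
    rw [Fintype.sum_prod_type]
    rw [sum_eq_single (ys S')]
    · simp only [Rm, if_true]
      have e2 : ∀ B : Finset Q, (∑ A : Finset Q, ep S.1 A *
          bv (G (xs S) (ys S') (symmDiff A B))) * ep S'.1 B =
          (ep S.1 B * ep S'.1 B) * hat (fun U => bv (G (xs S) (ys S') U)) S.1 := by
        intro B
        rw [hat, ← sum_shift (fun C => ep S.1 C * bv (G (xs S) (ys S') C)) B, mul_sum, sum_mul]
        refine sum_congr rfl fun A _ => ?_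
        rw [ep_symmDiff]
        have e3 : ep S.1 B * ep S.1 B = 1 := by
          unfold ep
          rw [← prod_mul_distrib]
          refine prod_eq_one fun i _ => ?_
          split_ifs <;> norm_num
        calc ep S.1 A * bv (G (xs S) (ys S') (symmDiff A B)) * ep S'.1 B
            = (ep S.1 B * ep S.1 B) * (ep S.1 A * bv (G (xs S) (ys S') (symmDiff A B)) *
              ep S'.1 B) := by rw [e3, one_mul]
          _ = _ := by ring
      simp only [e2]
      rw [← sum_mul, ep_orth]
      by_cases h : S = S'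
      · subst h
        rw [if_pos rfl, Matrix.diagonal_apply_eq]
      · rw [if_neg (fun h' => h (Subtype.ext h')), zero_mul, Matrix.diagonal_apply_ne _ h]
    · intro y _ hy
      refine sum_eq_zero fun B _ => ?_
      simp only [Rm, if_neg hy, mul_zero]
    · intro h
      exact absurd (mem_univ _) h
  have h1 : (Matrix.diagonal (fun S : supp G => (2 : ℝ) ^ Fintype.card Q *
      hat (fun U => bv (G (xs S) (ys S) U)) S.1)).rank = (supp G).card := by
    rw [Matrix.rank_diagonal]
    rw [← Fintype.card_coe (supp G)]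
    refine Fintype.card_congr (Equiv.subtypeUnivEquiv fun S => ?_)
    exact mul_ne_zero (by positivity) (hxy S)
  rw [← h1, ← hprod]
  exact (Matrix.rank_mul_le_left _ _).trans (Matrix.rank_mul_le_right _ _)

end rank

end Pool.Agent.J4.H83
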