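import Pool.Agent.J4.H83.UnDeg
import Pool.Agent.J4.H83.Trans

/-!
Functions `G(x, y, a + b)`, `G` monotone in the third argument: small certificates, a small cover of
the ones, the protocol.
-/

set_option autoImplicit false

namespace Pool.Agent.J4.H83

open Finset Pool.Agent.H630R2.LR Pool.Agent.R533.VC

theorem logb_nn (r : ℕ) : 0 ≤ Real.logb 2 (r : ℝ) := by
  rcases Nat.eq_zero_or_pos r with h | h
  · rw [h]; simp
  · exact Real.logb_nonneg (by norm_num) (by exact_mod_cast h)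

theorem clog_le (m : ℕ) (hm : 1 ≤ m) : (Nat.clog 2 m : ℝ) ≤ Real.logb 2 m + 1 := by
  rcases Nat.lt_or_ge 1 m with h2 | h2
  · have h3 : 2 ^ (Nat.clog 2 m - 1) < m := Nat.pow_pred_clog_lt_self (by norm_num) h2
    have h4 : 1 ≤ Nat.clog 2 m := Nat.clog_pos (by norm_num) h2
    have hm0 : (0 : ℝ) < m := by exact_mod_cast hm
    have h5 : ((Nat.clog 2 m - 1 : ℕ) : ℝ) ≤ Real.logb 2 m := by
      rw [Real.le_logb_iff_rpow_le (by norm_num) hm0, Real.rpow_natCast]
      exact_mod_cast h3.le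
    rw [Nat.cast_sub h4] at h5
    push_cast at h5
    linarith
  · have : m = 1 := by omega
    subst this
    simp

theorem rank_zero_proto {X Y : Type*} [Fintype X] [Fintype Y] (F : X → Y → Bool)
    (hr0 : (Pool.Agent.H630R2.LR.comm F).rank = 0) : Proto F 0 := by
  obtain ⟨T, hT, hs⟩ := exists_rows (Pool.Agent.H630R2.LR.comm F)
  have hT0 : T = ∅ := Finset.card_eq_zero.mp (Nat.le_zero.mp (hT.trans hr0.le))
  refine Proto.const F false fun x y => ?_
  have h3 : (if F x y then (1 : ℝ) else 0) = 0 :=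
    span_zero (Pool.Agent.H630R2.LR.comm F) T y
      (fun a ha => absurd ha (by rw [hT0]; simp)) _ (hs x)
  cases hF : F x y
  · rfl
  · rw [hF] at h3
    norm_num at h3

/-- **A cover of the ones by `2 ^ κ` rectangles gives a protocol** (Lovász and Saks). -/
theorem cover_proto {X Y Ω : Type*} [Fintype X] [Fintype Y] [Fintype Ω] (F : X → Y → Bool)
    (a : Ω → X → Prop) (b : Ω → Y → Prop) (κ : ℕ) (hκ : Fintype.card Ω ≤ 2 ^ κ)
    (h1 : ∀ ω x y, a ω x → b ω y → F x y = true)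
    (h2 : ∀ x y, F x y = true → ∃ ω, a ω x ∧ b ω y) :
    ∃ c : ℕ, Proto F c ∧ (c : ℝ) ≤
      30 * (κ + 1) * (Real.logb 2 ((Pool.Agent.H630R2.LR.comm F).rank : ℝ) + 1) ^ 2 := by
  classical
  set r := (Pool.Agent.H630R2.LR.comm F).rank with hr
  by_cases hr0 : r = 0
  · refine ⟨0, rank_zero_proto F hr0, ?_⟩
    rw [Nat.cast_zero]
    positivity
  have hr1 : 1 ≤ r := Nat.one_le_iff_ne_zero.mpr hr0
  set c := Nat.clog 2 r with hc
  have hval1 : ∀ x y, F x y = true → 2 ≤ val a b (fun _ => (2 : ℝ)) x y := by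
    intro x y hF
    obtain ⟨ω, hω⟩ := h2 x y hF
    unfold val
    have : (if a ω x ∧ b ω y then (2 : ℝ) else 0) ≤
        ∑ ω, (if a ω x ∧ b ω y then (2 : ℝ) else 0) := by
      refine single_le_sum (f := fun ω => if a ω x ∧ b ω y then (2 : ℝ) else 0)
        (fun ω _ => ?_) (mem_univ ω)
      show (0 : ℝ) ≤ if a ω x ∧ b ω y then (2 : ℝ) else 0
      split_ifs <;> norm_num
    rwa [if_pos hω] at this
  have hval0 : ∀ x y, F x y ≠ true → val a b (fun _ => (2 : ℝ)) x y ≤ 1 := by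
    intro x y hF
    unfold val
    rw [sum_eq_zero]
    · exact zero_le_one
    · intro ω _
      rw [if_neg]
      rintro ⟨ha, hb⟩
      exact hF (h1 ω x y ha hb)
  have hrich : Rich F (4 * 2 ^ ((κ + 1) * (7 + 2 * c))) := by
    refine rich F true (r + 1) le_rfl a b (fun _ => 2) (fun _ => by norm_num) (κ + 1) (7 + 2 * c)
      ?_ 2 (by norm_num) hval1 hval0 ?_
    · rw [sum_const, card_univ, nsmul_eq_mul, pow_succ]
      have : (Fintype.card Ω : ℝ) ≤ 2 ^ κ := by exact_mod_cast hκ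
      linarith
    · have e4 : r ≤ 2 ^ c := Nat.le_pow_clog (by norm_num) r
      have e5 : 4 * (r + 1) * (4 * (r + 1) + 1) ≤ 2 ^ (7 + 2 * c) := by
        calc 4 * (r + 1) * (4 * (r + 1) + 1) ≤ (8 * r) * (9 * r) := by
              exact Nat.mul_le_mul (by omega) (by omega)
          _ ≤ 2 ^ 7 * (r * r) := by nlinarith
          _ ≤ 2 ^ 7 * (2 ^ c * 2 ^ c) := Nat.mul_le_mul_left _ (Nat.mul_le_mul e4 e4)
          _ = 2 ^ (7 + 2 * c) := by rw [pow_add, two_mul, pow_add]
      exact_mod_cast e5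
  have hP := nw F _ (by
    have : 1 ≤ 2 ^ ((κ + 1) * (7 + 2 * c)) := Nat.one_le_pow _ _ (by norm_num)
    omega) hrich ((κ + 1) * (7 + 2 * c) + c + 4) (by
    have e4 : r ≤ 2 ^ c := Nat.le_pow_clog (by norm_num) r
    have e5 : 1 ≤ 2 ^ ((κ + 1) * (7 + 2 * c) + c) := Nat.one_le_pow _ _ (by norm_num)
    calc 2 * r * (4 * 2 ^ ((κ + 1) * (7 + 2 * c))) + 2 ≤
        2 * 2 ^ c * (4 * 2 ^ ((κ + 1) * (7 + 2 * c))) + 2 := by
          have := Nat.mul_le_mul_right (4 * 2 ^ ((κ + 1) * (7 + 2 * c)))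
            (Nat.mul_le_mul_left 2 e4)
          omega
      _ = 8 * 2 ^ ((κ + 1) * (7 + 2 * c) + c) + 2 := by rw [pow_add]; ring
      _ ≤ 16 * 2 ^ ((κ + 1) * (7 + 2 * c) + c) := by omega
      _ = 2 ^ ((κ + 1) * (7 + 2 * c) + c + 4) := by rw [pow_add _ _ 4]; ring)
  refine ⟨_, hP, ?_⟩
  rw [← hr, ← hc]
  have hcl := clog_le r hr1
  rw [← hc] at hcl
  set l := Real.logb 2 (r : ℝ) with hl
  have hl0 : 0 ≤ l := logb_nn r
  push_cast
  set C : ℝ := (c : ℝ) with hC
  have hC0 : 0 ≤ C := by positivity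
  have hκ0 : (0 : ℝ) ≤ κ := by positivity
  have e1 : ((κ : ℝ) + 1) * (7 + 2 * C) ≤ (κ + 1) * (9 * (l + 1)) := by
    refine mul_le_mul_of_nonneg_left ?_ (by positivity)
    linarith
  have e2 : ((κ : ℝ) + 1) * (7 + 2 * C) + C + 4 ≤ (9 * (κ + 1) + 5) * (l + 1) := by nlinarith
  have e3 : 2 * (((κ : ℝ) + 1) * (7 + 2 * C) + C + 4) * C ≤
      2 * ((9 * (κ + 1) + 5) * (l + 1)) * (l + 1) := by
    refine mul_le_mul (by linarith) hcl hC0 (by positivity)
  have e4 : (1 : ℝ) ≤ (l + 1) ^ 2 := by nlinarith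
  have e5 : (12 : ℝ) * (l + 1) ^ 2 ≤ 12 * (κ + 1) * (l + 1) ^ 2 := by nlinarith
  nlinarith

section core
variable {X Y Q : Type*} [Fintype X] [Fintype Y] [Fintype Q] [DecidableEq Q]

/-- a matrix with an identity submatrix -/
theorem id_sub {A B P : Type*} [Fintype A] [Fintype B] [Fintype P] (M : Matrix A B ℝ)
    (f : P → A) (g : P → B) (h : ∀ p q, M (f p) (g q) ≠ 0 ↔ p = q) :
    Fintype.card P ≤ M.rank := by
  classical
  have e : M.submatrix f g = Matrix.diagonal (fun p => M (f p) (g p)) := by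
    ext p q
    rw [Matrix.submatrix_apply]
    by_cases hpq : p = q
    · subst hpq
      rw [Matrix.diagonal_apply_eq]
    · rw [Matrix.diagonal_apply_ne _ hpq]
      by_contra hne
      exact hpq ((h p q).mp hne)
  have h1 : (Matrix.diagonal (fun p => M (f p) (g p))).rank = Fintype.card P := by
    rw [Matrix.rank_diagonal]
    exact Fintype.card_congr (Equiv.subtypeUnivEquiv fun p => (h p p).mpr rfl)
  rw [← h1, ← e]
  exact Matrix.rank_submatrix_le _ _ _

theorem card_sub (T : Finset Q) : Fintype.card {A : Finset Q // A ⊆ T} = 2 ^ T.card := by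
  classical
  rw [← card_powerset, Fintype.card_subtype]
  congr 1
  ext A
  simp

/-- minimal ones are small -/
theorem min_card (G : X → Y → Finset Q → Bool) (x : X) (y : Y) (T : Finset Q)
    (hT : G x y T = true) (hmin : ∀ T' ⊂ T, G x y T' = false) :
    2 ^ T.card ≤ (Pool.Agent.H630R2.LR.comm (xorF G)).rank := by
  classical
  rw [← card_sub]
  refine id_sub _ (fun A : {A : Finset Q // A ⊆ T} => (x, A.1))
    (fun A : {A : Finset Q // A ⊆ T} => (y, T \ A.1)) fun A A' => ?_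
  have hval : Pool.Agent.H630R2.LR.comm (xorF G) (x, A.1) (y, T \ A'.1) =
      if G x y (symmDiff A.1 (T \ A'.1)) then 1 else 0 := rfl
  rw [hval]
  have hsub : symmDiff A.1 (T \ A'.1) ⊆ T := by
    intro i hi
    rw [mem_symmDiff, mem_sdiff] at hi
    rcases hi with h | h
    · exact A.2 h.1
    · exact h.1.1
  by_cases hA : A = A'
  · have e : symmDiff A.1 (T \ A'.1) = T := by
      rw [hA]
      ext i
      rw [mem_symmDiff, mem_sdiff]
      have h4 : i ∈ A'.1 → i ∈ T := fun h => A'.2 h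
      tauto
    rw [e, hT]
    simp [hA]
  · have hss : symmDiff A.1 (T \ A'.1) ⊂ T := by
      refine Finset.ssubset_iff_subset_ne.mpr ⟨hsub, fun h => hA ?_⟩
      apply Subtype.ext
      ext i
      have h3 : i ∈ symmDiff A.1 (T \ A'.1) ↔ i ∈ T := by rw [h]
      rw [mem_symmDiff, mem_sdiff] at h3
      have h4 : i ∈ A'.1 → i ∈ T := fun h => A'.2 h
      have h5 : i ∈ A.1 → i ∈ T := fun h => A.2 h
      tauto
    rw [hmin _ hss]
    simp [hA]

/-- maximal zeros are large -/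
theorem max_card (G : X → Y → Finset Q → Bool) (x : X) (y : Y) (V : Finset Q)
    (hV : G x y V = false) (hmax : ∀ V', V ⊂ V' → G x y V' = true) :
    2 ^ (Vᶜ).card ≤ (Pool.Agent.H630R2.LR.comm (xorF G)).rank + 1 := by
  classical
  refine le_trans ?_ (ind_rank (xorF G) false)
  rw [← card_sub]
  refine id_sub _ (fun A : {A : Finset Q // A ⊆ Vᶜ} => (x, A.1))
    (fun A : {A : Finset Q // A ⊆ Vᶜ} => (y, A.1 ∪ V)) fun A A' => ?_
  rw [ind_ne]
  show G x y (symmDiff A.1 (A'.1 ∪ V)) = false ↔ A = A'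
  have hsub : V ⊆ symmDiff A.1 (A'.1 ∪ V) := by
    intro i hi
    rw [mem_symmDiff, mem_union]
    right
    refine ⟨Or.inr hi, fun h => ?_⟩
    have := A.2 h
    rw [mem_compl] at this
    exact this hi
  by_cases hA : A = A'
  · have e : symmDiff A.1 (A'.1 ∪ V) = V := by
      rw [hA]
      ext i
      rw [mem_symmDiff, mem_union]
      have h2 : i ∈ A'.1 → i ∉ V := fun h => mem_compl.mp (A'.2 h)
      tauto
    rw [e, hV]
    simp [hA]
  · have hss : V ⊂ symmDiff A.1 (A'.1 ∪ V) := by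
      refine Finset.ssubset_iff_subset_ne.mpr ⟨hsub, fun h => hA ?_⟩
      apply Subtype.ext
      ext i
      have h3 : i ∈ symmDiff A.1 (A'.1 ∪ V) ↔ i ∈ V := by rw [← h]
      rw [mem_symmDiff, mem_union] at h3
      have h4 : i ∈ A'.1 → i ∉ V := fun h => mem_compl.mp (A'.2 h)
      have h5 : i ∈ A.1 → i ∉ V := fun h => mem_compl.mp (A.2 h)
      tauto
    rw [hmax _ hss]
    simp [hA]

theorem cone (G : X → Y → Finset Q → Bool) (x : X) (y : Y) :
    Cone (G x y) (Nat.log 2 (Pool.Agent.H630R2.LR.comm (xorF G)).rank) := by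
  classical
  intro U hU
  obtain ⟨T, hT, hmin⟩ := exists_min_image (U.powerset.filter (fun T => G x y T = true)) card
    ⟨U, mem_filter.mpr ⟨mem_powerset_self U, hU⟩⟩
  rw [mem_filter, mem_powerset] at hT
  refine ⟨T, hT.1, ?_, hT.2⟩
  refine Nat.le_log_of_pow_le (by norm_num) (min_card G x y T hT.2 fun T' hT' => ?_)
  by_contra hcon
  rw [Bool.not_eq_false] at hcon
  have h1 := hmin T' (mem_filter.mpr ⟨mem_powerset.mpr (hT'.subset.trans hT.1), hcon⟩)
  have h2 := card_lt_card hT'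
  omega

theorem czero (G : X → Y → Finset Q → Bool) (x : X) (y : Y) :
    Czero (G x y) (Nat.log 2 ((Pool.Agent.H630R2.LR.comm (xorF G)).rank + 1)) := by
  classical
  intro U hU
  obtain ⟨V, hV, hmax⟩ := exists_max_image
    ((univ : Finset (Finset Q)).filter (fun V => U ⊆ V ∧ G x y V = false)) card
    ⟨U, mem_filter.mpr ⟨mem_univ _, Subset.rfl, hU⟩⟩
  rw [mem_filter] at hV
  refine ⟨V, hV.2.1, ?_, hV.2.2⟩
  refine Nat.le_log_of_pow_le (by norm_num) (max_card G x y V hV.2.2 fun V' hV' => ?_)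
  by_contra hcon
  rw [Bool.not_eq_true] at hcon
  have h1 := hmax V' (mem_filter.mpr ⟨mem_univ _, hV.2.1.trans hV'.subset, hcon⟩)
  have h2 := card_lt_card hV'
  omega

/-- the relevant variables -/
theorem exists_rel (G : X → Y → Finset Q → Bool)
    (hG : ∀ x y U V, U ⊆ V → G x y U = true → G x y V = true) :
    ∃ R : Finset Q, R.card ≤ (Pool.Agent.H630R2.LR.comm (xorF G)).rank *
      (Nat.log 2 ((Pool.Agent.H630R2.LR.comm (xorF G)).rank + 1) *
        Nat.log 2 (Pool.Agent.H630R2.LR.comm (xorF G)).rank) ∧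
      ∀ x y V, G x y (V ∩ R) = G x y V := by
  classical
  refine ⟨(supp G).biUnion id, ?_, fun x y V => ?_⟩
  · refine (card_biUnion_le_card_mul _ _ _ fun S hS => ?_).trans
      (Nat.mul_le_mul_right _ (supp_card G))
    rw [supp, mem_filter] at hS
    obtain ⟨_, x, y, hxy⟩ := hS
    by_contra hcon
    push Not at hcon
    exact hxy (jun_hat _ S hcon _ (deg _ _ (G x y) (hG x y) (cone G x y) (czero G x y)))
  · have h1 := relevant (fun U => bv (G x y U)) ((supp G).biUnion id) (fun S hS => by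
      intro i hi
      rw [mem_biUnion]
      refine ⟨S, ?_, hi⟩
      rw [supp, mem_filter]
      exact ⟨mem_univ _, x, y, hS⟩) V
    simp only [bv] at h1
    cases h2 : G x y (V ∩ (supp G).biUnion id) <;> cases h3 : G x y V <;> simp_all

theorem exists_enum (R T : Finset Q) (hT : T ⊆ R) (k : ℕ) (hk : T.card ≤ k) :
    ∃ s : Fin k → Option R, ∀ i : R, (∃ j, s j = some i) ↔ i.1 ∈ T := by
  classical
  set e := T.equivFin with he
  refine ⟨fun j => if h : j.1 < T.card then some ⟨(e.symm ⟨j.1, h⟩).1, hT (e.symm ⟨j.1, h⟩).2⟩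
    else none, fun i => ⟨?_, fun hi => ?_⟩⟩
  · rintro ⟨j, hj⟩
    by_cases h : j.1 < T.card
    · simp only [h, dite_true, Option.some.injEq] at hj
      rw [← hj]
      exact (e.symm ⟨j.1, h⟩).2
    · simp only [h, dite_false] at hj
      exact absurd hj (by simp)
  · refine ⟨⟨(e ⟨i.1, hi⟩).1, lt_of_lt_of_le (e ⟨i.1, hi⟩).2 hk⟩, ?_⟩
    simp

/-- **The main estimate.** -/
theorem core_proto (G : X → Y → Finset Q → Bool)
    (hG : ∀ x y U V, U ⊆ V → G x y U = true → G x y V = true) (c : ℕ)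
    (hc : ∀ T, Proto (fun x y => G x y T) c) :
    ∃ c' : ℕ, Proto (xorF G) c' ∧ (c' : ℝ) ≤
      30 * (8 * (Real.logb 2 ((Pool.Agent.H630R2.LR.comm (xorF G)).rank : ℝ) + 1) ^ 2 + c) *
        (Real.logb 2 ((Pool.Agent.H630R2.LR.comm (xorF G)).rank : ℝ) + 1) ^ 2 := by
  classical
  set r := (Pool.Agent.H630R2.LR.comm (xorF G)).rank with hr
  by_cases hr0 : r = 0
  · refine ⟨0, rank_zero_proto _ hr0, ?_⟩
    rw [Nat.cast_zero]
    positivity
  have hr1 : 1 ≤ r := Nat.one_le_iff_ne_zero.mpr hr0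
  obtain ⟨R, hR, hrel⟩ := exists_rel G hG
  rw [← hr] at hR
  choose owner a b out hout using hc
  set k1 := Nat.log 2 r with hk1
  let Ts : (Fin k1 → Option R) → Finset Q := fun s =>
    (univ.filter (fun i : R => ∃ j, s j = some i)).map (Function.Embedding.subtype _)
  have hTs : ∀ s i, i ∈ Ts s ↔ ∃ h : i ∈ R, ∃ j, s j = some ⟨i, h⟩ := by
    intro s i
    simp only [Ts, mem_map, mem_filter, mem_univ, true_and, Function.Embedding.subtype_apply,
      Subtype.exists, exists_and_right, exists_eq_right]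
  let al : ((Fin k1 → Option R) × (Fin k1 → Bool) × List.Vector Bool c) → X × Finset Q → Prop :=
    fun ω p => (∀ j i, ω.1 j = some i → (i.1 ∈ p.2 ↔ ω.2.1 j = true)) ∧
      (∃ y, tr (owner (Ts ω.1)) (a (Ts ω.1)) (b (Ts ω.1)) p.1 y c = ω.2.2.toList) ∧
      out (Ts ω.1) ω.2.2.toList = true
  let bo : ((Fin k1 → Option R) × (Fin k1 → Bool) × List.Vector Bool c) → Y × Finset Q → Prop :=
    fun ω q => (∀ j i, ω.1 j = some i → (i.1 ∈ q.2 ↔ ω.2.1 j = false)) ∧
      (∃ x, tr (owner (Ts ω.1)) (a (Ts ω.1)) (b (Ts ω.1)) x q.1 c = ω.2.2.toList)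
  obtain ⟨c', hc', hle⟩ := cover_proto (xorF G) al bo (k1 * Nat.clog 2 (R.card + 1) + k1 + c)
    (by
      rw [Fintype.card_prod, Fintype.card_prod, Fintype.card_fun, Fintype.card_fun,
        Fintype.card_option, Fintype.card_coe, Fintype.card_fin, Fintype.card_bool, card_vector,
        Fintype.card_bool, pow_add, pow_add, mul_assoc]
      refine Nat.mul_le_mul_right _ ?_
      rw [mul_comm k1, pow_mul]
      exact Nat.pow_le_pow_left (Nat.le_pow_clog (by norm_num) _) _)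
    (by
      rintro ω ⟨x, A⟩ ⟨y, B⟩ ⟨h1, ⟨y', h2⟩, h3⟩ ⟨h4, ⟨x', h5⟩⟩
      have h6 : tr (owner (Ts ω.1)) (a (Ts ω.1)) (b (Ts ω.1)) x y c = ω.2.2.toList :=
        (tr_rect _ _ _ x x' y' y c (h2.trans h5.symm)).trans h2
      have h7 := hout (Ts ω.1) x y
      change out (Ts ω.1) (tr (owner (Ts ω.1)) (a (Ts ω.1)) (b (Ts ω.1)) x y c) = _ at h7
      rw [h6, h3] at h7
      refine hG x y (Ts ω.1) _ ?_ h7.symm
      intro i hi
      rw [hTs] at hi
      obtain ⟨hiR, j, hj⟩ := hi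
      have h8 := h1 j ⟨i, hiR⟩ hj
      have h9 := h4 j ⟨i, hiR⟩ hj
      show i ∈ symmDiff A B
      rw [mem_symmDiff]
      simp only at h8 h9
      cases hω : ω.2.1 j
      · rw [hω] at h8 h9
        right
        exact ⟨h9.mpr rfl, fun h => absurd (h8.mp h) (by decide)⟩
      · rw [hω] at h8 h9
        left
        exact ⟨h8.mpr rfl, fun h => absurd (h9.mp h) (by decide)⟩)
    (by
      rintro ⟨x, A⟩ ⟨y, B⟩ hF
      have h1 : G x y (symmDiff A B) = true := hF
      rw [← hrel] at h1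
      obtain ⟨T, hT, hTc, hTt⟩ := cone G x y _ h1
      obtain ⟨s, hs⟩ := exists_enum R T (hT.trans inter_subset_right) k1 hTc
      have hTsT : Ts s = T := by
        ext i
        rw [hTs]
        constructor
        · rintro ⟨h, hj⟩
          exact (hs ⟨i, h⟩).mp hj
        · intro hi
          exact ⟨(mem_inter.mp (hT hi)).2, (hs ⟨i, _⟩).mpr hi⟩
      obtain ⟨τ, hτ⟩ : ∃ τ : List.Vector Bool c, τ.toList =
          tr (owner (Ts s)) (a (Ts s)) (b (Ts s)) x y c := ⟨⟨_, tr_length _ _ _ x y c⟩, rfl⟩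
      refine ⟨(s, fun j => match s j with
        | some i => decide (i.1 ∈ A)
        | none => true, τ), ⟨fun j i hj => ?_, ⟨y, hτ.symm⟩, ?_⟩, ⟨fun j i hj => ?_, ⟨x, hτ.symm⟩⟩⟩
      · have hj' : s j = some i := hj
        simp only [hj', decide_eq_true_eq]
      · show out (Ts s) τ.toList = true
        rw [hτ]
        have := hout (Ts s) x y
        change out (Ts s) (tr (owner (Ts s)) (a (Ts s)) (b (Ts s)) x y c) = _ at this
        rw [this]
        show G x y (Ts s) = true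
        rw [hTsT, hTt]
      · have hj' : s j = some i := hj
        simp only [hj', decide_eq_false_iff_not]
        have hi : i.1 ∈ symmDiff A B := by
          have : i.1 ∈ T := (hs i).mp ⟨j, hj⟩
          exact (mem_inter.mp (hT this)).1
        rw [mem_symmDiff] at hi
        tauto)
  refine ⟨c', hc', hle.trans ?_⟩
  rw [← hr]
  set l := Real.logb 2 (r : ℝ) with hl
  have hl0 : 0 ≤ l := logb_nn r
  have hk1l : (k1 : ℝ) ≤ l := by
    rw [hl, Real.le_logb_iff_rpow_le (by norm_num) (by exact_mod_cast hr1), Real.rpow_natCast, hk1]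
    exact_mod_cast Nat.pow_log_le_self 2 (by omega)
  have hcl : (Nat.clog 2 (R.card + 1) : ℝ) ≤ 3 * l + 6 := by
    have h1 : R.card + 1 ≤ 2 ^ (3 + 3 * Nat.clog 2 r) := by
      have h2 : Nat.log 2 r ≤ r := Nat.log_le_self 2 r
      have h3 : Nat.log 2 (r + 1) ≤ r + 1 := Nat.log_le_self 2 (r + 1)
      have h4 : R.card ≤ r * ((r + 1) * r) := hR.trans
        (Nat.mul_le_mul_left _ (Nat.mul_le_mul h3 h2))
      have h5 : r ≤ 2 ^ Nat.clog 2 r := Nat.le_pow_clog (by norm_num) r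
      calc R.card + 1 ≤ (2 * r) ^ 3 := by
            have h7 : 1 ≤ r * r * r := Nat.mul_pos (Nat.mul_pos hr1 hr1) hr1
            have h8 : r * r ≤ r * r * r := Nat.le_mul_of_pos_right _ hr1
            have h9 : r * ((r + 1) * r) = r * r * r + r * r := by ring
            have h10 : (2 * r) ^ 3 = 8 * (r * r * r) := by ring
            omega
        _ ≤ (2 * 2 ^ Nat.clog 2 r) ^ 3 := Nat.pow_le_pow_left (Nat.mul_le_mul_left _ h5) 3
        _ = 2 ^ (3 + 3 * Nat.clog 2 r) := by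
            rw [mul_pow, ← pow_mul, pow_add]
            congr 2
            ring
    have h2 : Nat.clog 2 (R.card + 1) ≤ 3 + 3 * Nat.clog 2 r :=
      (Nat.clog_le_iff_le_pow (by norm_num)).mpr h1
    have h3 := clog_le r hr1
    have h4 : (Nat.clog 2 (R.card + 1) : ℝ) ≤ 3 + 3 * Nat.clog 2 r := by exact_mod_cast h2
    rw [← hl] at h3
    linarith
  have hc0 : (0 : ℝ) ≤ c := by positivity
  have hκ : ((k1 * Nat.clog 2 (R.card + 1) + k1 + c : ℕ) : ℝ) + 1 ≤ 8 * (l + 1) ^ 2 + c := by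
    push_cast
    have h1 : (k1 : ℝ) * Nat.clog 2 (R.card + 1) ≤ l * (3 * l + 6) :=
      mul_le_mul hk1l hcl (by positivity) hl0
    nlinarith
  refine mul_le_mul_of_nonneg_right ?_ (by positivity)
  linarith

end core

end Pool.Agent.J4.H83
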